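import Pool.Agent.Run7.h615.WI.Mom

/-!
# Characteristic polynomials with integral coefficients
-/

namespace Run7.h615.WI

universe u v

open Module Polynomial

section one

variable {K : Type*} [Field K]

lemma rm_pow (α : K) (p : K[X]) (n : ℕ) :
    (p ^ n).rootMultiplicity α = n * p.rootMultiplicity α := by
  classical
  rw [← count_roots, roots_pow, Multiset.count_nsmul, count_roots]

lemma rm_prod {ι : Type*} (s : Finset ι) (F : ι → K[X]) (h : ∀ i ∈ s, F i ≠ 0) (α : K) :
    (∏ i ∈ s, F i).rootMultiplicity α = ∑ i ∈ s, (F i).rootMultiplicity α := by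
  classical
  induction s using Finset.induction_on with
  | empty =>
    rw [Finset.prod_empty, Finset.sum_empty, ← C_1, rootMultiplicity_C]
  | insert a s ha ih =>
    have h1 : F a ≠ 0 := h a (Finset.mem_insert_self a s)
    have h2 : ∏ i ∈ s, F i ≠ 0 :=
      Finset.prod_ne_zero_iff.2 fun i hi => h i (Finset.mem_insert_of_mem hi)
    rw [Finset.prod_insert ha, Finset.sum_insert ha, rootMultiplicity_mul (mul_ne_zero h1 h2),
      ih fun i hi => h i (Finset.mem_insert_of_mem hi)]

lemma eq_of_rm [IsAlgClosed K] {p p' : K[X]} (hp : p.Monic) (hp' : p'.Monic)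
    (h : ∀ α, p.rootMultiplicity α = p'.rootMultiplicity α) : p = p' := by
  classical
  have h1 : p.roots = p'.roots := Multiset.ext.2 fun α => by
    rw [count_roots, count_roots, h]
  rw [(IsAlgClosed.splits p).eq_prod_roots_of_monic hp,
    (IsAlgClosed.splits p').eq_prod_roots_of_monic hp', h1]

lemma minpoly_map [CharZero K] {α : K} (hα : IsIntegral ℤ α) :
    minpoly ℚ α = (minpoly ℤ α).map (Int.castRingHom ℚ) :=
  minpoly.isIntegrallyClosed_eq_field_fractions' ℚ hα

end one

section two

variable {K : Type*} [Field K] [CharZero K] {K' : Type*} [Field K'] [CharZero K']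

lemma minpoly_int {α : K} {α' : K'} (hα : IsIntegral ℤ α) (hα' : IsIntegral ℤ α') :
    minpoly ℤ α = minpoly ℤ α' ↔ minpoly ℚ α = minpoly ℚ α' := by
  rw [minpoly_map hα, minpoly_map hα']
  exact ⟨fun h => by rw [h], fun h => map_injective _ Int.cast_injective h⟩

open Classical in
lemma rm_minpoly {α : K} (hα : IsIntegral ℤ α) (β : K') :
    ((minpoly ℤ α).map (Int.castRingHom K')).rootMultiplicity β =
      if IsIntegral ℤ β ∧ minpoly ℤ β = minpoly ℤ α then 1 else 0 := by
  have hm := minpoly.monic hα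
  have hirr : Irreducible (minpoly ℚ α) := minpoly.irreducible hα.tower_top
  have e1 : (minpoly ℤ α).map (Int.castRingHom K') =
      (minpoly ℚ α).map (algebraMap ℚ K') := by
    rw [minpoly_map hα, Polynomial.map_map]
    congr 1
    exact RingHom.ext_int _ _
  have hsep : ((minpoly ℤ α).map (Int.castRingHom K')).Separable := by
    rw [e1]
    exact hirr.separable.map
  have hle := rootMultiplicity_le_one_of_separable hsep β
  have h0 : (minpoly ℤ α).map (Int.castRingHom K') ≠ 0 := (hm.map _).ne_zero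
  have hpos : 0 < ((minpoly ℤ α).map (Int.castRingHom K')).rootMultiplicity β ↔
      aeval β (minpoly ℤ α) = 0 := by
    rw [rootMultiplicity_pos h0, IsRoot.def, eval_map]
    rfl
  split_ifs with h
  · have h1 : aeval β (minpoly ℤ α) = 0 := by
      rw [← h.2]
      exact minpoly.aeval ℤ β
    have := hpos.2 h1
    omega
  · by_contra hne
    have h1 := hpos.1 (by omega)
    apply h
    have hβ : IsIntegral ℤ β := ⟨minpoly ℤ α, hm, h1⟩
    refine ⟨hβ, ?_⟩
    rw [minpoly_int hβ hα]
    symm
    apply minpoly.eq_of_irreducible_of_monic hirr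
    · have h2 : aeval β (minpoly ℚ α) = eval β ((minpoly ℚ α).map (algebraMap ℚ K')) := by
        rw [eval_map]
        rfl
      have h3 : aeval β (minpoly ℤ α) = eval β ((minpoly ℤ α).map (Int.castRingHom K')) := by
        rw [eval_map]
        rfl
      rw [h2, ← e1, ← h3, h1]
    · rw [minpoly_map hα]
      exact hm.map _

end two

section family

variable {Λ : Type} {Ω : Λ → Type u} [∀ l, Field (Ω l)] [∀ l, CharZero (Ω l)]
  [∀ l, IsAlgClosed (Ω l)]

/-- Polynomials with integral roots and multiplicities independent of `l`. -/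
theorem exists_poly (f : ∀ l, (Ω l)[X]) (hf : ∀ l, (f l).Monic)
    (hint : ∀ l (α : Ω l), (f l).rootMultiplicity α ≠ 0 → IsIntegral ℤ α)
    (hind : ∀ (l l' : Λ) (α : Ω l) (α' : Ω l'), minpoly ℚ α = minpoly ℚ α' →
      (f l).rootMultiplicity α = (f l').rootMultiplicity α') :
    ∃ P : ℤ[X], P.Monic ∧ ∀ l, f l = P.map (Int.castRingHom (Ω l)) := by
  classical
  rcases isEmpty_or_nonempty Λ with h | ⟨⟨l₀⟩⟩
  · exact ⟨1, monic_one, fun l => (h.false l).elim⟩
  set M : Finset ℤ[X] := (f l₀).roots.toFinset.image (minpoly ℤ) with hM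
  have hmem : ∀ g ∈ M, ∃ α : Ω l₀, (f l₀).rootMultiplicity α ≠ 0 ∧ minpoly ℤ α = g := by
    intro g hg
    obtain ⟨α, hα, rfl⟩ := Finset.mem_image.1 hg
    refine ⟨α, ?_, rfl⟩
    rw [Multiset.mem_toFinset] at hα
    rw [← count_roots]
    exact (Multiset.count_pos.2 hα).ne'
  have hmem' : ∀ α : Ω l₀, (f l₀).rootMultiplicity α ≠ 0 → minpoly ℤ α ∈ M := by
    intro α hα
    refine Finset.mem_image.2 ⟨α, ?_, rfl⟩
    rw [Multiset.mem_toFinset, ← Multiset.count_pos, count_roots]
    omega
  let ν : ℤ[X] → ℕ := fun g => if h : ∃ α : Ω l₀, (f l₀).rootMultiplicity α ≠ 0 ∧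
    minpoly ℤ α = g then (f l₀).rootMultiplicity h.choose else 0
  have hν : ∀ l (α : Ω l), IsIntegral ℤ α → minpoly ℤ α ∈ M →
      ν (minpoly ℤ α) = (f l).rootMultiplicity α := by
    intro l α hα hg
    have h1 := hmem _ hg
    have h2 : ν (minpoly ℤ α) = (f l₀).rootMultiplicity h1.choose := dif_pos h1
    rw [h2]
    obtain ⟨h3, h4⟩ := h1.choose_spec
    exact hind _ _ _ _ ((minpoly_int (hint _ _ h3) hα).1 h4)
  have hmon : ∀ g ∈ M, g.Monic := by
    intro g hg
    obtain ⟨α, hα, rfl⟩ := hmem g hg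
    exact minpoly.monic (hint _ _ hα)
  refine ⟨∏ g ∈ M, g ^ ν g, monic_prod_of_monic _ _ fun g hg => (hmon g hg).pow _, fun l => ?_⟩
  have hmap : (∏ g ∈ M, g ^ ν g).map (Int.castRingHom (Ω l)) =
      ∏ g ∈ M, (g.map (Int.castRingHom (Ω l))) ^ ν g := by
    rw [Polynomial.map_prod]
    exact Finset.prod_congr rfl fun g _ => Polynomial.map_pow _ _
  rw [hmap]
  apply eq_of_rm (hf l)
  · exact monic_prod_of_monic _ _ fun g hg => ((hmon g hg).map _).pow _
  intro α
  rw [rm_prod _ _ (fun g hg => pow_ne_zero _ ((hmon g hg).map _).ne_zero)]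
  have hterm : ∀ g ∈ M, ((g.map (Int.castRingHom (Ω l))) ^ ν g).rootMultiplicity α =
      if IsIntegral ℤ α ∧ minpoly ℤ α = g then ν g else 0 := by
    intro g hg
    obtain ⟨α₀, h1, rfl⟩ := hmem g hg
    rw [rm_pow, rm_minpoly (hint _ _ h1)]
    split_ifs <;> simp
  rw [Finset.sum_congr rfl hterm]
  by_cases hα : IsIntegral ℤ α
  · by_cases hg : minpoly ℤ α ∈ M
    · rw [Finset.sum_eq_single_of_mem _ hg]
      · rw [if_pos ⟨hα, rfl⟩, hν l α hα hg]
      · intro g _ hne
        rw [if_neg fun h => hne h.2.symm]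
    · rw [Finset.sum_eq_zero]
      · -- there is a conjugate in `Ω l₀`
        by_contra hne
        apply hg
        have hαQ : IsIntegral ℚ α := hα.tower_top
        have hdeg : ((minpoly ℚ α).map (algebraMap ℚ (Ω l₀))).degree ≠ 0 := by
          rw [degree_map]
          exact (minpoly.degree_pos hαQ).ne'
        obtain ⟨α₀, h0⟩ := IsAlgClosed.exists_root _ hdeg
        have h1 : aeval α₀ (minpoly ℚ α) = 0 := by
          rw [IsRoot.def, eval_map] at h0
          exact h0
        have h2 : minpoly ℚ α = minpoly ℚ α₀ :=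
          minpoly.eq_of_irreducible_of_monic (minpoly.irreducible hαQ) h1 (minpoly.monic hαQ)
        have h3 := hind l l₀ α α₀ h2
        have h4 : (f l₀).rootMultiplicity α₀ ≠ 0 := by
          rw [← h3]
          exact hne
        rw [(minpoly_int hα (hint _ _ h4)).2 h2]
        exact hmem' _ h4
      · intro g hg'
        refine if_neg ?_
        rintro ⟨-, rfl⟩
        exact hg hg'
  · rw [Finset.sum_eq_zero]
    · by_contra hne
      exact hα (hint l α hne)
    · intro g _
      exact if_neg fun h => hα h.1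

end family

end Run7.h615.WI
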