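import Pool.Agent.Run7.h615.WI.Sp

/-!
# Conjugate algebraic numbers in different fields
-/

namespace Run7.h615.WI

universe u v

open Module Pool.Agent.Y143 Polynomial

section

variable {Ω : Type*} [Field Ω] [CharZero Ω] {Ω' : Type*} [Field Ω'] [CharZero Ω']

lemma not_integral_mul {Ω : Type*} [Field Ω] [CharZero Ω] {c : ℚ} (hc : (c : Ω) ≠ 0) {α : Ω}
    (hα : ¬ IsIntegral ℚ α) : ¬ IsIntegral ℚ ((c : Ω) * α) := by
  intro hn
  apply hα
  have h5 : IsIntegral ℚ (((c⁻¹ : ℚ) : Ω)) := by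
    have := isIntegral_algebraMap (R := ℚ) (A := Ω) (x := c⁻¹)
    simpa using this
  have h6 := h5.mul hn
  rwa [show ((c⁻¹ : ℚ) : Ω) * ((c : Ω) * α) = α by
    push_cast
    rw [inv_mul_cancel_left₀ hc]] at h6

lemma cj_mul {c : ℚ} (hc : c ≠ 0) {α : Ω} {α' : Ω'} (h : minpoly ℚ α = minpoly ℚ α') :
    minpoly ℚ ((c : Ω) * α) = minpoly ℚ ((c : Ω') * α') := by
  have hcΩ : (c : Ω) ≠ 0 := by exact_mod_cast hc
  have hcΩ' : (c : Ω') ≠ 0 := by exact_mod_cast hc
  by_cases hα : IsIntegral ℚ α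
  · have hα' : IsIntegral ℚ α' := by
      by_contra hn
      rw [minpoly.eq_zero hn] at h
      exact minpoly.ne_zero hα h
    have hcα : IsIntegral ℚ ((c : Ω) * α) := by
      have : IsIntegral ℚ (c : Ω) := by
        have := isIntegral_algebraMap (R := ℚ) (A := Ω) (x := c)
        simpa using this
      exact this.mul hα
    have hcα' : IsIntegral ℚ ((c : Ω') * α') := by
      have : IsIntegral ℚ (c : Ω') := by
        have := isIntegral_algebraMap (R := ℚ) (A := Ω') (x := c)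
        simpa using this
      exact this.mul hα'
    have h1 : aeval ((c : Ω') * α') (minpoly ℚ ((c : Ω) * α)) = 0 := by
      have h2 : aeval α ((minpoly ℚ ((c : Ω) * α)).comp (C c * X)) = 0 := by
        rw [aeval_comp]
        simp only [map_mul, aeval_C, aeval_X, eq_ratCast]
        exact minpoly.aeval ℚ _
      have h3 := minpoly.dvd ℚ α h2
      rw [h] at h3
      have h4 : aeval α' ((minpoly ℚ ((c : Ω) * α)).comp (C c * X)) = 0 := by
        obtain ⟨R, hR⟩ := h3
        rw [hR, map_mul, minpoly.aeval, zero_mul]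
      rw [aeval_comp] at h4
      simp only [map_mul, aeval_C, aeval_X, eq_ratCast] at h4
      exact h4
    exact minpoly.eq_of_irreducible_of_monic (minpoly.irreducible hcα) h1 (minpoly.monic hcα)
  · have hα' : ¬ IsIntegral ℚ α' := by
      intro hn
      rw [minpoly.eq_zero hα] at h
      exact minpoly.ne_zero hn h.symm
    rw [minpoly.eq_zero (not_integral_mul hcΩ hα), minpoly.eq_zero (not_integral_mul hcΩ' hα')]

lemma cj_weil {q : ℕ} {w : ℤ} {α : Ω} {α' : Ω'} (h : minpoly ℚ α = minpoly ℚ α')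
    (hα : IsWeilNumber q w α) : IsWeilNumber q w α' := by
  obtain ⟨h1, h2⟩ := hα
  refine ⟨?_, by rwa [← h]⟩
  have h3 : IsIntegral ℚ α' := by
    by_contra hn
    rw [minpoly.eq_zero hn] at h
    exact minpoly.ne_zero h1.isIntegral h
  exact h3.isAlgebraic

lemma cj_div {q : ℕ} (hq : q ≠ 0) {α : Ω} {α' : Ω'} (h : minpoly ℚ α = minpoly ℚ α') :
    minpoly ℚ ((q : Ω)⁻¹ * α) = minpoly ℚ ((q : Ω')⁻¹ * α') := by
  have := cj_mul (c := (q : ℚ)⁻¹) (inv_ne_zero (Nat.cast_ne_zero.2 hq)) h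
  push_cast at this
  exact this

lemma cj_div_pow {q : ℕ} (hq : q ≠ 0) {α : Ω} {α' : Ω'} (h : minpoly ℚ α = minpoly ℚ α')
    (s : ℕ) : minpoly ℚ ((q : Ω)⁻¹ ^ s * α) = minpoly ℚ ((q : Ω')⁻¹ ^ s * α') := by
  induction s with
  | zero => simpa using h
  | succ s ih =>
    have := cj_div hq ih
    rwa [← mul_assoc, ← pow_succ', ← mul_assoc, ← pow_succ'] at this

end

end Run7.h615.WI
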