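import Pool.Agent.Run7.h615.WI.KDefs

/-!
# Independence of the auxiliary prime: walks
-/

namespace Run7.h615.WI

universe u v

open Module Run7.h615.WS

variable {Λ : Type} {Ω : Λ → Type u} [∀ l, Field (Ω l)] [∀ l, CharZero (Ω l)]
  {H H' : Λ → Type v} [∀ l, AddCommGroup (H l)] [∀ l, Module (Ω l) (H l)]
  [∀ l, AddCommGroup (H' l)] [∀ l, Module (Ω l) (H' l)]

/-- The composites of the maps `τ i' j ∘ ρ i j`, as in `IsWalk`, for all `l` simultaneously. -/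
inductive IsWalkFamily {I J : Type} (ρ : ∀ l, I → J → H l →ₗ[Ω l] H' l)
    (τ : ∀ l, I → J → H' l →ₗ[Ω l] H l) : I → I → (∀ l, Module.End (Ω l) (H l)) → Prop
  | hop (i : I) (j : J) (i' : I) : IsWalkFamily ρ τ i i' fun l => τ l i' j ∘ₗ ρ l i j
  | comp {i i' i'' : I} {f g : ∀ l, Module.End (Ω l) (H l)} :
      IsWalkFamily ρ τ i i' f → IsWalkFamily ρ τ i' i'' g →
      IsWalkFamily ρ τ i i'' fun l => g l ∘ₗ f l

/-- The traces of the `f F ^ k` are rational numbers, which are independent of `l`. -/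
def HaveSameTraces (F f : ∀ l, Module.End (Ω l) (H l)) : Prop :=
  ∀ k : ℕ, ∃ r : ℚ, ∀ l, LinearMap.trace (Ω l) (H l) (f l ∘ₗ (F l ^ k)) = r

omit [∀ l, CharZero (Ω l)] in
lemma walk_list {I J : Type} {ρ : ∀ l, I → J → H l →ₗ[Ω l] H' l}
    {τ : ∀ l, I → J → H' l →ₗ[Ω l] H l} {i i' : I} {f : ∀ l, Module.End (Ω l) (H l)}
    (h : IsWalkFamily ρ τ i i' f) : ∃ s : List (I × J × I), ∀ l, f l = (s.map (hop (ρ l) (τ l))).prod := by
  induction h with
  | hop i j i' =>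
    refine ⟨[(i, j, i')], fun l => ?_⟩
    rw [List.map_cons, List.map_nil, List.prod_cons, List.prod_nil, mul_one]
    rfl
  | comp h1 h2 ih1 ih2 =>
    obtain ⟨s, hs⟩ := ih1
    obtain ⟨t, ht⟩ := ih2
    refine ⟨t ++ s, fun l => ?_⟩
    rw [List.map_append, List.prod_append, ← ht, ← hs]
    rfl

lemma sameTraces {I J : Type} {ρ : ∀ l, I → J → H l →ₗ[Ω l] H' l}
    {τ : ∀ l, I → J → H' l →ₗ[Ω l] H l} {F : ∀ l, Module.End (Ω l) (H l)}
    (h : ∀ s k, ∃ r : ℚ, ∀ l, hopTrace (F l) (ρ l) (τ l) s k = r) {i i' : I}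
    {f : ∀ l, Module.End (Ω l) (H l)} (hf : IsWalkFamily ρ τ i i' f) : HaveSameTraces F f := by
  intro k
  obtain ⟨s, hs⟩ := walk_list hf
  obtain ⟨r, hr⟩ := h s k
  refine ⟨r, fun l => ?_⟩
  rw [← hr l, hs l]
  rfl

end Run7.h615.WI
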