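import Pool.Agent.Run7.h615.WI.Conj
import Pool.Agent.Run7.h615.WS.Trc

/-!
# Traces and multiplicities in two fields
-/

namespace Run7.h615.WI

universe u v

open Module Polynomial Run7.h615.WS
open scoped TensorProduct

section field

variable {Ω : Type u} [Field Ω] [CharZero Ω] {Ω' : Type u} [Field Ω'] [CharZero Ω']
  [IsAlgClosed Ω']

/-- Conjugate numbers have a common image. -/
lemma exists_common {α : Ω} {α' : Ω'} (hα : IsAlgebraic ℚ α)
    (h : minpoly ℚ α = minpoly ℚ α') : ∃ (L : Type u) (_ : Field L) (_ : CharZero L)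
      (i : Ω →+* L) (i' : Ω' →+* L), i α = i' α' := by
  have hint := hα.isIntegral
  have hroot : aeval α' (minpoly ℚ α) = 0 := by
    rw [h]
    exact minpoly.aeval ℚ α'
  let K := IntermediateField.adjoin ℚ {α}
  let σ : K →ₐ[ℚ] Ω' := (IntermediateField.algHomAdjoinIntegralEquiv ℚ hint).symm ⟨α', by
    rw [mem_aroots]
    exact ⟨minpoly.ne_zero hint, hroot⟩⟩
  have hσ : σ (IntermediateField.AdjoinSimple.gen ℚ α) = α' :=
    IntermediateField.algHomAdjoinIntegralEquiv_symm_apply_gen ℚ hint _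
  let _ : Algebra K Ω' := σ.toRingHom.toAlgebra
  obtain ⟨M, hM⟩ := Ideal.exists_maximal (Ω ⊗[K] Ω')
  let _ : Field ((Ω ⊗[K] Ω') ⧸ M) := Ideal.Quotient.field M
  let i : Ω →+* (Ω ⊗[K] Ω') ⧸ M :=
    (Ideal.Quotient.mk M).comp Algebra.TensorProduct.includeLeftRingHom
  let i' : Ω' →+* (Ω ⊗[K] Ω') ⧸ M :=
    (Ideal.Quotient.mk M).comp
      (Algebra.TensorProduct.includeRight : Ω' →ₐ[K] Ω ⊗[K] Ω').toRingHom
  refine ⟨(Ω ⊗[K] Ω') ⧸ M, inferInstance, charZero_of_injective_ringHom i.injective, i, i', ?_⟩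
  show Ideal.Quotient.mk M (α ⊗ₜ 1) = Ideal.Quotient.mk M (1 ⊗ₜ α')
  congr 1
  have h1 : (IntermediateField.AdjoinSimple.gen ℚ α) • (1 : Ω) = α := by
    rw [Algebra.smul_def, mul_one]
    exact IntermediateField.AdjoinSimple.algebraMap_gen ℚ α
  have h2 : (IntermediateField.AdjoinSimple.gen ℚ α) • (1 : Ω') = α' := by
    rw [Algebra.smul_def, mul_one]
    exact hσ
  rw [← h1, TensorProduct.smul_tmul, h2]

end field

section mom

variable {Ω Ω' L : Type*} [Field Ω] [Field Ω'] [Field L]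

/-- Matching of moments. -/
lemma match_moments (i : Ω →+* L) (i' : Ω' →+* L) (s : Finset Ω) (s' : Finset Ω') (a : Ω → Ω)
    (a' : Ω' → Ω') (h : ∀ k : ℕ, i (∑ μ ∈ s, a μ * μ ^ k) = i' (∑ μ ∈ s', a' μ * μ ^ k)) :
    ∃ (S : Finset L) (A : L → L), (∀ μ ∈ s, i μ ∈ S) ∧ (∀ μ ∈ s', i' μ ∈ S) ∧
      (∀ μ ∈ s, A (i μ) = i (a μ)) ∧ (∀ μ ∈ s', A (i' μ) = i' (a' μ)) ∧
      (∀ x ∈ S, (∀ μ ∈ s, i μ ≠ x) → A x = 0) ∧ (∀ x ∈ S, (∀ μ ∈ s', i' μ ≠ x) → A x = 0) := by
  classical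
  set S : Finset L := s.image i ∪ s'.image i' with hS
  set A : L → L := fun x => ∑ μ ∈ s with i μ = x, i (a μ) with hA
  set A' : L → L := fun x => ∑ μ ∈ s' with i' μ = x, i' (a' μ) with hA'
  have h1 : ∀ k : ℕ, ∑ x ∈ S, A x * x ^ k = i (∑ μ ∈ s, a μ * μ ^ k) := by
    intro k
    rw [map_sum, ← Finset.sum_fiberwise_of_maps_to (g := i) (t := S) (fun μ hμ =>
      Finset.mem_union_left _ (Finset.mem_image_of_mem _ hμ))]
    refine Finset.sum_congr rfl fun x _ => ?_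
    rw [hA, Finset.sum_mul]
    refine Finset.sum_congr rfl fun μ hμ => ?_
    rw [map_mul, map_pow, (Finset.mem_filter.1 hμ).2]
  have h2 : ∀ k : ℕ, ∑ x ∈ S, A' x * x ^ k = i' (∑ μ ∈ s', a' μ * μ ^ k) := by
    intro k
    rw [map_sum, ← Finset.sum_fiberwise_of_maps_to (g := i') (t := S) (fun μ hμ =>
      Finset.mem_union_right _ (Finset.mem_image_of_mem _ hμ))]
    refine Finset.sum_congr rfl fun x _ => ?_
    rw [hA', Finset.sum_mul]
    refine Finset.sum_congr rfl fun μ hμ => ?_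
    rw [map_mul, map_pow, (Finset.mem_filter.1 hμ).2]
  have h3 : ∀ x ∈ S, A x = A' x := moments_unique S id (fun x _ y _ h => h) A A' fun k => by
    simp only [id]
    rw [h1, h2, h]
  have h4 : ∀ μ ∈ s, A (i μ) = i (a μ) := by
    intro μ hμ
    refine Finset.sum_eq_single_of_mem (s := s.filter (fun ν => i ν = i μ)) μ
      (Finset.mem_filter.2 ⟨hμ, rfl⟩) ?_
    intro ν hν hne
    exact absurd (i.injective (Finset.mem_filter.1 hν).2) hne
  have h5 : ∀ μ ∈ s', A' (i' μ) = i' (a' μ) := by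
    intro μ hμ
    refine Finset.sum_eq_single_of_mem (s := s'.filter (fun ν => i' ν = i' μ)) μ
      (Finset.mem_filter.2 ⟨hμ, rfl⟩) ?_
    intro ν hν hne
    exact absurd (i'.injective (Finset.mem_filter.1 hν).2) hne
  have hs' : ∀ μ ∈ s', i' μ ∈ S := fun μ hμ =>
    Finset.mem_union_right _ (Finset.mem_image_of_mem _ hμ)
  refine ⟨S, A, fun μ hμ => Finset.mem_union_left _ (Finset.mem_image_of_mem _ hμ), hs', h4,
    fun μ hμ => by rw [h3 _ (hs' μ hμ), h5 μ hμ], fun x _ hx => ?_, fun x hxS hx => ?_⟩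
  · rw [hA]
    simp only
    rw [Finset.sum_eq_zero]
    intro μ hμ
    exact absurd (Finset.mem_filter.1 hμ).2 (hx μ (Finset.mem_filter.1 hμ).1)
  · rw [h3 x hxS, hA']
    simp only
    rw [Finset.sum_eq_zero]
    intro μ hμ
    exact absurd (Finset.mem_filter.1 hμ).2 (hx μ (Finset.mem_filter.1 hμ).1)

/-- The coefficients of corresponding nodes. -/
lemma match_coeff (i : Ω →+* L) (i' : Ω' →+* L) (s : Finset Ω) (s' : Finset Ω') (a : Ω → Ω)
    (a' : Ω' → Ω') (h : ∀ k : ℕ, i (∑ μ ∈ s, a μ * μ ^ k) = i' (∑ μ ∈ s', a' μ * μ ^ k))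
    (ha : ∀ μ, μ ∉ s → a μ = 0) (ha' : ∀ μ, μ ∉ s' → a' μ = 0) {α : Ω} {α' : Ω'}
    (hα : i α = i' α') : i (a α) = i' (a' α') := by
  obtain ⟨S, A, h1, h2, h3, h4, h5, h6⟩ := match_moments i i' s s' a a' h
  by_cases h7 : α ∈ s
  · by_cases h8 : α' ∈ s'
    · rw [← h3 α h7, ← h4 α' h8, hα]
    · rw [ha' α' h8, map_zero, ← h3 α h7]
      apply h6 _ (h1 α h7)
      intro μ hμ hc
      rw [hα] at hc
      rw [i'.injective hc] at hμ
      exact h8 hμ
  · by_cases h8 : α' ∈ s'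
    · rw [ha α h7, map_zero, ← h4 α' h8]
      symm
      apply h5 _ (h2 α' h8)
      intro μ hμ hc
      rw [← hα] at hc
      rw [i.injective hc] at hμ
      exact h7 hμ
    · rw [ha α h7, ha' α' h8, map_zero, map_zero]

/-- The sum of the coefficients at the nonzero nodes. -/
lemma match_sum (i : Ω →+* L) (i' : Ω' →+* L) (s : Finset Ω) (s' : Finset Ω') (a : Ω → Ω)
    (a' : Ω' → Ω') (h0 : ∀ μ ∈ s, μ ≠ 0) (h0' : ∀ μ ∈ s', μ ≠ 0)
    (h : ∀ k : ℕ, i (∑ μ ∈ s, a μ * μ ^ (k + 1)) = i' (∑ μ ∈ s', a' μ * μ ^ (k + 1))) :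
    i (∑ μ ∈ s, a μ) = i' (∑ μ ∈ s', a' μ) := by
  classical
  have h' : ∀ k : ℕ, i (∑ μ ∈ s, (a μ * μ) * μ ^ k) = i' (∑ μ ∈ s', (a' μ * μ) * μ ^ k) := by
    intro k
    have := h k
    rw [Finset.sum_congr rfl fun μ _ => show a μ * μ ^ (k + 1) = a μ * μ * μ ^ k by ring,
      Finset.sum_congr (g := fun μ => a' μ * μ * μ ^ k) rfl
        fun μ _ => show a' μ * μ ^ (k + 1) = a' μ * μ * μ ^ k by ring] at this
    exact this
  obtain ⟨S, A, h1, h2, h3, h4, h5, h6⟩ := match_moments i i' s s' _ _ h'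
  have e1 : i (∑ μ ∈ s, a μ) = ∑ x ∈ S, A x * x⁻¹ := by
    have f1 : ∑ x ∈ s.image i, A x * x⁻¹ = ∑ x ∈ S, A x * x⁻¹ := by
      apply Finset.sum_subset
      · intro x hx
        obtain ⟨μ, hμ, rfl⟩ := Finset.mem_image.1 hx
        exact h1 μ hμ
      · intro x hxS hx
        rw [h5 x hxS fun μ hμ hc => hx (Finset.mem_image.2 ⟨μ, hμ, hc⟩), zero_mul]
    rw [← f1, Finset.sum_image (fun x _ y _ h => i.injective h), map_sum]
    refine Finset.sum_congr rfl fun μ hμ => ?_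
    rw [h3 μ hμ, map_mul, mul_assoc, mul_inv_cancel₀ ((map_ne_zero i).2 (h0 μ hμ)), mul_one]
  have e2 : i' (∑ μ ∈ s', a' μ) = ∑ x ∈ S, A x * x⁻¹ := by
    have f1 : ∑ x ∈ s'.image i', A x * x⁻¹ = ∑ x ∈ S, A x * x⁻¹ := by
      apply Finset.sum_subset
      · intro x hx
        obtain ⟨μ, hμ, rfl⟩ := Finset.mem_image.1 hx
        exact h2 μ hμ
      · intro x hxS hx
        rw [h6 x hxS fun μ hμ hc => hx (Finset.mem_image.2 ⟨μ, hμ, hc⟩), zero_mul]
    rw [← f1, Finset.sum_image (fun x _ y _ h => i'.injective h), map_sum]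
    refine Finset.sum_congr rfl fun μ hμ => ?_
    rw [h4 μ hμ, map_mul, mul_assoc, mul_inv_cancel₀ ((map_ne_zero i').2 (h0' μ hμ)), mul_one]
  rw [e1, e2]

end mom

section trace

variable {Ω Ω' : Type*} {L : Type*} [Field Ω] [Field Ω'] [Field L] [CharZero L]
  [IsAlgClosed Ω] [IsAlgClosed Ω'] {V : Type*} [AddCommGroup V] [Module Ω V]
  [FiniteDimensional Ω V] {V' : Type*} [AddCommGroup V'] [Module Ω' V'] [FiniteDimensional Ω' V']

lemma trace_subsingleton {Ω W : Type*} [Field Ω] [AddCommGroup W] [Module Ω W] [Subsingleton W]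
    (g : Module.End Ω W) : LinearMap.trace Ω W g = 0 := by
  have : g = 0 := LinearMap.ext fun x => Subsingleton.elim _ _
  rw [this, map_zero]

omit [CharZero L] in
/-- The traces on corresponding generalized eigenspaces. -/
lemma match_trace (i : Ω →+* L) (i' : Ω' →+* L) (G f : Module.End Ω V) (h : Commute G f)
    (G' f' : Module.End Ω' V') (h' : Commute G' f')
    (ht : ∀ k : ℕ, i (LinearMap.trace Ω V (f ∘ₗ (G ^ k))) =
      i' (LinearMap.trace Ω' V' (f' ∘ₗ (G' ^ k)))) {α : Ω} {α' : Ω'} (hα : i α = i' α') :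
    i (LinearMap.trace Ω _ (f.restrict (G.mapsTo_maxGenEigenspace_of_comm h α))) =
      i' (LinearMap.trace Ω' _ (f'.restrict (G'.mapsTo_maxGenEigenspace_of_comm h' α'))) := by
  obtain ⟨s, hs, e⟩ := trace_pow G f h
  obtain ⟨s', hs', e'⟩ := trace_pow G' f' h'
  refine match_coeff i i' s s'
    (fun μ => LinearMap.trace Ω _ (f.restrict (G.mapsTo_maxGenEigenspace_of_comm h μ)))
    (fun μ => LinearMap.trace Ω' _ (f'.restrict (G'.mapsTo_maxGenEigenspace_of_comm h' μ)))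
    (fun k => ?_) (fun μ hμ => ?_) (fun μ hμ => ?_) hα
  · rw [← e k, ← e' k, ht k]
  · have h1 : G.maxGenEigenspace μ = ⊥ := by
      by_contra hne
      exact hμ ((hs μ).2 hne)
    have : Subsingleton (G.maxGenEigenspace μ) := by
      rw [h1]; infer_instance
    exact trace_subsingleton _
  · have h1 : G'.maxGenEigenspace μ = ⊥ := by
      by_contra hne
      exact hμ ((hs' μ).2 hne)
    have : Subsingleton (G'.maxGenEigenspace μ) := by
      rw [h1]; infer_instance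
    exact trace_subsingleton _

omit [CharZero L] in
lemma trace_nu (f : Module.End Ω V) : ∃ s : Finset Ω, (∀ μ ∈ s, μ ≠ 0) ∧
    (∀ k : ℕ, LinearMap.trace Ω V (f ^ (k + 1)) =
      ∑ μ ∈ s, (finrank Ω (f.maxGenEigenspace μ) : Ω) * μ ^ (k + 1)) ∧
    (finrank Ω V : Ω) = ∑ μ ∈ s, (finrank Ω (f.maxGenEigenspace μ) : Ω) +
      finrank Ω (f.maxGenEigenspace 0) := by
  classical
  obtain ⟨s, hs, e⟩ := trace_pow f 1 (Commute.one_right f)
  have h1 : ∀ μ, LinearMap.trace Ω _ ((1 : Module.End Ω V).restrict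
      (f.mapsTo_maxGenEigenspace_of_comm (Commute.one_right f) μ)) =
      (finrank Ω (f.maxGenEigenspace μ) : Ω) := by
    intro μ
    have : (1 : Module.End Ω V).restrict
      (f.mapsTo_maxGenEigenspace_of_comm (Commute.one_right f) μ) = LinearMap.id := by
      ext x
      rfl
    rw [this, LinearMap.trace_id]
  have e' : ∀ k : ℕ, LinearMap.trace Ω V (f ^ k) =
      ∑ μ ∈ s, (finrank Ω (f.maxGenEigenspace μ) : Ω) * μ ^ k := by
    intro k
    have := e k
    rw [show (1 : Module.End Ω V) ∘ₗ (f ^ k) = f ^ k from LinearMap.id_comp _] at this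
    rw [this]
    exact Finset.sum_congr rfl fun μ _ => by rw [h1]
  refine ⟨s.erase 0, fun μ hμ => (Finset.mem_erase.1 hμ).1, fun k => ?_, ?_⟩
  · rw [e', Finset.sum_erase]
    rw [zero_pow (Nat.succ_ne_zero k), mul_zero]
  · have h2 := e' 0
    rw [pow_zero, Module.End.one_eq_id, LinearMap.trace_id] at h2
    simp only [pow_zero, mul_one] at h2
    rw [h2]
    by_cases h0 : (0 : Ω) ∈ s
    · rw [Finset.sum_erase_add _ _ h0]
    · have h3 : f.maxGenEigenspace 0 = ⊥ := by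
        by_contra hne
        exact h0 ((hs 0).2 hne)
      rw [Finset.erase_eq_of_notMem h0, h3, finrank_bot, Nat.cast_zero, add_zero]

/-- The dimension of the part on which the operator is invertible. -/
lemma match_nu (i : Ω →+* L) (i' : Ω' →+* L) (f : Module.End Ω V) (f' : Module.End Ω' V')
    (ht : ∀ k : ℕ, i (LinearMap.trace Ω V (f ^ (k + 1))) =
      i' (LinearMap.trace Ω' V' (f' ^ (k + 1)))) :
    finrank Ω V + finrank Ω' (f'.maxGenEigenspace 0) =
      finrank Ω' V' + finrank Ω (f.maxGenEigenspace 0) := by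
  obtain ⟨s, h0, e1, e2⟩ := trace_nu f
  obtain ⟨s', h0', e1', e2'⟩ := trace_nu f'
  have h1 := match_sum i i' s s' _ _ h0 h0' fun k => by
    rw [← e1 k, ← e1' k, ht k]
  have h2 := congrArg i e2
  have h3 := congrArg i' e2'
  rw [map_add, h1, map_natCast, map_natCast] at h2
  rw [map_add, map_natCast, map_natCast] at h3
  have h4 : ((finrank Ω V + finrank Ω' (f'.maxGenEigenspace 0) : ℕ) : L) =
      ((finrank Ω' V' + finrank Ω (f.maxGenEigenspace 0) : ℕ) : L) := by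
    push_cast
    rw [h2, h3]
    ring
  exact_mod_cast h4

end trace

end Run7.h615.WI
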