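import Pool.Agent.Run7.h615.WI.One
import Pool.Agent.Run7.h615.WI.Mom

/-!
# Independence of the multiplicities on the image of the restriction
-/

set_option linter.unusedSectionVars false

namespace Run7.h615.WI

universe u v

open Module Pool.Agent.Y143 Run7.h615.WS

section gen

variable {Ω : Type u} [Field Ω] {V : Type*} [AddCommGroup V] [Module Ω V]

lemma finrank_gen_restrict (U : Module.End Ω V) (W : Submodule Ω V) (h : ∀ x ∈ W, U x ∈ W)
    (μ : Ω) : finrank Ω (Module.End.maxGenEigenspace (U.restrict h) μ) =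
      finrank Ω (W ⊓ U.maxGenEigenspace μ : Submodule Ω V) := by
  have h1 : Module.End.maxGenEigenspace (U.restrict h) μ = (U.maxGenEigenspace μ).comap W.subtype :=
    Module.End.genEigenspace_restrict U W ⊤ μ h
  rw [h1, ← Submodule.finrank_map_subtype_eq W, Submodule.map_comap_subtype]

end gen

section

variable {Ω : Type u} [Field Ω] [CharZero Ω] [IsAlgClosed Ω] {Ω' : Type u} [Field Ω']
  [CharZero Ω'] [IsAlgClosed Ω'] {V : Type*} [AddCommGroup V] [Module Ω V]
  [FiniteDimensional Ω V] {V' : Type*} [AddCommGroup V'] [Module Ω' V']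
  [FiniteDimensional Ω' V']

/-- Two commuting operators with the same rational traces. -/
lemma fitting_eq (F U : Module.End Ω V) (hc : Commute F U) (F' U' : Module.End Ω' V')
    (hc' : Commute F' U') (ht : ∀ k m : ℕ, ∃ r : ℚ,
      LinearMap.trace Ω V ((U ^ (k + 1)) ∘ₗ (F ^ m)) = r ∧
      LinearMap.trace Ω' V' ((U' ^ (k + 1)) ∘ₗ (F' ^ m)) = r) {α : Ω} {α' : Ω'}
    (hα : IsAlgebraic ℚ α) (h : minpoly ℚ α = minpoly ℚ α') :
    finrank Ω (F.maxGenEigenspace α) +
        finrank Ω' (F'.maxGenEigenspace α' ⊓ U'.maxGenEigenspace 0 : Submodule Ω' V') =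
      finrank Ω' (F'.maxGenEigenspace α') +
        finrank Ω (F.maxGenEigenspace α ⊓ U.maxGenEigenspace 0 : Submodule Ω V) := by
  obtain ⟨L, _, _, i, i', hi⟩ := exists_common hα h
  have hm := F.mapsTo_maxGenEigenspace_of_comm hc α
  have hm' := F'.mapsTo_maxGenEigenspace_of_comm hc' α'
  have h1 := match_nu (L := L) i i' (U.restrict hm) (U'.restrict hm') (fun k => by
    have hck : Commute F (U ^ (k + 1)) := hc.pow_right (k + 1)
    have hck' : Commute F' (U' ^ (k + 1)) := hc'.pow_right (k + 1)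
    have h2 := match_trace i i' F (U ^ (k + 1)) hck F' (U' ^ (k + 1)) hck' (fun m => by
      obtain ⟨r, e1, e2⟩ := ht k m
      rw [e1, e2, map_ratCast, map_ratCast]) hi
    rw [Module.End.pow_restrict, Module.End.pow_restrict]
    exact h2)
  rw [finrank_gen_restrict, finrank_gen_restrict] at h1
  exact h1

end

section family

variable {Λ : Type} {Ω : Λ → Type u} [∀ l, Field (Ω l)] [∀ l, CharZero (Ω l)]
  [∀ l, IsAlgClosed (Ω l)] {H H' : Λ → Type v} [∀ l, AddCommGroup (H l)]
  [∀ l, Module (Ω l) (H l)] [∀ l, AddCommGroup (H' l)] [∀ l, Module (Ω l) (H' l)]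
  [∀ l, FiniteDimensional (Ω l) (H l)] [∀ l, FiniteDimensional (Ω l) (H' l)] {I J : Type}
  [Fintype I] [Fintype J] {q w : ℕ} {F : ∀ l, Module.End (Ω l) (H l)}
  {F' : ∀ l, Module.End (Ω l) (H' l)} {T : ∀ l, I → Submodule (Ω l) (H l)}
  {B : ∀ l, I → H l →ₗ[Ω l] H l →ₗ[Ω l] Ω l} {B' : ∀ l, H' l →ₗ[Ω l] H' l →ₗ[Ω l] Ω l}
  {ρ : ∀ l, I → J → H l →ₗ[Ω l] H' l} {τ : ∀ l, I → J → H' l →ₗ[Ω l] H l}
  {d : Λ → I → J → ℕ} (S : ∀ l, IsSystem q w (F l) (F' l) (T l) (B l) (B' l) (ρ l) (τ l) (d l))
  {p : ∀ l, I → Module.End (Ω l) (H l)} (P : ∀ l, IsProj (F l) (T l) (ρ l) (p l))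
include S P

lemma mlt_res_zero (l : Λ) {α : Ω l} (hα : ¬ IsAlgebraic ℚ α) (r : H l →ₗ[Ω l] H' l)
    (hr : ∀ x, r (F l x) = F' l (r x)) : mlt (F' l) ((⨆ i, T l i).map r) α = 0 := by
  have hT : ∀ x ∈ ⨆ i, T l i, F l x ∈ ⨆ i, T l i := by
    intro x hx
    have hle : (⨆ i, T l i) ≤ (⨆ i, T l i).comap (F l) :=
      iSup_le fun i y hy => Submodule.mem_iSup_of_mem i (((S l).base i).stable y hy)
    exact hle hx
  have h1 := mlt_map' hr hT α
  have h2 : mlt (F l) (⨆ i, T l i) α = 0 := by
    have h3 : (⨆ i, T l i) ⊓ (F l).maxGenEigenspace α = ⊥ := by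
      rw [eq_bot_iff]
      intro x hx
      have h4 : ∀ i, p l i x = 0 := by
        intro i
        have h5 := proj_mem (S l) (P l) hx.1 i
        have h6 := proj_gen (S l) (P l) hx.2 i
        by_contra hne
        apply hα
        obtain ⟨k, hk⟩ := (Module.End.mem_maxGenEigenspace _ _ _).1 h6
        have key : ∀ (k : ℕ) (y : H l), y ∈ T l i → y ≠ 0 →
            ((F l - α • (1 : Module.End (Ω l) (H l))) ^ k) y = 0 →
            ∃ z ∈ T l i, z ≠ 0 ∧ F l z = α • z := by
          intro k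
          induction k with
          | zero => exact fun y _ hy h => absurd h hy
          | succ k ih =>
            intro y hy hy0 h
            by_cases h7 : (F l - α • (1 : Module.End (Ω l) (H l))) y = 0
            · refine ⟨y, hy, hy0, ?_⟩
              have : F l y - α • y = 0 := h7
              exact sub_eq_zero.1 this
            · rw [pow_succ, Module.End.mul_apply] at h
              exact ih _ (Submodule.sub_mem _ (((S l).base i).stable y hy)
                (Submodule.smul_mem _ _ hy)) h7 h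
        obtain ⟨z, hz, hz0, hzα⟩ := key k _ h5 hne hk
        exact ((S l).weil i α z hz hz0 hzα).1
      have : x = 0 := by
        rw [← (P l).sum x]
        exact Finset.sum_eq_zero fun i _ => h4 i
      exact this
    unfold mlt
    rw [h3, finrank_bot]
  omega

/-- **Independence of the multiplicities on the image of the restriction.** -/
theorem independent_res (hw : ∀ i f, IsWalkFamily ρ τ i i f → HaveSameTraces F f)
    (r : ∀ l, H l →ₗ[Ω l] H' l) (hr : ∀ l x, r l (F l x) = F' l (r l x))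
    (hres : ∀ l x, r l x = 0 ↔ ∀ j, ∑ i, ρ l i j x = 0)
    (hτ : ∀ l i j z, p l i (τ l i j z) = τ l i j z)
    (hl : ∀ l (α : Ω l) j, IsLink (F l) (T l) (d l) α j → IsLine (F l) (T l) (ρ l) α j)
    {l l' : Λ} {α : Ω l} {α' : Ω l'} (hα : α ≠ 0) (hα' : α' ≠ 0)
    (h : minpoly ℚ α = minpoly ℚ α') :
    mlt (F' l) ((⨆ i, T l i).map (r l)) α = mlt (F' l') ((⨆ i, T l' i).map (r l')) α' := by
  by_cases halg : IsAlgebraic ℚ α
  · have h1 := mlt_res (S l) (P l) hα (fun j => hl l α j) (r l) (hr l) (hres l)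
    have h2 := mlt_res (S l') (P l') hα' (fun j => hl l' α' j) (r l') (hr l') (hres l')
    have h3 := fitting_eq (F l) (uop (ρ l) (τ l)) (uop_comm (S l) (P l)) (F l')
      (uop (ρ l') (τ l')) (uop_comm (S l') (P l')) (fun k m => by
        obtain ⟨s, hs⟩ := walkOp_traces (p := p) (fun l i x => (P l).frob i x) hτ
          (fun l i i' j x hne => (P l).res i i' j x hne) hw k m
        exact ⟨s, hs l, hs l'⟩) halg h
    omega
  · have halg' : ¬ IsAlgebraic ℚ α' := by
      intro hn
      rw [minpoly.eq_zero (fun hc => halg hc.isAlgebraic)] at h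
      exact minpoly.ne_zero hn.isIntegral h.symm
    rw [mlt_res_zero S P l halg (r l) (hr l), mlt_res_zero S P l' halg' (r l') (hr l')]

end family

end Run7.h615.WI
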