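import Pool.Agent.Run7.h615.WI.Row

/-!
# Multiplicities on the cohomology of the generic fibre
-/

namespace Run7.h615.WI

universe u v

open Module Pool.Agent.Y143 Pool.Agent.Helper60K9.KL Run7.h615.WL

section weights

variable {Ω : Type u} [Field Ω] [CharZero Ω]

/-- The weight of a Weil number is unique. -/
lemma weight_unique {q : ℕ} (hq : 2 ≤ q) {w w' : ℤ} {α : Ω} (h : IsWeilNumber q w α)
    (h' : IsWeilNumber q w' α) : w = w' := by
  obtain ⟨h1, h2⟩ := h
  obtain ⟨-, h2'⟩ := h'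
  obtain ⟨z, hz⟩ : ∃ z : ℂ, Polynomial.aeval z (minpoly ℚ α) = 0 := by
    apply IsAlgClosed.exists_aeval_eq_zero
    exact (minpoly.degree_pos h1.isIntegral).ne'
  have h3 := h2 z hz
  have h4 := h2' z hz
  rw [h3] at h4
  have hq1 : (1 : ℝ) < q := by exact_mod_cast hq
  have h5 := (Real.rpow_right_inj (by positivity) hq1.ne').1 h4
  have h6 : (w : ℝ) = w' := by linarith
  exact_mod_cast h6

variable {V : Type v} [AddCommGroup V] [Module Ω V] {F N : Module.End Ω V}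
  {M : ℤ → Submodule Ω V} {q : ℕ} {i : ℤ}

/-- The weights of the graded pieces of the filtration `M`. -/
structure HasWeights (q : ℕ) (i : ℤ) (F : Module.End Ω V) (M : ℤ → Submodule Ω V) : Prop where
  mono : Monotone M
  bot : ∃ a, M a = ⊥
  top : ∃ a, M a = ⊤
  stable : ∀ a x, x ∈ M a → F x ∈ M a
  weight : ∀ (a : ℤ) (α : Ω) (x : V), x ∈ M a → x ∉ M (a - 1) → F x - α • x ∈ M (a - 1) →
    IsWeilNumber q (a + i) α

lemma HasWeights.exists_level (h : HasWeights q i F M) {x : V} (hx : x ≠ 0) :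
    ∃ a, x ∈ M a ∧ x ∉ M (a - 1) := by
  obtain ⟨b, hb⟩ := h.bot
  obtain ⟨t, ht⟩ := h.top
  have hbt : x ∉ M b := by
    rw [hb]
    exact hx
  have key : ∀ k : ℕ, x ∉ M b → x ∈ M (b + k) → ∃ a, x ∈ M a ∧ x ∉ M (a - 1) := by
    intro k h1 h2
    induction k with
    | zero => simp at h2; exact absurd h2 h1
    | succ k ih =>
      by_cases h3 : x ∈ M (b + k)
      · exact ih h3
      · refine ⟨b + (k + 1 : ℕ), h2, ?_⟩
        rwa [show b + ((k + 1 : ℕ) : ℤ) - 1 = b + k by push_cast; ring]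
  apply key (t - b).toNat hbt
  apply h.mono (show t ≤ b + ((t - b).toNat : ℤ) by omega)
  rw [ht]
  exact Submodule.mem_top

lemma HasWeights.stable_sub (h : HasWeights q i F M) (α : Ω) (a : ℤ) {x : V} (hx : x ∈ M a)
    (k : ℕ) : ((F - α • (1 : Module.End Ω V)) ^ k) x ∈ M a := by
  induction k with
  | zero => simpa using hx
  | succ k ih =>
    rw [pow_succ', Module.End.mul_apply]
    exact Submodule.sub_mem _ (h.stable a _ ih) (Submodule.smul_mem _ _ ih)

/-- The level of a generalized eigenvector is given by the weight of the eigenvalue. -/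
lemma HasWeights.level (hq : 2 ≤ q) (h : HasWeights q i F M) {α : Ω} {w : ℤ}
    (hα : IsWeilNumber q w α) {x : V} (hx : x ∈ F.maxGenEigenspace α) (hx0 : x ≠ 0) :
    x ∈ M (w - i) ∧ x ∉ M (w - i - 1) := by
  obtain ⟨a, h1, h2⟩ := h.exists_level hx0
  rw [Module.End.mem_maxGenEigenspace] at hx
  obtain ⟨k, hk⟩ := hx
  have key : ∀ k : ℕ, ((F - α • (1 : Module.End Ω V)) ^ k) x ∈ M (a - 1) →
      ∃ y ∈ M a, y ∉ M (a - 1) ∧ F y - α • y ∈ M (a - 1) := by
    intro k h3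
    induction k with
    | zero => exact absurd (by simpa using h3) h2
    | succ k ih =>
      by_cases h4 : ((F - α • (1 : Module.End Ω V)) ^ k) x ∈ M (a - 1)
      · exact ih h4
      · refine ⟨_, h.stable_sub α a h1 k, h4, ?_⟩
        rw [pow_succ', Module.End.mul_apply] at h3
        exact h3
  obtain ⟨y, h4, h5, h6⟩ := key k (by rw [hk]; exact Submodule.zero_mem _)
  have h7 := weight_unique hq (h.weight a α y h4 h5 h6) hα
  rw [show w - i = a by omega]
  exact ⟨h1, h2⟩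

lemma HasWeights.mlt_le (hq : 2 ≤ q) (h : HasWeights q i F M) {α : Ω} {w : ℤ}
    (hα : IsWeilNumber q w α) (a : ℤ) :
    (w - i ≤ a → mlt F (M a) α = mlt F ⊤ α) ∧ (a < w - i → mlt F (M a) α = 0) := by
  constructor
  · intro ha
    apply mlt_congr
    rw [top_inf_eq]
    apply inf_eq_right.2
    intro x hx
    by_cases hx0 : x = 0
    · rw [hx0]; exact Submodule.zero_mem _
    · exact h.mono ha (h.level hq hα hx hx0).1
  · intro ha
    have : M a ⊓ F.maxGenEigenspace α = ⊥ := by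
      rw [eq_bot_iff]
      rintro x ⟨hx, hx'⟩
      by_contra hx0
      exact (h.level hq hα hx' hx0).2 (h.mono (by omega) hx)
    unfold mlt
    rw [this, finrank_bot]

/-- The eigenvalues are Weil numbers. -/
lemma HasWeights.weil (h : HasWeights q i F M) {α : Ω} (hα : mlt F ⊤ α ≠ 0) :
    ∃ w, IsWeilNumber q w α := by
  obtain ⟨x, hx, hx0⟩ : ∃ x ∈ F.maxGenEigenspace α, x ≠ 0 := by
    by_contra hcon
    push Not at hcon
    apply hα
    have : F.maxGenEigenspace α = ⊥ := by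
      rw [eq_bot_iff]
      exact fun x hx => hcon x hx
    unfold mlt
    rw [this, inf_bot_eq, finrank_bot]
  obtain ⟨a, h1, h2⟩ := h.exists_level hx0
  rw [Module.End.mem_maxGenEigenspace] at hx
  obtain ⟨k, hk⟩ := hx
  have key : ∀ k : ℕ, ((F - α • (1 : Module.End Ω V)) ^ k) x ∈ M (a - 1) →
      ∃ y ∈ M a, y ∉ M (a - 1) ∧ F y - α • y ∈ M (a - 1) := by
    intro k h3
    induction k with
    | zero => exact absurd (by simpa using h3) h2
    | succ k ih =>
      by_cases h4 : ((F - α • (1 : Module.End Ω V)) ^ k) x ∈ M (a - 1)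
      · exact ih h4
      · refine ⟨_, h.stable_sub α a h1 k, h4, ?_⟩
        rw [pow_succ', Module.End.mul_apply] at h3
        exact h3
  obtain ⟨y, h4, h5, h6⟩ := key k (by rw [hk]; exact Submodule.zero_mem _)
  exact ⟨_, h.weight a α y h4 h5 h6⟩

variable [IsAlgClosed Ω] [FiniteDimensional Ω V]

/-- The monodromy on the generalized eigenspaces: it is injective above the middle. -/
lemma ker_above (hq : 2 ≤ q) (h : HasWeights q i F M) (hM : IsMonodromyFiltration N M) {α : Ω}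
    {w : ℤ} (hα : IsWeilNumber q w α) (hw : i < w) {x : V} (hx : x ∈ F.maxGenEigenspace α)
    (hN : N x = 0) : x = 0 := by
  by_contra hx0
  obtain ⟨h1, h2⟩ := h.level hq hα hx hx0
  apply h2
  obtain ⟨a, ha⟩ : ∃ a : ℕ, w - i = a + 1 := ⟨(w - i - 1).toNat, by omega⟩
  rw [ha] at h1 ⊢
  refine hM.inj (a + 1) x (by exact_mod_cast h1) ?_
  rw [pow_succ, Module.End.mul_apply, hN, map_zero]
  exact Submodule.zero_mem _

lemma pow_N (hNF : ∀ x, N (F x) = (q : Ω) • F (N x)) (b : ℕ) (x : V) :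
    (N ^ b) (F x) = ((q : Ω) ^ b) • F ((N ^ b) x) := by
  induction b with
  | zero => simp
  | succ b ih =>
    rw [pow_succ' N b, Module.End.mul_apply, Module.End.mul_apply, ih, map_smul, hNF, smul_smul,
      ← pow_succ]

/-- The monodromy is surjective below the middle. -/
lemma surj_below (hq : 2 ≤ q) (h : HasWeights q i F M) (hM : IsMonodromyFiltration N M)
    (hNF : ∀ x, N (F x) = (q : Ω) • F (N x)) {β : Ω} {w : ℤ}
    (hβ : IsWeilNumber q w β) (hw : w < i) {y : V} (hy : y ∈ F.maxGenEigenspace β) :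
    ∃ x ∈ F.maxGenEigenspace ((q : Ω) * β), N x = y := by
  obtain ⟨b, hb⟩ : ∃ b : ℕ, w - i = -((b : ℤ) + 1) := ⟨(i - w - 1).toNat, by omega⟩
  have hqΩ : (q : Ω) ≠ 0 := Nat.cast_ne_zero.2 (by omega)
  have hyM : y ∈ M (-((b + 1 : ℕ) : ℤ)) := by
    by_cases hy0 : y = 0
    · rw [hy0]; exact Submodule.zero_mem _
    · have := (h.level hq hβ hy hy0).1
      rw [hb] at this
      exact_mod_cast this
  obtain ⟨x, -, hx2⟩ := hM.surj (b + 1) y hyM
  obtain ⟨x₀, hx₀, x', hx', rfl⟩ := exists_split F (W := ⊤) (fun x _ => Submodule.mem_top)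
    ((q : Ω) ^ (b + 1) * β) (Submodule.mem_top : x ∈ ⊤)
  have h1 : (N ^ (b + 1)) x₀ ∈ F.maxGenEigenspace β :=
    gen_map (pow_ne_zero _ hqΩ) (pow_N hNF (b + 1)) rfl hx₀.2
  have h2 : (N ^ (b + 1)) x' ∈ ⨆ γ : {γ : Ω // γ ≠ β}, F.maxGenEigenspace (γ : Ω) := by
    have hle : (⨆ γ : {γ : Ω // γ ≠ (q : Ω) ^ (b + 1) * β}, ⊤ ⊓ F.maxGenEigenspace (γ : Ω)) ≤
        (⨆ γ : {γ : Ω // γ ≠ β}, F.maxGenEigenspace (γ : Ω)).comap (N ^ (b + 1)) := by
      apply iSup_le
      rintro ⟨γ, hγ⟩ x hx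
      have hc : ((q : Ω) ^ (b + 1)) ≠ 0 := pow_ne_zero _ hqΩ
      have hγ' : ((q : Ω) ^ (b + 1))⁻¹ * γ ≠ β := fun h0 => hγ (by
        rw [← h0, mul_inv_cancel_left₀ hc])
      exact Submodule.mem_iSup_of_mem (⟨_, hγ'⟩ : {γ : Ω // γ ≠ β})
        (gen_map hc (pow_N hNF (b + 1)) (mul_inv_cancel_left₀ hc γ).symm hx.2)
    exact hle hx'
  have h3 : y - (N ^ (b + 1)) (x₀ + x') ∈ ⨆ γ : {γ : Ω // γ ≠ β}, F.maxGenEigenspace (γ : Ω) := by
    obtain ⟨z₀, hz₀, z', hz', hz⟩ := exists_split F (W := M (-((b + 1 : ℕ) : ℤ) - 1))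
      (fun x hx => h.stable _ x hx) β hx2
    have hz0 : z₀ = 0 := by
      by_contra hne
      apply (h.level hq hβ hz₀.2 hne).2
      have h5 := hz₀.1
      rw [show -((b + 1 : ℕ) : ℤ) - 1 = w - i - 1 by rw [hb]; push_cast; ring] at h5
      exact h5
    rw [← hz, hz0, zero_add]
    have hle : (⨆ γ : {γ : Ω // γ ≠ β}, M (-((b + 1 : ℕ) : ℤ) - 1) ⊓ F.maxGenEigenspace (γ : Ω)) ≤
        ⨆ γ : {γ : Ω // γ ≠ β}, F.maxGenEigenspace (γ : Ω) := iSup_mono fun γ => inf_le_right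
    exact hle hz'
  have h4 : y - (N ^ (b + 1)) x₀ = 0 := by
    apply eq_zero_of_mem F β (Submodule.sub_mem _ hy h1)
    have : y - (N ^ (b + 1)) x₀ = (y - (N ^ (b + 1)) (x₀ + x')) + (N ^ (b + 1)) x' := by
      rw [map_add]; abel
    rw [this]
    exact Submodule.add_mem _ h3 h2
  refine ⟨(N ^ b) x₀, ?_, ?_⟩
  · refine gen_map (pow_ne_zero b hqΩ) (pow_N hNF b) ?_ hx₀.2
    rw [pow_succ, mul_assoc]
  · rw [← Module.End.mul_apply, ← pow_succ']
    exact (sub_eq_zero.1 h4).symm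

omit [IsAlgClosed Ω] [FiniteDimensional Ω V] in
lemma ker_stable (hq : 2 ≤ q) (hNF : ∀ x, N (F x) = (q : Ω) • F (N x)) {x : V}
    (hx : x ∈ LinearMap.ker N) : F x ∈ LinearMap.ker N := by
  rw [LinearMap.mem_ker] at hx ⊢
  rw [hNF, hx, map_zero, smul_zero]

/-- Shifting a Weil number. -/
lemma weil_div (hq : 2 ≤ q) {α : Ω} {w : ℤ} (hα : IsWeilNumber q w ((q : Ω) * α)) :
    IsWeilNumber q (w - 2) α := by
  have hqΩ : (q : Ω) ≠ 0 := Nat.cast_ne_zero.2 (by omega)
  have := hα.twist (by omega : q ≠ 0) (-1)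
  rw [zpow_neg_one, inv_mul_cancel_left₀ hqΩ] at this
  rw [show w - 2 = w + 2 * -1 by ring]
  exact this

/-- The multiplicities on the kernel of the monodromy. -/
lemma mlt_ker (hq : 2 ≤ q) (h : HasWeights q i F M) (hM : IsMonodromyFiltration N M)
    (hNF : ∀ x, N (F x) = (q : Ω) • F (N x)) {α : Ω} {w : ℤ}
    (hα : IsWeilNumber q w ((q : Ω) * α)) :
    (w ≤ i + 1 → mlt F ⊤ ((q : Ω) * α) = mlt F (LinearMap.ker N) ((q : Ω) * α) + mlt F ⊤ α) ∧
    (i < w → mlt F (LinearMap.ker N) ((q : Ω) * α) = 0) := by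
  have hqΩ : (q : Ω) ≠ 0 := Nat.cast_ne_zero.2 (by omega)
  constructor
  · intro hw
    have e1 := mlt_map (F := F) (F' := F) (f := N) hqΩ hNF (W := ⊤)
      (fun x _ => Submodule.mem_top) α
    rw [top_inf_eq] at e1
    rw [e1]
    congr 1
    apply mlt_congr
    apply le_antisymm
    · exact inf_le_inf_right _ le_top
    · rintro y ⟨-, hy⟩
      obtain ⟨x, hx, hxy⟩ := surj_below hq h hM hNF (weil_div hq hα) (by omega) hy
      exact ⟨⟨x, Submodule.mem_top, hxy⟩, hy⟩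
  · intro hw
    have : LinearMap.ker N ⊓ F.maxGenEigenspace ((q : Ω) * α) = ⊥ := by
      rw [eq_bot_iff]
      rintro x ⟨hx, hx'⟩
      exact ker_above hq h hM hα hw hx' hx
    unfold mlt
    rw [this, finrank_bot]

end weights

end Run7.h615.WI
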