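import Pool.Agent.Run7.h615.WS.Defs

/-!
# Independence of the auxiliary prime: the known facts and the condition on the components
-/

namespace Run7.h615.WI

universe u v

open Module Pool.Agent.Y143 Pool.Agent.Helper60K9.KL Run7.h615.WM Run7.h615.WS

section one

variable {Ω : Type u} [Field Ω] {V : Type v} [AddCommGroup V] [Module Ω V]

/-- The multiplicity of the eigenvalue `α` of `F` on the invariant subspace `W`: the dimension of the
generalized eigenspace. -/
noncomputable def mlt (F : Module.End Ω V) (W : Submodule Ω V) (α : Ω) : ℕ :=
  finrank Ω (W ⊓ F.maxGenEigenspace α : Submodule Ω V)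

/-- The polynomial `P` is `det (1 - T F)`. -/
def IsDet (F : Module.End Ω V) (P : Polynomial Ω) : Prop :=
  ∃ (d : ℕ) (b : Basis (Fin d) Ω V), (LinearMap.toMatrix b b F).charpolyRev = P

/-- The polynomial `P` is `det (1 - T F)`, for the endomorphism `F` on the invariant subspace `W`. -/
def IsEulerFactor (F : Module.End Ω V) (W : Submodule Ω V) (P : Polynomial Ω) : Prop :=
  ∃ h : ∀ x ∈ W, F x ∈ W, IsDet (LinearMap.restrict F h) P

/-- The endomorphism `F` preserves the group `A`. -/
def IsPreserved (F : Module.End Ω V) (A : AddSubgroup V) : Prop := ∀ x ∈ A, F x ∈ A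

/-- The relation `N F = q F N`. -/
def IsRelated (q : ℕ) (F N : Module.End Ω V) : Prop := ∀ x, N (F x) = (q : Ω) • F (N x)

end one

section two

variable {Ω : Type u} [Field Ω] {H : Type v} [AddCommGroup H] [Module Ω H] {H' : Type v}
  [AddCommGroup H'] [Module Ω H'] {I J : Type}

/-- The map `τ i' j ∘ ρ i j`, for `t = (i, j, i')`: from the component `i` to a component `j` of the
intersections, and to another component `i'`. -/
def hop (ρ : I → J → H →ₗ[Ω] H') (τ : I → J → H' →ₗ[Ω] H) (t : I × J × I) : Module.End Ω H :=
  τ t.2.2 t.2.1 ∘ₗ ρ t.1 t.2.1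

/-- The trace of the product of the maps `hop` and a power of `F`. -/
noncomputable def hopTrace (F : Module.End Ω H) (ρ : I → J → H →ₗ[Ω] H')
    (τ : I → J → H' →ₗ[Ω] H) (s : List (I × J × I)) (k : ℕ) : Ω :=
  LinearMap.trace Ω H ((s.map (hop ρ τ)).prod * F ^ k)

/-- All conditions in `AreFromBases`: the decompositions given by the components, the properties of
the spaces `T i` and the simple spectrum. -/
def AreGood [Fintype I] [Fintype J] (R : Bases Ω H H' I J) (q w : ℕ) (gr : ℤ → Submodule Ω H)
    (gr' : ℤ → Submodule Ω H') (B : H →ₗ[Ω] H →ₗ[Ω] Ω) (B' Q : H' →ₗ[Ω] H' →ₗ[Ω] Ω)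
    (F : Module.End Ω H) (F' : Module.End Ω H') (ρ : H →ₗ[Ω] H') (S : Submodule Ω H)
    (S' : Submodule Ω H') : Prop :=
  IsSplitting gr B F R.comp ∧ IsSplitting gr' B' F' R.dbl ∧ R.IsValid q w F ρ Q (gr w) S S' ∧
    R.HasSimpleLinks F F' Q (gr' w) S'

end two

/-- The families in `E` whose component of index `0` is in the span of `A`. -/
def withSpan {Ω : Type u} [Field Ω] {H : ℕ → Type v} [∀ a, AddCommGroup (H a)]
    [∀ a, Module Ω (H a)] (E : Submodule Ω (∀ a, H a)) (A : AddSubgroup (H 0)) :
    Submodule Ω (∀ a, H a) :=
  E ⊓ (Submodule.span Ω (A : Set (H 0))).comap (LinearMap.proj 0)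

section fibre

variable {Ω : Type u} [Field Ω] [CharZero Ω] {Γ : Type} {n q : ℕ}

/-- The multiplicity of the eigenvalue `α` of the Frobenius on the submodule `W` of the column `r` of
the weight spectral sequence. -/
noncomputable def mltC (X : SpecialFibre.{u, v} Ω Γ n q) (r : ℤ) (W : Submodule Ω X.C) (α : Ω) : ℕ :=
  mlt (X.actC r X.frob) W α

/-- The multiplicity on `E_1^(r, w)`. -/
noncomputable def mltE (X : SpecialFibre.{u, v} Ω Γ n q) (r w : ℤ) : Ω → ℕ := mltC X r (X.E₁ r w)

/-- The multiplicity on the kernel of the differential on `E_1^(r, w)`. -/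
noncomputable def mltZ (X : SpecialFibre.{u, v} Ω Γ n q) (r w : ℤ) : Ω → ℕ :=
  mltC X r (X.cocycles r w)

variable {X : SpecialFibre.{u, v} Ω Γ n q} (A : DivisorClasses X)

/-- The multiplicity on the image under the differential of the classes in
`E_1^(0, 2) = H^2(Y^(1)) + H^0(Y^(3))(-1)` whose component in `H^2(Y^(1))` is in the span of the
classes of divisors. -/
noncomputable def mltDiv : Ω → ℕ := mltC X 1 ((withSpan (X.E₁ 0 2) (A.A1 0)).map (X.diff 0))

/-- The group of the classes of divisors is stable under the Frobenius. -/
def DivisorsStable : Prop := IsPreserved (X.act 0 X.frob) (A.A1 0)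

variable {I J : Type} [Fintype I] [Fintype J] (R : Bases Ω (X.H 0) (X.H (0 + 1)) I J)

/-- The classes in `H^2(Y^(1))` come from the classes of divisors and from the bases of fibrations
described by `R`, and the Frobenius has simple spectrum on the links, as in `FromBases`. -/
def AreBases : Prop :=
  AreGood R q 2 (X.gr 0) (X.gr (0 + 1)) (X.pair 0) (X.pair (0 + 1))
    (formL X (0 + 1) (n - 0 - 1 - 2)) (X.act 0 X.frob) (X.act (0 + 1) X.frob) (X.res 0)
    (Submodule.span Ω (A.A1 0 : Set (X.H 0)))
    (Submodule.span Ω (A.A1 (0 + 1) : Set (X.H (0 + 1))))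

omit [Fintype I] [Fintype J] in
/-- The traces of the products of the restrictions, the push-forwards and a power of the Frobenius. -/
noncomputable def traceAt (s : List (I × J × I)) (k : ℕ) : Ω :=
  hopTrace (X.act 0 X.frob) (R.resTo (X.res 0)) R.push s k

end fibre

section degeneration

variable {Ω : Type u} [Field Ω] [CharZero Ω] {Γ : Type} {n q : ℕ}

/-- The eigenvalues of the Frobenius on the terms of the weight spectral sequence are algebraic
integers (Deligne), and `N F = q F N`. -/
def IsIntegralRelated (X : Degeneration.{u, v} Ω Γ n q) : Prop :=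
  (∀ r w α, mltE X.toSpecialFibre r w α ≠ 0 → IsIntegral ℤ α) ∧
    ∀ m, IsRelated q (X.actV m X.frob) (X.N m)

end degeneration

variable {Λ : Type} {Ω : Λ → Type u} [∀ l, Field (Ω l)] [∀ l, CharZero (Ω l)]

/-- The number `m l α`, for `α` in the field `Ω l`, only depends on the minimal polynomial of `α` over
`ℚ`. If `m l α` is the multiplicity of the eigenvalue `α` of an endomorphism, then this means that the
characteristic polynomials have rational coefficients and are independent of `l`. -/
def IsIndependent (m : ∀ l, Ω l → ℕ) : Prop :=
  ∀ (l l' : Λ) (α : Ω l) (α' : Ω l'), minpoly ℚ α = minpoly ℚ α' → m l α = m l' α'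

variable {Γ : Type} {n q : ℕ} {X : ∀ l, SpecialFibre.{u, v} (Ω l) Γ n q}
  (A : ∀ l, DivisorClasses (X l))

/-- For the cohomology with coefficients in the fields `Ω l` of the strata of the same special fibre,
the classes in `H^2(Y^(1))` come from classes of divisors and from bases of fibrations (which are the
same for all `l`), and the Frobenius has simple spectrum on the links, as in `FromBases`. The products
of the restrictions to the `D_j` and the push-forwards are given by algebraic correspondences which do
not depend on `l`, so that their traces are rational numbers independent of `l`. -/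
def AreFibred : Prop :=
  ∃ (I J : Type) (_ : Fintype I) (_ : Fintype J)
    (R : ∀ l, Bases (Ω l) ((X l).H 0) ((X l).H (0 + 1)) I J), (∀ l, AreBases (A l) (R l)) ∧
      ∀ s k, ∃ r : ℚ, ∀ l, traceAt (R l) s k = r

/-- Well-known facts about the cohomology with coefficients in the fields `Ω l` of the special fibre
of a strictly semistable scheme.

* `term`: Deligne's theorem: the characteristic polynomials of the Frobenius on the cohomology of the
  strata have coefficients in `ℚ` and are independent of `l`.
* `row_zero`, `row_one`: the same for the kernels of the differentials in the rows `w = 0` and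
  `w = 1`, which are given by the components and the Picard varieties of the strata.
* `divisors`: the same for the image of the differential on the classes of divisors (the Neron-Severi
  groups are independent of `l`); `stable`: the classes of divisors are stable under the Frobenius. -/
structure KnownFacts : Prop where
  term : ∀ r w, IsIndependent fun l => mltE (X l) r w
  row_zero : ∀ r : ℤ, 0 ≤ r → IsIndependent fun l => mltZ (X l) r 0
  row_one : ∀ r : ℤ, 0 ≤ r → IsIndependent fun l => mltZ (X l) r 1
  divisors : IsIndependent fun l => mltDiv (A l)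
  stable : ∀ l, DivisorsStable (A l)

end Run7.h615.WI
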