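import Pool.Agent.Run7.h615.WI.RowTwo
import Pool.Agent.Run7.h615.WI.Char

/-!
# Independence of `l` of the characteristic polynomial on the inertia invariants
-/

set_option linter.unusedSectionVars false

namespace Run7.h615.WI

universe u v

open Module Pool.Agent.Y143 Pool.Agent.Helper60K9.KL Run7.h615.WM Run7.h615.WS Run7.h615.WL
open Polynomial

variable {Λ : Type} {Ω : Λ → Type u} [∀ l, Field (Ω l)] [∀ l, CharZero (Ω l)]
  [∀ l, IsAlgClosed (Ω l)] {Γ : Type} {n q : ℕ} {X : ∀ l, Degeneration.{u, v} (Ω l) Γ n q}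
  {A : ∀ l, DivisorClasses (X l).toSpecialFibre}

/-- Independence in row two. -/
lemma row_two (hn : 3 ≤ n) (K : KnownFacts A) (hF : AreFibred A) (l l' : Λ) (α : Ω l) (α' : Ω l')
    (h : minpoly ℚ α = minpoly ℚ α') :
    bb (X l).toSpecialFibre 1 2 α = bb (X l').toSpecialFibre 1 2 α' := by
  obtain ⟨I, J, _, _, R, hR, hw⟩ := hF
  have hd : mlt ((X l).actC 1 (X l).frob) ((divPart (A l)).map ((X l).diff 0)) α =
      mlt ((X l').actC 1 (X l').frob) ((divPart (A l')).map ((X l').diff 0)) α' :=
    K.divisors l l' α α' h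
  rw [bb_two hn (A l) (K.stable l) (hR l).1 (hR l).2.1 (hR l).2.2.1 (hR l).2.2.2,
    bb_two hn (A l') (K.stable l') (hR l').1 (hR l').2.1 (hR l').2.2.1 (hR l').2.2.2, hd]
  congr 1
  have hfin : ∀ l, Module.Finite (Ω l) ((X l).H 0) := fun l => (X l).finite 0
  have hfin1 : ∀ l, Module.Finite (Ω l) ((X l).H (0 + 1)) := fun l => (X l).finite (0 + 1)
  by_cases hα : α = 0
  · -- the eigenvalue zero does not occur
    have hα' : α' = 0 := by
      rw [hα, minpoly.zero] at h
      have h1 := minpoly.aeval ℚ α'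
      rw [← h, aeval_X] at h1
      exact h1
    have hz : ∀ l (α : Ω l), α = 0 →
        mlt ((X l).act (0 + 1) (X l).frob) ((⨆ i, (R l).T i).map ((X l).res 0)) α = 0 := by
      intro l α hα
      have h2 : (⨆ i, (R l).T i).map ((X l).res 0) ⊓
          ((X l).act (0 + 1) (X l).frob).maxGenEigenspace α = ⊥ := by
        rw [eq_bot_iff]
        rintro y ⟨-, hy⟩
        by_contra hne
        exact eigenvalue_ne_zero (X l).toSpecialFibre (0 + 1) hy hne hα
      unfold mlt
      rw [h2, finrank_bot]
    rw [hz l α hα, hz l' α' hα']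
  · have hα' : α' ≠ 0 := by
      intro h0
      apply hα
      rw [h0, minpoly.zero] at h
      have h1 := minpoly.aeval ℚ α
      rw [h, aeval_X] at h1
      exact h1
    exact independent_res (fun l => isSystem (X := (X l).toSpecialFibre) hn (hR l).1 (hR l).2.1
        (hR l).2.2.1)
      (fun l => isProj (hR l).1 (hR l).2.2.1) (fun i f hf => sameTraces hw hf)
      (fun l => (X l).res 0)
      (fun l x => ((X l).res_act 0 (X l).frob x).symm)
      (fun l x => res_iff (hR l).1 (hR l).2.1 x)
      (fun l i j z => comp_self (hR l).1 (hR l).2.2.1 i (((hR l).2.2.1.sim i j).mem z))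
      (fun l α j => isLine (X := (X l).toSpecialFibre) hn (hR l).1 (hR l).2.1 (hR l).2.2.1
        (hR l).2.2.2 α j) hα hα' h

lemma sameRows (hn : 3 ≤ n) (K : KnownFacts A) (hF : AreFibred A) (l l' : Λ) :
    SameRows (X l).toSpecialFibre (X l').toSpecialFibre where
  e1 := fun r w α α' h => K.term r w l l' α α' h
  row0 := fun r α α' hr h => K.row_zero r hr l l' α α' h
  row1 := fun r α α' hr h => K.row_one r hr l l' α α' h
  row2 := row_two hn K hF l l'

lemma fibredAt (hF : AreFibred A) (l : Λ) :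
    FibredAt (A l) 0 2 := by
  obtain ⟨I, J, i1, i2, R, hR, -⟩ := hF
  exact Or.inl ⟨rfl, I, J, i1, i2, R l, (hR l).1, (hR l).2.1, (hR l).2.2.1, (hR l).2.2.2⟩

/-- The degrees for which the independence is proved. -/
lemma goodAt (D : ∀ l, IsIntegralRelated (X l)) (hF : AreFibred A) {m : ℕ}
    (hm : m ≤ 2 ∨ 2 * n ≤ m + 2 ∨ n = 3) (l : Λ) : GoodAt (X l) m where
  mw := mw_of_fibred (X l) (A l) m fun a w h1 h2 h3 => by
    obtain ⟨rfl, rfl⟩ : a = 0 ∧ w = 2 := by omega
    exact fibredAt hF l
  frob := (D l).2 m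

lemma sameLow (hq : 2 ≤ q) (hn : 3 ≤ n) (D : ∀ l, IsIntegralRelated (X l)) (K : KnownFacts A)
    (hF : AreFibred A) {m : ℕ}
    (hm : m ≤ 2 ∨ 2 * n ≤ m + 2 ∨ n = 3) (l l' : Λ) : SameLow (X l) (X l') m := by
  have S := sameRows hn K hF l l'
  have hlow : ∀ m ≤ 2, SameLow (X l) (X l') m := by
    intro m hm
    by_cases h1 : m ≤ 1
    · exact sameLow_one hq S m h1
    · obtain rfl : m = 2 := by omega
      exact sameLow_two hq S (goodAt D hF (by omega) l) (goodAt D hF (by omega) l')
  by_cases h2 : m ≤ 2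
  · exact hlow m h2
  by_cases h3 : 2 * n < m
  · -- the cohomology is zero
    apply sameLow_of hq
    intro w α α' hw hα hc
    have h4 : ∀ {Ω : Type u} [Field Ω] [CharZero Ω] [IsAlgClosed Ω]
        (X : Degeneration.{u, v} Ω Γ n q) (α : Ω), e1 X.toSpecialFibre (m - w) w α = 0 := by
      intro Ω _ _ _ X α
      refine e1_zero X.toSpecialFibre (m - w) w (Or.inr ?_) α
      rw [abs_of_nonneg (by omega)]
      omega
    have e1 := e1_eq (X l).toSpecialFibre (m - w) w α
    have e2 := e1_eq (X l').toSpecialFibre (m - w) w α'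
    have e3 := bb_le (X l).toSpecialFibre (m - w) w α
    have e4 := bb_le (X l').toSpecialFibre (m - w) w α'
    rw [h4] at e1 e2 e3 e4
    omega
  by_cases h4 : 2 * n ≤ m + 2
  · exact sameLow_high hq (m := m) (m' := 2 * n - m) (s := m - n) (by omega) (by omega)
      (hlow _ (by omega))
  · obtain rfl : n = 3 := by omega
    obtain rfl : m = 3 := by omega
    exact sameLow_three hq S (goodAt D hF (by omega) l) (goodAt D hF (by omega) l')
      (goodAt D hF (by omega) l) (goodAt D hF (by omega) l')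

lemma euler_of_charpoly {K : Type u} [Field K] [CharZero K] {V : Type v} [AddCommGroup V]
    [Module K V] [FiniteDimensional K V] {F : Module.End K V} {W : Submodule K V}
    (h : ∀ x ∈ W, F x ∈ W) {P : ℤ[X]}
    (hP : (LinearMap.restrict F h).charpoly = P.map (Int.castRingHom K)) :
    IsEulerFactor F W (P.reverse.map (Int.castRingHom K)) := by
  refine ⟨h, finrank K W, Module.finBasis K W, ?_⟩
  rw [← Matrix.reverse_charpoly, LinearMap.charpoly_toMatrix, hP, reverse, reverse,
    natDegree_map_eq_of_injective (RingHom.injective_int _), reflect_map]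

/-- The Tate twist. -/
lemma euler_smul {K : Type u} [Field K] {V : Type v} [AddCommGroup V] [Module K V]
    {F : Module.End K V} {W : Submodule K V} {P : K[X]} (h : IsEulerFactor F W P) (c : K) :
    IsEulerFactor (c • F) W (P.comp (C c * Polynomial.X)) := by
  obtain ⟨h, d, b, rfl⟩ := h
  refine ⟨fun x hx => W.smul_mem c (h x hx), d, b, ?_⟩
  have e1 : LinearMap.restrict (c • F) (fun x hx => W.smul_mem c (h x hx)) =
      c • LinearMap.restrict F h := rfl
  rw [e1, map_smul, Matrix.charpolyRev, Matrix.charpolyRev]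
  set M := LinearMap.toMatrix b b (LinearMap.restrict F h)
  have e2 : ((1 : Matrix (Fin d) (Fin d) K[X]) - (Polynomial.X : K[X]) • M.map C).det.comp (C c * Polynomial.X) =
      (Polynomial.compRingHom (C c * Polynomial.X))
        ((1 : Matrix (Fin d) (Fin d) K[X]) - (Polynomial.X : K[X]) • M.map C).det := rfl
  rw [e2, RingHom.map_det]
  congr 1
  ext i j : 1
  simp only [Matrix.sub_apply, Matrix.smul_apply, Matrix.map_apply, RingHom.mapMatrix_apply,
    coe_compRingHom, sub_comp, smul_eq_mul, mul_comp, X_comp, C_comp, C_mul, Matrix.one_apply]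
  split_ifs
  · rw [one_comp]
    ring
  · rw [zero_comp]
    ring

/-- **Independence of `l` of the local Euler factors.** -/
theorem independence (hq : 2 ≤ q) (hn : 3 ≤ n) (D : ∀ l, IsIntegralRelated (X l))
    (K : KnownFacts A) (hF : AreFibred A) (m : ℕ)
    (hm : m ≤ 2 ∨ 2 * n ≤ m + 2 ∨ n = 3) :
    ∃ P : ℤ[X], ∀ l, IsEulerFactor ((X l).actV m (X l).frob) (LinearMap.ker ((X l).N m))
      (P.map (Int.castRingHom (Ω l))) := by
  have hfin : ∀ l, Module.Finite (Ω l) ((X l).V m) := fun l => finite_V (X l).toSemistableModel m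
  have hst : ∀ l, ∀ x ∈ LinearMap.ker ((X l).N m),
      (X l).actV m (X l).frob x ∈ LinearMap.ker ((X l).N m) := by
    intro l x hx
    have h1 : (X l).N m x = 0 := hx
    show (X l).N m ((X l).actV m (X l).frob x) = 0
    rw [(D l).2 m x, h1, map_zero, smul_zero]
  have hfin' : ∀ l, Module.Finite (Ω l) (LinearMap.ker ((X l).N m)) := fun l =>
    @FiniteDimensional.finiteDimensional_submodule _ _ _ _ _ (hfin l) _
  have hrm : ∀ l (α : Ω l),
      (LinearMap.restrict ((X l).actV m (X l).frob) (hst l)).charpoly.rootMultiplicity α =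
        kk (X l).toSemistableModel m α := by
    intro l α
    rw [← LinearMap.finrank_maxGenEigenspace_eq]
    exact finrank_gen_restrict _ _ (hst l) α
  have hkv : ∀ l (α : Ω l), kk (X l).toSemistableModel m α ≤ vv (X l).toSemistableModel m α := by
    intro l α
    have := hfin l
    exact mlt_mono ((X l).actV m (X l).frob) le_top α
  obtain ⟨P, hP, hP'⟩ := exists_poly
    (fun l => (LinearMap.restrict ((X l).actV m (X l).frob) (hst l)).charpoly)
    (fun l => LinearMap.charpoly_monic _) (fun l α hne => by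
      have h0 : kk (X l).toSemistableModel m α ≠ 0 := by
        rw [← hrm]
        exact hne
      have h1 := hkv l α
      have h4 : vv (X l).toSemistableModel m α ≠ 0 := by omega
      obtain ⟨w, hw⟩ := (hasWeights_W (X l).toSemistableModel m).weil h4
      have h2 := vv_eq (X l).toSemistableModel hq m hw rfl
      have h3 := e1_eq (X l).toSpecialFibre (m - w) w α
      have h5 : e1 (X l).toSpecialFibre (m - w) w α ≠ 0 := by omega
      exact (D l).1 (m - w) w α h5) (fun l l' α α' h => by
      have h0 := same_kk hq (sameLow hq hn D K hF hm l l') (goodAt D hF hm l)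
        (goodAt D hF hm l') h
      rw [← hrm, ← hrm] at h0
      exact h0)
  exact ⟨P.reverse, fun l => euler_of_charpoly (hst l) (hP' l)⟩

/-- The Tate twists. -/
theorem independence_twist (hq : 2 ≤ q) (hn : 3 ≤ n) (D : ∀ l, IsIntegralRelated (X l))
    (K : KnownFacts A) (hF : AreFibred A) (m : ℕ)
    (hm : m ≤ 2 ∨ 2 * n ≤ m + 2 ∨ n = 3) (r : ℤ) :
    ∃ P : ℚ[X], ∀ l, IsEulerFactor ((q : Ω l) ^ (-r) • (X l).actV m (X l).frob)
      (LinearMap.ker ((X l).N m)) (P.map (algebraMap ℚ (Ω l))) := by
  obtain ⟨P, hP⟩ := independence hq hn D K hF m hm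
  refine ⟨(P.map (Int.castRingHom ℚ)).comp (C ((q : ℚ) ^ (-r)) * Polynomial.X), fun l => ?_⟩
  have h1 := euler_smul (hP l) ((q : Ω l) ^ (-r))
  convert h1 using 1
  rw [Polynomial.map_comp, Polynomial.map_map, Polynomial.map_mul, map_C, map_X]
  congr 2
  · congr 1
    exact RingHom.ext_int _ _
  · congr 1
    simp

end Run7.h615.WI
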