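import Pool.Agent.Run7.h615.WI.Defs
import Pool.Agent.Run7.h615.WL.Log

/-!
# Multiplicities of eigenvalues on invariant subspaces
-/

namespace Run7.h615.WI

universe u v

open Module Pool.Agent.Y143

variable {Ω : Type u} [Field Ω] {V : Type*} [AddCommGroup V] [Module Ω V]
  {V' : Type*} [AddCommGroup V'] [Module Ω V']

lemma gen_stable (F : Module.End Ω V) (α : Ω) {x : V} (hx : x ∈ F.maxGenEigenspace α) :
    F x ∈ F.maxGenEigenspace α :=
  Module.End.mapsTo_maxGenEigenspace_of_comm (Commute.refl F) α hx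

lemma sub_pow_map {F : Module.End Ω V} {F' : Module.End Ω V'} {f : V →ₗ[Ω] V'} {c : Ω}
    (hf : ∀ x, f (F x) = c • F' (f x)) {α β : Ω} (hβ : α = c * β) (k : ℕ) (x : V) :
    f (((F - α • (1 : Module.End Ω V)) ^ k) x) = c ^ k • ((F' - β • (1 : Module.End Ω V')) ^ k) (f x) := by
  induction k with
  | zero => simp
  | succ k ih =>
    rw [pow_succ' (F - α • (1 : Module.End Ω V)), Module.End.mul_apply,
      pow_succ' (F' - β • (1 : Module.End Ω V')), Module.End.mul_apply, LinearMap.sub_apply,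
      LinearMap.sub_apply, map_sub, hf, LinearMap.smul_apply, LinearMap.smul_apply,
      Module.End.one_apply, Module.End.one_apply, map_smul, ih, map_smul, hβ]
    module

/-- A map which is compatible with the operators up to a factor maps generalized eigenspaces to
generalized eigenspaces. -/
lemma gen_map {F : Module.End Ω V} {F' : Module.End Ω V'} {f : V →ₗ[Ω] V'} {c : Ω} (hc : c ≠ 0)
    (hf : ∀ x, f (F x) = c • F' (f x)) {α β : Ω} (hβ : α = c * β) {x : V}
    (hx : x ∈ F.maxGenEigenspace α) : f x ∈ F'.maxGenEigenspace β := by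
  rw [Module.End.mem_maxGenEigenspace] at hx ⊢
  obtain ⟨k, hk⟩ := hx
  refine ⟨k, ?_⟩
  have h1 := sub_pow_map hf hβ k x
  rw [hk, map_zero] at h1
  exact (smul_eq_zero.1 h1.symm).resolve_left (pow_ne_zero _ hc)

section fin

variable [IsAlgClosed Ω] [FiniteDimensional Ω V] [FiniteDimensional Ω V']

/-- The decomposition of an element of an invariant subspace. -/
lemma exists_split (F : Module.End Ω V) {W : Submodule Ω V} (hW : ∀ x ∈ W, F x ∈ W) (α : Ω)
    {x : V} (hx : x ∈ W) : ∃ y ∈ W ⊓ F.maxGenEigenspace α,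
      ∃ z ∈ ⨆ β : {β : Ω // β ≠ α}, W ⊓ F.maxGenEigenspace β, y + z = x := by
  have h1 : W = ⨆ β, W ⊓ F.maxGenEigenspace β := by
    simpa using Submodule.eq_iSup_inf_genEigenspace (p := W) (f := F) ⊤ hW
      (Module.End.iSup_maxGenEigenspace_eq_top F)
  have h2 : (⨆ β, W ⊓ F.maxGenEigenspace β) ≤ (W ⊓ F.maxGenEigenspace α) ⊔
      ⨆ β : {β : Ω // β ≠ α}, W ⊓ F.maxGenEigenspace β := by
    apply iSup_le
    intro β
    by_cases h : β = α
    · rw [h]; exact le_sup_left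
    · exact (le_iSup (fun β : {β : Ω // β ≠ α} => W ⊓ F.maxGenEigenspace β) ⟨β, h⟩).trans
        le_sup_right
  exact Submodule.mem_sup.1 (h2 (h1 ▸ hx))

omit [IsAlgClosed Ω] [FiniteDimensional Ω V] in
lemma eq_zero_of_mem (F : Module.End Ω V) (α : Ω) {x : V} (hx : x ∈ F.maxGenEigenspace α)
    (hx' : x ∈ ⨆ β : {β : Ω // β ≠ α}, F.maxGenEigenspace β) : x = 0 := by
  have h1 := (Module.End.independent_maxGenEigenspace F) α
  have h2 : (⨆ β : {β : Ω // β ≠ α}, F.maxGenEigenspace β) ≤ ⨆ β, ⨆ (_ : β ≠ α),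
      F.maxGenEigenspace β := by
    apply iSup_le
    intro β
    exact le_iSup₂_of_le β.1 β.2 le_rfl
  exact (Submodule.disjoint_def.1 h1) x hx (h2 hx')

/-- The image of the generalized eigenspace of an invariant subspace. -/
lemma map_gen_eq {F : Module.End Ω V} {F' : Module.End Ω V'} {f : V →ₗ[Ω] V'} {c : Ω}
    (hc : c ≠ 0) (hf : ∀ x, f (F x) = c • F' (f x)) {W : Submodule Ω V}
    (hW : ∀ x ∈ W, F x ∈ W) (β : Ω) :
    (W ⊓ F.maxGenEigenspace (c * β)).map f = W.map f ⊓ F'.maxGenEigenspace β := by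
  apply le_antisymm
  · rintro _ ⟨x, hx, rfl⟩
    exact ⟨⟨x, hx.1, rfl⟩, gen_map hc hf rfl hx.2⟩
  · rintro _ ⟨⟨x, hx, rfl⟩, hy⟩
    obtain ⟨y, hy1, z, hz, rfl⟩ := exists_split F hW (c * β) hx
    refine ⟨y, hy1, ?_⟩
    have h1 : f z ∈ ⨆ γ : {γ : Ω // γ ≠ β}, F'.maxGenEigenspace γ := by
      have hle : (⨆ γ : {γ : Ω // γ ≠ c * β}, W ⊓ F.maxGenEigenspace γ) ≤
          (⨆ γ : {γ : Ω // γ ≠ β}, F'.maxGenEigenspace (γ : Ω)).comap f := by
        apply iSup_le
        rintro ⟨γ, hγ⟩ x hx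
        have hγ' : c⁻¹ * γ ≠ β := fun h0 => hγ (by rw [← h0, mul_inv_cancel_left₀ hc])
        exact Submodule.mem_iSup_of_mem (⟨c⁻¹ * γ, hγ'⟩ : {γ : Ω // γ ≠ β})
          (gen_map hc hf (mul_inv_cancel_left₀ hc γ).symm hx.2)
      exact hle hz
    have h2 : f z ∈ F'.maxGenEigenspace β := by
      have h3 := Submodule.sub_mem _ hy (gen_map hc hf rfl hy1.2)
      rwa [map_add, add_sub_cancel_left] at h3
    rw [map_add, eq_zero_of_mem F' β h2 h1, add_zero]

/-- Multiplicities are additive. -/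
lemma mlt_map {F : Module.End Ω V} {F' : Module.End Ω V'} {f : V →ₗ[Ω] V'} {c : Ω}
    (hc : c ≠ 0) (hf : ∀ x, f (F x) = c • F' (f x)) {W : Submodule Ω V}
    (hW : ∀ x ∈ W, F x ∈ W) (β : Ω) :
    mlt F W (c * β) = mlt F (W ⊓ LinearMap.ker f) (c * β) + mlt F' (W.map f) β := by
  unfold mlt
  rw [← map_gen_eq hc hf hW]
  have h1 := Pool.Agent.Y143.finrank_map_add_ker f (W ⊓ F.maxGenEigenspace (c * β))
  rw [inf_right_comm] at h1
  rw [← h1, add_comm]

lemma mlt_map' {F : Module.End Ω V} {F' : Module.End Ω V'} {f : V →ₗ[Ω] V'}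
    (hf : ∀ x, f (F x) = F' (f x)) {W : Submodule Ω V} (hW : ∀ x ∈ W, F x ∈ W) (β : Ω) :
    mlt F W β = mlt F (W ⊓ LinearMap.ker f) β + mlt F' (W.map f) β := by
  have := mlt_map (c := 1) one_ne_zero (fun x => by rw [hf, one_smul]) hW β
  rwa [one_mul] at this

end fin

lemma mlt_congr {F : Module.End Ω V} {W W' : Submodule Ω V} {α : Ω}
    (h : W ⊓ F.maxGenEigenspace α = W' ⊓ F.maxGenEigenspace α) : mlt F W α = mlt F W' α := by
  unfold mlt
  rw [h]

lemma mlt_bot (F : Module.End Ω V) (α : Ω) : mlt F ⊥ α = 0 := by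
  unfold mlt
  rw [bot_inf_eq, finrank_bot]

end Run7.h615.WI
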