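import Pool.Agent.Run7.h615.WI.Defs

/-!
# Traces of the powers of the operator given by the walks of length one
-/

namespace Run7.h615.WI

universe u v

open Module

variable {Λ : Type} {Ω : Λ → Type u} [∀ l, Field (Ω l)] [∀ l, CharZero (Ω l)]
variable {H H' : Λ → Type v} [∀ l, AddCommGroup (H l)] [∀ l, Module (Ω l) (H l)]
  [∀ l, AddCommGroup (H' l)] [∀ l, Module (Ω l) (H' l)]
variable {I J : Type} [Fintype I] [Fintype J] {ρ : ∀ l, I → J → H l →ₗ[Ω l] H' l}
  {τ : ∀ l, I → J → H' l →ₗ[Ω l] H l}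

/-- Sums of walks. -/
inductive IsSum (ρ : ∀ l, I → J → H l →ₗ[Ω l] H' l) (τ : ∀ l, I → J → H' l →ₗ[Ω l] H l)
    (i i' : I) : (∀ l, Module.End (Ω l) (H l)) → Prop
  | zero : IsSum ρ τ i i' fun _ => 0
  | walk {f : ∀ l, Module.End (Ω l) (H l)} : IsWalkFamily ρ τ i i' f → IsSum ρ τ i i' f
  | add {f g : ∀ l, Module.End (Ω l) (H l)} : IsSum ρ τ i i' f → IsSum ρ τ i i' g →
      IsSum ρ τ i i' fun l => f l + g l

omit [∀ l, CharZero (Ω l)] [Fintype I] [Fintype J] in
lemma IsSum.sum {ι : Type*} (s : Finset ι) {i i' : I} {f : ι → ∀ l, Module.End (Ω l) (H l)}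
    (h : ∀ x ∈ s, IsSum ρ τ i i' (f x)) : IsSum ρ τ i i' fun l => ∑ x ∈ s, f x l := by
  classical
  induction s using Finset.induction_on with
  | empty => simpa using IsSum.zero
  | insert a s ha ih =>
    simp only [Finset.sum_insert ha]
    exact IsSum.add (h a (Finset.mem_insert_self a s))
      (ih fun x hx => h x (Finset.mem_insert_of_mem hx))

omit [∀ l, CharZero (Ω l)] [Fintype I] [Fintype J] in
lemma IsSum.comp_walk {i i' i'' : I} {f g : ∀ l, Module.End (Ω l) (H l)}
    (hf : IsWalkFamily ρ τ i i' f) (hg : IsSum ρ τ i' i'' g) :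
    IsSum ρ τ i i'' fun l => g l ∘ₗ f l := by
  induction hg with
  | zero =>
    have : (fun l => (0 : Module.End (Ω l) (H l)) ∘ₗ f l) =
        fun l => (0 : Module.End (Ω l) (H l)) := by
      funext l
      exact LinearMap.zero_comp _
    rw [this]
    exact IsSum.zero
  | walk hg => exact IsSum.walk (IsWalkFamily.comp hf hg)
  | add h1 h2 ih1 ih2 =>
    have := IsSum.add ih1 ih2
    simpa only [LinearMap.add_comp] using this

omit [∀ l, CharZero (Ω l)] [Fintype I] [Fintype J] in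
lemma IsSum.comp {i i' i'' : I} {f g : ∀ l, Module.End (Ω l) (H l)} (hf : IsSum ρ τ i i' f)
    (hg : IsSum ρ τ i' i'' g) : IsSum ρ τ i i'' fun l => g l ∘ₗ f l := by
  induction hf with
  | zero =>
    have : (fun l => g l ∘ₗ (0 : Module.End (Ω l) (H l))) = fun l => (0 : Module.End (Ω l) (H l)) := by
      funext l
      exact LinearMap.comp_zero _
    rw [this]
    exact IsSum.zero
  | add h1 h2 ih1 ih2 =>
    have := IsSum.add ih1 ih2
    simpa only [LinearMap.comp_add] using this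
  | walk hf => exact IsSum.comp_walk hf hg

omit [Fintype I] [Fintype J] in
lemma IsSum.traces {F : ∀ l, Module.End (Ω l) (H l)}
    (hw : ∀ i f, IsWalkFamily ρ τ i i f → HaveSameTraces F f) {i : I}
    {f : ∀ l, Module.End (Ω l) (H l)} (hf : IsSum ρ τ i i f) : HaveSameTraces F f := by
  intro k
  induction hf with
  | zero => exact ⟨0, fun l => by simp⟩
  | walk h => exact hw _ _ h k
  | add h1 h2 ih1 ih2 =>
    obtain ⟨r, hr⟩ := ih1
    obtain ⟨r', hr'⟩ := ih2
    refine ⟨r + r', fun l => ?_⟩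
    rw [LinearMap.add_comp, map_add, hr, hr']
    push_cast
    rfl

section

variable {p : ∀ l, I → Module.End (Ω l) (H l)}

/-- The operators map to the component `i'` and are zero on the other components. -/
lemma IsSum.mem (hτ : ∀ l i j z, p l i (τ l i j z) = τ l i j z)
    {i i' : I} {f : ∀ l, Module.End (Ω l) (H l)} (hf : IsSum ρ τ i i' f) (l : Λ) (x : H l) :
    p l i' (f l x) = f l x := by
  induction hf with
  | zero => simp
  | walk h =>
    induction h generalizing x with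
    | hop i j i' => exact hτ l i' j _
    | comp h1 h2 ih1 ih2 => exact ih2 _
  | add h1 h2 ih1 ih2 => rw [LinearMap.add_apply, map_add, ih1, ih2]

lemma IsSum.zero_of_ne (hρ : ∀ l i i' j x, i ≠ i' → ρ l i j (p l i' x) = 0)
    {i i' : I} {f : ∀ l, Module.End (Ω l) (H l)} (hf : IsSum ρ τ i i' f) (l : Λ) {m : I}
    (hm : i ≠ m) (x : H l) : f l (p l m x) = 0 := by
  induction hf with
  | zero => simp
  | walk h =>
    induction h with
    | hop i j i' =>
      show τ l i' j (ρ l i j (p l m x)) = 0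
      rw [hρ l i m j x hm, map_zero]
    | @comp a b c f g h1 h2 ih1 ih2 =>
      show g l (f l (p l m x)) = 0
      rw [ih1 hm, map_zero]
  | add h1 h2 ih1 ih2 => rw [LinearMap.add_apply, ih1, ih2, add_zero]

/-- The operator from `i` to `i'` given by the walks of length one. -/
noncomputable def stepOp (ρ : ∀ l, I → J → H l →ₗ[Ω l] H' l)
    (τ : ∀ l, I → J → H' l →ₗ[Ω l] H l) (i i' : I) (l : Λ) : Module.End (Ω l) (H l) :=
  ∑ j, τ l i' j ∘ₗ ρ l i j

/-- The sum of all the operators given by the walks of length one. -/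
noncomputable def walkOp (ρ : ∀ l, I → J → H l →ₗ[Ω l] H' l)
    (τ : ∀ l, I → J → H' l →ₗ[Ω l] H l) (l : Λ) : Module.End (Ω l) (H l) :=
  ∑ i, ∑ i', stepOp ρ τ i i' l

omit [∀ l, CharZero (Ω l)] in
lemma isSum_step (i i' : I) : IsSum ρ τ i i' (stepOp ρ τ i i') :=
  IsSum.sum _ fun j _ => IsSum.walk (IsWalkFamily.hop i j i')

lemma walkOp_pow (hτ : ∀ l i j z, p l i (τ l i j z) = τ l i j z)
    (hρ : ∀ l i i' j x, i ≠ i' → ρ l i j (p l i' x) = 0) (k : ℕ) :
    ∃ f : I → I → ∀ l, Module.End (Ω l) (H l), (∀ i i', IsSum ρ τ i i' (f i i')) ∧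
      ∀ l, walkOp ρ τ l ^ (k + 1) = ∑ i, ∑ i', f i i' l := by
  classical
  induction k with
  | zero => exact ⟨stepOp ρ τ, isSum_step, fun l => by rw [zero_add, pow_one]; rfl⟩
  | succ k ih =>
    obtain ⟨f, hf, hk⟩ := ih
    refine ⟨fun i i'' l => ∑ i', stepOp ρ τ i' i'' l ∘ₗ f i i' l, fun i i'' => ?_, fun l => ?_⟩
    · exact IsSum.sum _ fun i' _ => (hf i i').comp (isSum_step i' i'')
    · rw [pow_succ', hk l]
      apply LinearMap.ext
      intro x
      rw [Module.End.mul_apply]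
      simp only [LinearMap.sum_apply, LinearMap.comp_apply, map_sum]
      refine Finset.sum_congr rfl fun i _ => ?_
      have h1 : ∀ i', (walkOp ρ τ l) (f i i' l x) = ∑ i'', stepOp ρ τ i' i'' l (f i i' l x) := by
        intro i'
        unfold walkOp
        simp only [LinearMap.sum_apply]
        rw [Finset.sum_eq_single_of_mem i' (Finset.mem_univ i')]
        intro m _ hm
        apply Finset.sum_eq_zero
        intro i'' _
        rw [← (hf i i').mem hτ l x]
        exact (isSum_step m i'').zero_of_ne hρ l hm _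
      rw [Finset.sum_congr rfl fun i' _ => h1 i', Finset.sum_comm]

variable [∀ l, FiniteDimensional (Ω l) (H l)]

lemma trace_zero {F : ∀ l, Module.End (Ω l) (H l)} (hF : ∀ l i x, p l i (F l x) = F l (p l i x))
    (hτ : ∀ l i j z, p l i (τ l i j z) = τ l i j z)
    (hρ : ∀ l i i' j x, i ≠ i' → ρ l i j (p l i' x) = 0) {i i' : I} (hi : i ≠ i')
    {f : ∀ l, Module.End (Ω l) (H l)} (hf : IsSum ρ τ i i' f) (k : ℕ) (l : Λ) :
    LinearMap.trace (Ω l) (H l) (f l ∘ₗ (F l ^ k)) = 0 := by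
  have hFk : ∀ x, p l i' ((F l ^ k) x) = (F l ^ k) (p l i' x) := by
    intro x
    induction k with
    | zero => rfl
    | succ k ih => rw [pow_succ', Module.End.mul_apply, hF, ih, Module.End.mul_apply]
  have h1 : f l ∘ₗ (F l ^ k) = (p l i') ∘ₗ (f l ∘ₗ (F l ^ k)) := by
    apply LinearMap.ext
    intro x
    exact (hf.mem hτ l _).symm
  rw [h1, LinearMap.trace_comp_comm']
  have h2 : (f l ∘ₗ (F l ^ k)) ∘ₗ (p l i') = 0 := by
    apply LinearMap.ext
    intro x
    show f l ((F l ^ k) (p l i' x)) = 0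
    rw [← hFk]
    exact hf.zero_of_ne hρ l hi _
  rw [h2, map_zero]

/-- The traces of the powers. -/
lemma walkOp_traces {F : ∀ l, Module.End (Ω l) (H l)}
    (hF : ∀ l i x, p l i (F l x) = F l (p l i x))
    (hτ : ∀ l i j z, p l i (τ l i j z) = τ l i j z)
    (hρ : ∀ l i i' j x, i ≠ i' → ρ l i j (p l i' x) = 0)
    (hw : ∀ i f, IsWalkFamily ρ τ i i f → HaveSameTraces F f) (k : ℕ) :
    HaveSameTraces F fun l => walkOp ρ τ l ^ (k + 1) := by
  obtain ⟨f, hf, hk⟩ := walkOp_pow hτ hρ k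
  intro m
  have h1 : ∀ i, ∃ r : ℚ, ∀ l, LinearMap.trace (Ω l) (H l) (f i i l ∘ₗ (F l ^ m)) = r :=
    fun i => (hf i i).traces hw m
  choose r hr using h1
  refine ⟨∑ i, r i, fun l => ?_⟩
  show LinearMap.trace (Ω l) (H l) ((walkOp ρ τ l ^ (k + 1)) ∘ₗ (F l ^ m)) = _
  rw [hk l]
  have e : (∑ i, ∑ i', f i i' l) ∘ₗ (F l ^ m) = ∑ i, ∑ i', f i i' l ∘ₗ (F l ^ m) := by
    apply LinearMap.ext
    intro x
    simp only [LinearMap.sum_apply, LinearMap.comp_apply]
  rw [e]
  simp only [map_sum]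
  push_cast
  refine Finset.sum_congr rfl fun i _ => ?_
  rw [Finset.sum_eq_single_of_mem i (Finset.mem_univ i) fun i' _ hi' =>
    trace_zero hF hτ hρ hi'.symm (hf i i') m l, hr i l]

end

end Run7.h615.WI
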