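import Pool.Agent.Run7.h615.WI.Semi
import Pool.Agent.Run7.h615.WI.Walk
import Pool.Agent.Run7.h615.WI.Mlt

/-!
# The image of the restriction and the operator given by the walks of length one
-/

set_option linter.unusedSectionVars false

namespace Run7.h615.WI

universe u v

open Module Pool.Agent.Y143 Run7.h615.WS

section lin

variable {Ω : Type u} [Field Ω] {V : Type*} [AddCommGroup V] [Module Ω V]

lemma mem_of_gen (U : Module.End Ω V) {T : Submodule Ω V} (hU : ∀ x, U x ∈ T) {β : Ω}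
    (hβ : β ≠ 0) {x : V} (hx : x ∈ U.maxGenEigenspace β) : x ∈ T := by
  rw [Module.End.mem_maxGenEigenspace] at hx
  obtain ⟨k, hk⟩ := hx
  induction k generalizing x with
  | zero =>
    have : x = 0 := by simpa using hk
    rw [this]
    exact T.zero_mem
  | succ k ih =>
    rw [pow_succ, Module.End.mul_apply] at hk
    have h1 := ih hk
    have h2 : (U - β • (1 : Module.End Ω V)) x = U x - β • x := rfl
    rw [h2] at h1
    have h3 : β • x ∈ T := by
      have := T.sub_mem (hU x) h1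
      rwa [sub_sub_cancel] at this
    have := T.smul_mem β⁻¹ h3
    rwa [smul_smul, inv_mul_cancel₀ hβ, one_smul] at this

variable [IsAlgClosed Ω] [FiniteDimensional Ω V]

/-- Fitting. -/
lemma finrank_fitting (F U : Module.End Ω V) (hc : Commute F U) {T : Submodule Ω V}
    (hU : ∀ x, U x ∈ T) (α : Ω) :
    finrank Ω (F.maxGenEigenspace α) +
        finrank Ω (T ⊓ F.maxGenEigenspace α ⊓ U.maxGenEigenspace 0 : Submodule Ω V) =
      finrank Ω (T ⊓ F.maxGenEigenspace α : Submodule Ω V) +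
        finrank Ω (F.maxGenEigenspace α ⊓ U.maxGenEigenspace 0 : Submodule Ω V) := by
  have h1 := Submodule.finrank_sup_add_finrank_inf_eq (T ⊓ F.maxGenEigenspace α)
    (F.maxGenEigenspace α ⊓ U.maxGenEigenspace 0)
  have h2 : (T ⊓ F.maxGenEigenspace α) ⊓ (F.maxGenEigenspace α ⊓ U.maxGenEigenspace 0) =
      T ⊓ F.maxGenEigenspace α ⊓ U.maxGenEigenspace 0 := by
    rw [← inf_assoc, inf_assoc T, inf_idem]
  have h3 : (T ⊓ F.maxGenEigenspace α) ⊔ (F.maxGenEigenspace α ⊓ U.maxGenEigenspace 0) =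
      F.maxGenEigenspace α := by
    apply le_antisymm
    · exact sup_le inf_le_right inf_le_left
    · intro x hx
      obtain ⟨y, hy, z, hz, rfl⟩ := exists_split U (W := F.maxGenEigenspace α)
        (fun x hx => Module.End.mapsTo_maxGenEigenspace_of_comm hc α hx) 0 hx
      refine Submodule.add_mem _ (Submodule.mem_sup_right hy) (Submodule.mem_sup_left ?_)
      have hle : (⨆ β : {β : Ω // β ≠ 0}, F.maxGenEigenspace α ⊓ U.maxGenEigenspace (β : Ω)) ≤
          T ⊓ F.maxGenEigenspace α := by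
        apply iSup_le
        rintro ⟨β, hβ⟩ x hx
        exact ⟨mem_of_gen U hU hβ hx.2, hx.1⟩
      exact hle hz
  rw [h2, h3] at h1
  exact h1

end lin

variable {Ω : Type u} [Field Ω] [CharZero Ω] [IsAlgClosed Ω] {H : Type v} [AddCommGroup H]
  [Module Ω H] {H' : Type v} [AddCommGroup H'] [Module Ω H'] {I J : Type} [Fintype I] [Fintype J]
  [FiniteDimensional Ω H] [FiniteDimensional Ω H']

section

variable {q w : ℕ} {F : Module.End Ω H} {F' : Module.End Ω H'} {T : I → Submodule Ω H}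
  {B : I → H →ₗ[Ω] H →ₗ[Ω] Ω} {B' : H' →ₗ[Ω] H' →ₗ[Ω] Ω} {ρ : I → J → H →ₗ[Ω] H'}
  {τ : I → J → H' →ₗ[Ω] H} {d : I → J → ℕ} (S : IsSystem q w F F' T B B' ρ τ d)
  {p : I → Module.End Ω H}

/-- The projections to the components. -/
structure IsProj (F : Module.End Ω H) (T : I → Submodule Ω H) (ρ : I → J → H →ₗ[Ω] H')
    (p : I → Module.End Ω H) : Prop where
  sum : ∀ x, ∑ i, p i x = x
  frob : ∀ i x, p i (F x) = F (p i x)
  mem : ∀ i, ∀ x ∈ T i, p i x = x
  ne : ∀ i i', i ≠ i' → ∀ x ∈ T i', p i x = 0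
  res : ∀ i i' j x, i ≠ i' → ρ i j (p i' x) = 0
  res' : ∀ i j x, ρ i j (p i x) = ρ i j x

/-- The operator given by the walks of length one. -/
noncomputable def uop (ρ : I → J → H →ₗ[Ω] H') (τ : I → J → H' →ₗ[Ω] H) : Module.End Ω H :=
  ∑ i, ∑ i', ∑ j, τ i' j ∘ₗ ρ i j

lemma uop_apply (x : H) : uop ρ τ x = ∑ i', ∑ j, τ i' j (∑ i, ρ i j x) := by
  unfold uop
  simp only [LinearMap.sum_apply, LinearMap.comp_apply, map_sum]
  rw [Finset.sum_comm]
  refine Finset.sum_congr rfl fun i' _ => ?_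
  rw [Finset.sum_comm]

variable (P : IsProj F T ρ p)
include S P

lemma proj_uop (x : H) (i : I) : p i (uop ρ τ x) = ∑ j, τ i j (∑ k, ρ k j x) := by
  rw [uop_apply, map_sum, Finset.sum_eq_single_of_mem i (Finset.mem_univ i)]
  · rw [map_sum]
    exact Finset.sum_congr rfl fun j _ => P.mem i _ ((S.sim i j).mem _)
  · intro i' _ hi'
    rw [map_sum]
    exact Finset.sum_eq_zero fun j _ => P.ne i i' hi'.symm _ ((S.sim i' j).mem _)

lemma proj_mem {x : H} (hx : x ∈ ⨆ i, T i) (i : I) : p i x ∈ T i := by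
  have hle : (⨆ i', T i') ≤ (T i).comap (p i) := by
    apply iSup_le
    intro i' y hy
    by_cases h : i = i'
    · subst h
      show p i y ∈ T i
      rw [P.mem i y hy]
      exact hy
    · show p i y ∈ T i
      rw [P.ne i i' h y hy]
      exact Submodule.zero_mem _
  exact hle hx

lemma proj_gen {α : Ω} {x : H} (hx : x ∈ F.maxGenEigenspace α) (i : I) :
    p i x ∈ F.maxGenEigenspace α :=
  gen_map (c := 1) one_ne_zero (fun x => by rw [P.frob, one_smul]) (one_mul α).symm hx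

lemma sum_proj (x : H) (j : J) : ∑ i, ρ i j (p i x) = ∑ i, ρ i j x :=
  Finset.sum_congr rfl fun i _ => P.res' i j x

lemma uop_comm : Commute F (uop ρ τ) := by
  apply LinearMap.ext
  intro x
  rw [Module.End.mul_apply, Module.End.mul_apply, uop_apply, uop_apply, map_sum]
  refine Finset.sum_congr rfl fun i' _ => ?_
  rw [map_sum]
  refine Finset.sum_congr rfl fun j _ => ?_
  rw [← S.tau_comm i' j, map_sum]
  congr 1
  exact Finset.sum_congr rfl fun i _ => (S.comm i j x).symm

lemma uop_mem (x : H) : uop ρ τ x ∈ ⨆ i, T i := by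
  rw [uop_apply]
  refine Submodule.sum_mem _ fun i' _ => Submodule.mem_iSup_of_mem i' ?_
  exact Submodule.sum_mem _ fun j _ => (S.sim i' j).mem _

variable {α : Ω} (hα : α ≠ 0) (hl : ∀ j, IsLink F T d α j → IsLine F T ρ α j)
include hα hl

lemma res_zero_of {x : H} (hx : x ∈ (⨆ i, T i) ⊓ F.maxGenEigenspace α) (h : uop ρ τ x = 0)
    (j : J) : ∑ i, ρ i j x = 0 := by
  have h1 := S.nondeg_of_simple (α := α) (β := (q : Ω) ^ w / α) (mul_div_cancel₀ _ hα) hl
    (fun i => p i x) (fun i => ⟨proj_mem S P hx.1 i, proj_gen S P hx.2 i⟩) (fun i' y' hy' => by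
      have h2 : B i' (p i' (uop ρ τ x)) y' = 0 := by
        rw [h, map_zero, map_zero, LinearMap.zero_apply]
      rw [proj_uop S P, map_sum, LinearMap.sum_apply] at h2
      rw [← h2]
      refine Finset.sum_congr rfl fun j _ => ?_
      rw [S.tau_form i' j _ hy', sum_proj S P]) j
  rwa [sum_proj S P] at h1

lemma semi {x : H} (hx : x ∈ (⨆ i, T i) ⊓ F.maxGenEigenspace α)
    (h : uop ρ τ (uop ρ τ x) = 0) : uop ρ τ x = 0 := by
  have hU : uop ρ τ x ∈ (⨆ i, T i) ⊓ F.maxGenEigenspace α :=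
    ⟨uop_mem S P x, Module.End.mapsTo_maxGenEigenspace_of_comm (uop_comm S P) α hx.2⟩
  have h1 := S.semi_of_simple (α := α) (β := (q : Ω) ^ w / α) (mul_div_cancel₀ _ hα) hl
    (fun i => p i x) (fun i => p i (uop ρ τ x))
    (fun i => ⟨proj_mem S P hx.1 i, proj_gen S P hx.2 i⟩)
    (fun i => ⟨proj_mem S P hU.1 i, proj_gen S P hU.2 i⟩)
    (fun i => by
      simp only [sum_proj S P]
      exact proj_uop S P x i)
    (fun j => by
      simp only [sum_proj S P]
      exact res_zero_of S P hα hl hU h j)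
  rw [← P.sum (uop ρ τ x)]
  exact Finset.sum_eq_zero fun i _ => h1 i

lemma res_zero_of_pow {x : H} (hx : x ∈ (⨆ i, T i) ⊓ F.maxGenEigenspace α) (k : ℕ)
    (h : (uop ρ τ ^ k) x = 0) (j : J) : ∑ i, ρ i j x = 0 := by
  have hstab : ∀ k : ℕ, (uop ρ τ ^ k) x ∈ (⨆ i, T i) ⊓ F.maxGenEigenspace α := by
    intro k
    induction k with
    | zero => exact hx
    | succ k ih =>
      rw [pow_succ', Module.End.mul_apply]
      exact ⟨uop_mem S P _, Module.End.mapsTo_maxGenEigenspace_of_comm (uop_comm S P) α ih.2⟩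
  have key : ∀ k : ℕ, (uop ρ τ ^ (k + 1)) x = 0 → uop ρ τ x = 0 := by
    intro k
    induction k with
    | zero => intro h; rwa [zero_add, pow_one] at h
    | succ k ih =>
      intro h
      apply ih
      rw [pow_succ', Module.End.mul_apply]
      apply semi S P hα hl (hstab k)
      rw [← Module.End.mul_apply, ← Module.End.mul_apply, ← pow_two, ← pow_add, add_comm 2 k]
      exact h
  apply res_zero_of S P hα hl hx
  cases k with
  | zero =>
    have : x = 0 := h
    rw [this, map_zero]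
  | succ k => exact key k h

/-- The multiplicity on the image of the restriction. -/
theorem mlt_res (r : H →ₗ[Ω] H') (hr : ∀ x, r (F x) = F' (r x))
    (hres : ∀ x, r x = 0 ↔ ∀ j, ∑ i, ρ i j x = 0) :
    mlt F' ((⨆ i, T i).map r) α +
        finrank Ω (F.maxGenEigenspace α ⊓ (uop ρ τ).maxGenEigenspace 0 : Submodule Ω H) =
      finrank Ω (F.maxGenEigenspace α) := by
  have hT : ∀ x ∈ ⨆ i, T i, F x ∈ ⨆ i, T i := by
    intro x hx
    have hle : (⨆ i, T i) ≤ (⨆ i, T i).comap F :=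
      iSup_le fun i y hy => Submodule.mem_iSup_of_mem i ((S.base i).stable y hy)
    exact hle hx
  have h1 := mlt_map' hr hT α
  have h2 := finrank_fitting F (uop ρ τ) (uop_comm S P) (uop_mem S P) α
  have h3 : (⨆ i, T i) ⊓ LinearMap.ker r ⊓ F.maxGenEigenspace α =
      (⨆ i, T i) ⊓ F.maxGenEigenspace α ⊓ (uop ρ τ).maxGenEigenspace 0 := by
    ext x
    constructor
    · rintro ⟨⟨hx1, hx2⟩, hx3⟩
      refine ⟨⟨hx1, hx3⟩, (Module.End.mem_maxGenEigenspace _ _ _).2 ⟨1, ?_⟩⟩
      rw [pow_one, zero_smul, sub_zero, uop_apply]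
      have h4 := (hres x).1 hx2
      exact Finset.sum_eq_zero fun i _ => Finset.sum_eq_zero fun j _ => by rw [h4 j, map_zero]
    · rintro ⟨⟨hx1, hx3⟩, hx2⟩
      refine ⟨⟨hx1, ?_⟩, hx3⟩
      obtain ⟨k, hk⟩ := (Module.End.mem_maxGenEigenspace _ _ _).1 hx2
      rw [zero_smul, sub_zero] at hk
      exact (hres x).2 fun j => res_zero_of_pow S P hα hl ⟨hx1, hx3⟩ k hk j
  unfold mlt at h1 ⊢
  rw [h3] at h1
  omega

end

end Run7.h615.WI
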