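import Pool.Agent.Run7.h615.WI.Conj

/-!
# Comparison of two weight spectral sequences
-/

namespace Run7.h615.WI

universe u v

open Module Pool.Agent.Y143 Pool.Agent.Helper60K9.KL Run7.h615.WL

section one

variable {Ω : Type u} [Field Ω] [CharZero Ω] [IsAlgClosed Ω] {Γ : Type} {n q : ℕ}

lemma mlt_mono {V : Type*} [AddCommGroup V] [Module Ω V] [FiniteDimensional Ω V]
    (F : Module.End Ω V) {W W' : Submodule Ω V} (h : W ≤ W') (α : Ω) : mlt F W α ≤ mlt F W' α :=
  Submodule.finrank_mono (inf_le_inf_right _ h)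

lemma bb_le (X : SpecialFibre.{u, v} Ω Γ n q) (r w : ℤ) (α : Ω) : bb X r w α ≤ e1 X r w α :=
  mlt_mono _ ((X.bd_le_zc r w).trans inf_le_left) α

lemma weil_inv {q : ℕ} (hq : 2 ≤ q) {α : Ω} {w : ℤ} (hα : IsWeilNumber q w α) (s : ℕ) :
    IsWeilNumber q (w - 2 * s) ((q : Ω)⁻¹ ^ s * α) := by
  have := hα.twist (by omega : q ≠ 0) (-s)
  rw [zpow_neg, zpow_natCast, ← inv_pow] at this
  rw [show w - 2 * (s : ℤ) = w + 2 * -s by ring]
  exact this

/-- The hard Lefschetz theorem for the generic fibre. -/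
lemma vv_lef (hq : 2 ≤ q) (X : Degeneration.{u, v} Ω Γ n q) {m m' s : ℕ} (hm : m = n + s)
    (hm' : m' + s = n) {w : ℤ} {α : Ω} (hα : IsWeilNumber q w α) :
    vv X.toSemistableModel m α = vv X.toSemistableModel m' ((q : Ω)⁻¹ ^ s * α) := by
  have h1 := vv_eq X.toSemistableModel hq m hα rfl
  have h2 := vv_eq X.toSemistableModel hq m' (weil_inv hq hα s) rfl
  have h3 := lefschetz_mlt X (m - w) s α
  rw [show (n : ℤ) - s - (m - w) = w - 2 * s by omega,
    show (n : ℤ) + s - (m - w) = w by omega] at h3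
  rw [show (m' : ℤ) - (w - 2 * s) = m - w by omega] at h2
  omega

end one

section two

variable {Γ Γ' : Type} {n q : ℕ} {Ω : Type u} [Field Ω] [CharZero Ω] [IsAlgClosed Ω]
  {Ω' : Type u} [Field Ω'] [CharZero Ω'] [IsAlgClosed Ω']

/-- The known facts for two weight spectral sequences, and the independence in row two. -/
structure SameRows (X : SpecialFibre.{u, v} Ω Γ n q) (X' : SpecialFibre.{u, v} Ω' Γ' n q) :
    Prop where
  e1 : ∀ (r w : ℤ) (α : Ω) (α' : Ω'), minpoly ℚ α = minpoly ℚ α' → e1 X r w α = e1 X' r w α'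
  row0 : ∀ (r : ℤ) (α : Ω) (α' : Ω'), 0 ≤ r → minpoly ℚ α = minpoly ℚ α' →
    zz X r 0 α = zz X' r 0 α'
  row1 : ∀ (r : ℤ) (α : Ω) (α' : Ω'), 0 ≤ r → minpoly ℚ α = minpoly ℚ α' →
    zz X r 1 α = zz X' r 1 α'
  row2 : ∀ (α : Ω) (α' : Ω'), minpoly ℚ α = minpoly ℚ α' → bb X 1 2 α = bb X' 1 2 α'

variable {X : Degeneration.{u, v} Ω Γ n q} {X' : Degeneration.{u, v} Ω' Γ' n q}

/-- The multiplicities on `H^m` in weights at most `m` are equal. -/
def SameLow (X : Degeneration.{u, v} Ω Γ n q) (X' : Degeneration.{u, v} Ω' Γ' n q) (m : ℕ) :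
    Prop :=
  ∀ (w : ℤ) (α : Ω) (α' : Ω'), w ≤ m → IsWeilNumber q w α → minpoly ℚ α = minpoly ℚ α' →
    vv X.toSemistableModel m α = vv X'.toSemistableModel m α'

lemma sameLow_of (hq : 2 ≤ q) (m : ℕ)
    (h : ∀ (w : ℕ) (α : Ω) (α' : Ω'), w ≤ m → IsWeilNumber q w α → minpoly ℚ α = minpoly ℚ α' →
      zz X.toSpecialFibre (m - w) w α + bb X'.toSpecialFibre (m - w) w α' =
      zz X'.toSpecialFibre (m - w) w α' + bb X.toSpecialFibre (m - w) w α) : SameLow X X' m := by
  intro w α α' hw hα hc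
  have h1 := vv_eq X.toSemistableModel hq m hα rfl
  have h2 := vv_eq X'.toSemistableModel hq m (cj_weil hc hα) rfl
  rcases lt_or_ge w 0 with h0 | h0
  · have e1 := e1_eq X.toSpecialFibre (m - w) w α
    have e2 := e1_eq X'.toSpecialFibre (m - w) w α'
    have h3 : w < |(m : ℤ) - w| - (m - w) := by
      rw [abs_of_nonneg (by omega)]
      omega
    rw [e1_zero X.toSpecialFibre _ _ (Or.inl h3)] at e1
    rw [e1_zero X'.toSpecialFibre _ _ (Or.inl h3)] at e2
    omega
  · obtain ⟨k, rfl⟩ := Int.eq_ofNat_of_zero_le h0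
    have h3 := h k α α' (by omega) hα hc
    omega

lemma rows_low (S : SameRows X.toSpecialFibre X'.toSpecialFibre) {w : ℤ} (hw : w = 0 ∨ w = 1)
    {r : ℤ} (hr : 0 ≤ r) {α : Ω} {α' : Ω'} (hc : minpoly ℚ α = minpoly ℚ α') :
    zz X.toSpecialFibre r w α + bb X'.toSpecialFibre r w α' =
      zz X'.toSpecialFibre r w α' + bb X.toSpecialFibre r w α := by
  have hz : ∀ r : ℤ, 0 ≤ r → zz X.toSpecialFibre r w α = zz X'.toSpecialFibre r w α' := by
    intro r hr
    rcases hw with rfl | rfl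
    · exact S.row0 r α α' hr hc
    · exact S.row1 r α α' hr hc
  have hb : bb X.toSpecialFibre r w α = bb X'.toSpecialFibre r w α' := by
    obtain ⟨s, rfl⟩ : ∃ s : ℤ, r = s + 1 := ⟨r - 1, by ring⟩
    rcases lt_or_ge s 0 with h0 | h0
    · have h3 : w < |s| - s := by
        rw [abs_of_neg h0]
        omega
      rw [bb_zero X.toSpecialFibre _ _ (Or.inl h3), bb_zero X'.toSpecialFibre _ _ (Or.inl h3)]
    · have e1 := e1_eq X.toSpecialFibre s w α
      have e2 := e1_eq X'.toSpecialFibre s w α'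
      have e3 := S.e1 s w α α' hc
      have e4 := hz s h0
      omega
  rw [hz r hr, hb]

lemma sameLow_one (hq : 2 ≤ q) (S : SameRows X.toSpecialFibre X'.toSpecialFibre) (m : ℕ)
    (hm : m ≤ 1) : SameLow X X' m := by
  apply sameLow_of hq
  intro w α α' hw hα hc
  exact rows_low S (by omega) (by omega) hc

/-- mw purity and the relation between the monodromy and the Frobenius. -/
structure GoodAt {Ω : Type u} [Field Ω] [CharZero Ω] {Γ : Type} (X : Degeneration.{u, v} Ω Γ n q)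
    (m : ℕ) : Prop where
  mw : IsMWPure q m (X.actV m X.frob) (X.N m)
  frob : ∀ x, X.N m (X.actV m X.frob x) = (q : Ω) • X.actV m X.frob (X.N m x)

omit [IsAlgClosed Ω] in
lemma shift' (hq : 2 ≤ q) [IsAlgClosed Ω] {m : ℕ} (h : GoodAt X m) {α : Ω}
    (hα : IsWeilNumber q (m + 1) α) :
    vv X.toSemistableModel m α = vv X.toSemistableModel m ((q : Ω)⁻¹ * α) := by
  have hqΩ : (q : Ω) ≠ 0 := Nat.cast_ne_zero.2 (by omega)
  have := vv_shift (X := X.toSemistableModel) h.mw h.frob hq (α := (q : Ω)⁻¹ * α)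
    (by rwa [mul_inv_cancel_left₀ hqΩ])
  rwa [mul_inv_cancel_left₀ hqΩ] at this

lemma sameLow_two (hq : 2 ≤ q) (S : SameRows X.toSpecialFibre X'.toSpecialFibre)
    (h1 : GoodAt X 1) (h1' : GoodAt X' 1) : SameLow X X' 2 := by
  apply sameLow_of hq
  intro w α α' hw hα hc
  by_cases hw' : w ≤ 1
  · exact rows_low S (by omega) (by omega) hc
  obtain rfl : w = 2 := by omega
  have hα' := cj_weil hc hα
  have e1 := e1_eq X.toSpecialFibre 0 2 α
  have e2 := e1_eq X'.toSpecialFibre 0 2 α'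
  have e3 := e1_eq X.toSpecialFibre (-1) 2 α
  have e4 := e1_eq X'.toSpecialFibre (-1) 2 α'
  have e5 := S.e1 0 2 α α' hc
  have e6 := S.e1 (-1) 2 α α' hc
  have e7 := S.row2 α α' hc
  have f1 := vv_eq X.toSemistableModel hq 1 hα (r := -1) (by norm_num)
  have f2 := vv_eq X'.toSemistableModel hq 1 hα' (r := -1) (by norm_num)
  have f3 := bb_zero X.toSpecialFibre (-2) 2 (Or.inl (by norm_num)) α
  have f4 := bb_zero X'.toSpecialFibre (-2) 2 (Or.inl (by norm_num)) α'
  have f5 := shift' hq h1 (α := α) (by exact_mod_cast hα)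
  have f6 := shift' hq h1' (α := α') (by exact_mod_cast hα')
  have f7 := sameLow_one hq S 1 le_rfl 0 ((q : Ω)⁻¹ * α) ((q : Ω')⁻¹ * α') (by norm_num)
    (by simpa using weil_inv hq hα 1) (cj_div (by omega) hc)
  norm_num at e1 e2 e3 e4 f1 f2 f3 f4 ⊢
  omega

end two

end Run7.h615.WI
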