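import Pool.Agent.Run7.h615.WI.Pair

/-!
# Comparison of two weight spectral sequences: threefolds, high degrees, and inertia invariants
-/

namespace Run7.h615.WI

universe u v

open Module Pool.Agent.Y143 Pool.Agent.Helper60K9.KL Run7.h615.WL

variable {Γ Γ' : Type} {n q : ℕ} {Ω : Type u} [Field Ω] [CharZero Ω] [IsAlgClosed Ω]
  {Ω' : Type u} [Field Ω'] [CharZero Ω'] [IsAlgClosed Ω']

section any

variable {X : Degeneration.{u, v} Ω Γ n q} {X' : Degeneration.{u, v} Ω' Γ' n q}

/-- High degrees. -/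
lemma sameLow_high (hq : 2 ≤ q) {m m' s : ℕ} (hm : m = n + s) (hm' : m' + s = n)
    (h : SameLow X X' m') : SameLow X X' m := by
  intro w α α' hw hα hc
  rw [vv_lef hq X hm hm' hα, vv_lef hq X' hm hm' (cj_weil hc hα)]
  exact h (w - 2 * s) _ _ (by omega) (weil_inv hq hα s) (cj_div_pow (by omega) hc s)

/-- From the cohomology to the inertia invariants. -/
lemma same_kk (hq : 2 ≤ q) {m : ℕ} (h : SameLow X X' m) (g : GoodAt X m) (g' : GoodAt X' m)
    {α : Ω} {α' : Ω'} (hc : minpoly ℚ α = minpoly ℚ α') :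
    kk X.toSemistableModel m α = kk X'.toSemistableModel m α' := by
  have hqΩ : (q : Ω) ≠ 0 := Nat.cast_ne_zero.2 (by omega)
  have hqΩ' : (q : Ω') ≠ 0 := Nat.cast_ne_zero.2 (by omega)
  by_cases hw : ∃ w : ℤ, IsWeilNumber q w α
  · obtain ⟨w, hα⟩ := hw
    have hα' := cj_weil hc hα
    have e1 := kk_eq (X := X.toSemistableModel) g.mw g.frob hq (α := (q : Ω)⁻¹ * α) (w := w)
      (by rwa [mul_inv_cancel_left₀ hqΩ])
    have e2 := kk_eq (X := X'.toSemistableModel) g'.mw g'.frob hq (α := (q : Ω')⁻¹ * α') (w := w)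
      (by rwa [mul_inv_cancel_left₀ hqΩ'])
    rw [mul_inv_cancel_left₀ hqΩ] at e1
    rw [mul_inv_cancel_left₀ hqΩ'] at e2
    rcases le_or_gt w m with hwm | hwm
    · have e3 := h w α α' hwm hα hc
      have e4 := h (w - 2) _ _ (by omega) (by simpa using weil_inv hq hα 1)
        (cj_div (by omega : q ≠ 0) hc)
      have e5 := e1.1 (by omega)
      have e6 := e2.1 (by omega)
      omega
    · rw [e1.2 hwm, e2.2 hwm]
  · have hw' : ¬ ∃ w : ℤ, IsWeilNumber q w α' := by
      rintro ⟨w, hα⟩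
      exact hw ⟨w, cj_weil hc.symm hα⟩
    have hzero : ∀ {Γ : Type} {Ω : Type u} [Field Ω] [CharZero Ω] [IsAlgClosed Ω]
        (X : Degeneration.{u, v} Ω Γ n q) (α : Ω), (¬ ∃ w : ℤ, IsWeilNumber q w α) →
        kk X.toSemistableModel m α = 0 := by
      intro Γ Ω _ _ _ X α hw
      have := finite_V X.toSemistableModel m
      have h1 : vv X.toSemistableModel m α = 0 := by
        by_contra hne
        exact hw ((hasWeights_W X.toSemistableModel m).weil hne)
      have h2 : kk X.toSemistableModel m α ≤ vv X.toSemistableModel m α :=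
        mlt_mono (X.actV m X.frob) le_top α
      omega
    rw [hzero X α hw, hzero X' α' hw']

end any

section three

variable {X : Degeneration.{u, v} Ω Γ 3 q} {X' : Degeneration.{u, v} Ω' Γ' 3 q}

lemma sameLow_three (hq : 2 ≤ q) (S : SameRows X.toSpecialFibre X'.toSpecialFibre)
    (h1 : GoodAt X 1) (h1' : GoodAt X' 1) (h2 : GoodAt X 2) (h2' : GoodAt X' 2) :
    SameLow X X' 3 := by
  have H2 := sameLow_two hq S h1 h1'
  have H4 : SameLow X X' 4 := sameLow_high hq (m := 4) (m' := 2) (s := 1) rfl rfl H2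
  apply sameLow_of hq
  intro w α α' hw hα hc
  by_cases hw' : w ≤ 1
  · exact rows_low S (by omega) (by omega) hc
  have hα' := cj_weil hc hα
  have hw2 : w = 2 ∨ w = 3 := by omega
  rcases hw2 with rfl | rfl
  · -- weight two
    have e1 := e1_eq X.toSpecialFibre 1 2 α
    have e2 := e1_eq X'.toSpecialFibre 1 2 α'
    have e3 := e1_eq X.toSpecialFibre 2 2 α
    have e4 := e1_eq X'.toSpecialFibre 2 2 α'
    have e5 := S.e1 1 2 α α' hc
    have e6 := S.e1 2 2 α α' hc
    have e7 := S.row2 α α' hc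
    have f1 := vv_eq X.toSemistableModel hq 4 hα (r := 2) (by norm_num)
    have f2 := vv_eq X'.toSemistableModel hq 4 hα' (r := 2) (by norm_num)
    have f3 := H4 2 α α' (by norm_num) (by exact_mod_cast hα) hc
    have g1 := bb_le X.toSpecialFibre 3 2 α
    have g2 := bb_le X'.toSpecialFibre 3 2 α'
    have g3 := e1_zero X.toSpecialFibre 3 2 (Or.inr (by norm_num)) α
    have g4 := e1_zero X'.toSpecialFibre 3 2 (Or.inr (by norm_num)) α'
    norm_num at e1 e2 e3 e4 f1 f2 ⊢
    omega
  · -- weight three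
    have e1 := e1_eq X.toSpecialFibre 0 3 α
    have e2 := e1_eq X'.toSpecialFibre 0 3 α'
    have e3 := e1_eq X.toSpecialFibre 1 3 α
    have e4 := e1_eq X'.toSpecialFibre 1 3 α'
    have e5 := e1_eq X.toSpecialFibre (-1) 3 α
    have e6 := e1_eq X'.toSpecialFibre (-1) 3 α'
    have i1 := S.e1 0 3 α α' hc
    have i2 := S.e1 1 3 α α' hc
    have i3 := S.e1 (-1) 3 α α' hc
    have f1 := vv_eq X.toSemistableModel hq 4 hα (r := 1) (by norm_num)
    have f2 := vv_eq X'.toSemistableModel hq 4 hα' (r := 1) (by norm_num)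
    have f3 := H4 3 α α' (by norm_num) (by exact_mod_cast hα) hc
    have g1 := bb_le X.toSpecialFibre 2 3 α
    have g2 := bb_le X'.toSpecialFibre 2 3 α'
    have g3 := e1_zero X.toSpecialFibre 2 3 (Or.inr (by norm_num)) α
    have g4 := e1_zero X'.toSpecialFibre 2 3 (Or.inr (by norm_num)) α'
    have j1 := vv_eq X.toSemistableModel hq 2 hα (r := -1) (by norm_num)
    have j2 := vv_eq X'.toSemistableModel hq 2 hα' (r := -1) (by norm_num)
    have j3 := bb_zero X.toSpecialFibre (-2) 3 (Or.inl (by norm_num)) α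
    have j4 := bb_zero X'.toSpecialFibre (-2) 3 (Or.inl (by norm_num)) α'
    have k1 := shift' hq h2 (α := α) (by exact_mod_cast hα)
    have k2 := shift' hq h2' (α := α') (by exact_mod_cast hα')
    have k3 := H2 1 ((q : Ω)⁻¹ * α) ((q : Ω')⁻¹ * α') (by norm_num)
      (by simpa using weil_inv hq hα 1) (cj_div (by omega) hc)
    norm_num at e1 e2 e3 e4 e5 e6 f1 f2 j1 j2 j3 j4 ⊢
    omega

end three

end Run7.h615.WI
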