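import Pool.Agent.Run7.h615.WI.Mlt

/-!
# Multiplicities on the terms of the weight spectral sequence
-/

namespace Run7.h615.WI

universe u v

open Module Pool.Agent.Y143

section lin

variable {Ω : Type u} [Field Ω] {V : Type*} [AddCommGroup V] [Module Ω V]
  {V' : Type*} [AddCommGroup V'] [Module Ω V'] [IsAlgClosed Ω] [FiniteDimensional Ω V]
  [FiniteDimensional Ω V']

/-- Isomorphisms of subquotients. -/
lemma mlt_isoOn {F : Module.End Ω V} {F' : Module.End Ω V'} {f : V →ₗ[Ω] V'} {c : Ω}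
    (hc : c ≠ 0) (hf : ∀ x, f (F x) = c • F' (f x)) {Z B : Submodule Ω V}
    {Z' B' : Submodule Ω V'} (hZ : ∀ x ∈ Z, F x ∈ Z) (hB : B ≤ Z)
    (hZ' : ∀ x ∈ Z', F' x ∈ Z') (hFB' : ∀ x ∈ B', F' x ∈ B') (hB' : B' ≤ Z')
    (hfZ : ∀ x ∈ Z, f x ∈ Z') (hfB : ∀ x ∈ B, f x ∈ B') (hinj : ∀ x ∈ Z, f x ∈ B' → x ∈ B)
    (hsurj : ∀ y ∈ Z', ∃ x ∈ Z, y - f x ∈ B') (β : Ω) :
    mlt F Z (c * β) + mlt F' B' β = mlt F B (c * β) + mlt F' Z' β := by
  set F'' : Module.End Ω (V' ⧸ B') := B'.mapQ B' F' hFB' with hF''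
  have h1 : ∀ x, B'.mkQ (F' x) = F'' (B'.mkQ x) := fun x => rfl
  have h2 : ∀ x, (B'.mkQ ∘ₗ f) (F x) = c • F'' ((B'.mkQ ∘ₗ f) x) := by
    intro x
    show B'.mkQ (f (F x)) = c • F'' (B'.mkQ (f x))
    rw [hf, map_smul]
    rfl
  have e1 := mlt_map' h1 hZ' β
  have e2 := mlt_map hc h2 hZ β
  have e3 : Z' ⊓ LinearMap.ker B'.mkQ = B' := by
    rw [Submodule.ker_mkQ]
    exact inf_eq_right.2 hB'
  have e4 : Z ⊓ LinearMap.ker (B'.mkQ ∘ₗ f) = B := by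
    ext x
    constructor
    · rintro ⟨hx, hx'⟩
      refine hinj x hx ?_
      have : B'.mkQ (f x) = 0 := hx'
      rwa [Submodule.mkQ_apply, Submodule.Quotient.mk_eq_zero] at this
    · intro hx
      refine ⟨hB hx, ?_⟩
      show B'.mkQ (f x) = 0
      rw [Submodule.mkQ_apply, Submodule.Quotient.mk_eq_zero]
      exact hfB x hx
  have e5 : Z.map (B'.mkQ ∘ₗ f) = Z'.map B'.mkQ := by
    apply le_antisymm
    · rintro _ ⟨x, hx, rfl⟩
      exact ⟨f x, hfZ x hx, rfl⟩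
    · rintro _ ⟨y, hy, rfl⟩
      obtain ⟨x, hx, hxy⟩ := hsurj y hy
      refine ⟨x, hx, ?_⟩
      show B'.mkQ (f x) = B'.mkQ y
      rw [← sub_eq_zero, ← map_sub, Submodule.mkQ_apply, Submodule.Quotient.mk_eq_zero]
      rw [← neg_sub]
      exact B'.neg_mem hxy
  rw [e4, e5] at e2
  rw [e3] at e1
  omega

/-- Correspondences between filtrations. -/
lemma mlt_graph {F : Module.End Ω V} {F' : Module.End Ω V'} {S : Submodule Ω (V × V')}
    {W W₁ : Submodule Ω V} {Z B : Submodule Ω V'} (hS : ∀ v x, (v, x) ∈ S → (F v, F' x) ∈ S)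
    (hmem : ∀ v x, (v, x) ∈ S → v ∈ W ∧ x ∈ Z) (hl : ∀ v ∈ W, ∃ x, (v, x) ∈ S)
    (hr : ∀ x ∈ Z, ∃ v, (v, x) ∈ S) (hk : ∀ v x, (v, x) ∈ S → (v ∈ W₁ ↔ x ∈ B))
    (hW : W₁ ≤ W) (hB : B ≤ Z) (hFB : ∀ x ∈ B, F' x ∈ B) (β : Ω) :
    mlt F W β + mlt F' B β = mlt F W₁ β + mlt F' Z β := by
  set G : Module.End Ω (V × V') := F.prodMap F' with hG
  have h1 : ∀ x, LinearMap.fst Ω V V' (G x) = F (LinearMap.fst Ω V V' x) := fun x => rfl
  have h2 : ∀ x, LinearMap.snd Ω V V' (G x) = F' (LinearMap.snd Ω V V' x) := fun x => rfl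
  have hS' : ∀ x ∈ S, G x ∈ S := fun x hx => hS x.1 x.2 hx
  set S₁ : Submodule Ω (V × V') := S ⊓ B.comap (LinearMap.snd Ω V V') with hS₁
  have hS₁' : ∀ x ∈ S₁, G x ∈ S₁ := fun x hx => ⟨hS' x hx.1, hFB _ hx.2⟩
  have e1 := mlt_map' h1 hS' β
  have e2 := mlt_map' h2 hS' β
  have e3 := mlt_map' h1 hS₁' β
  have e4 := mlt_map' h2 hS₁' β
  have f1 : S.map (LinearMap.fst Ω V V') = W := by
    apply le_antisymm
    · rintro _ ⟨x, hx, rfl⟩
      exact (hmem x.1 x.2 hx).1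
    · intro v hv
      obtain ⟨x, hx⟩ := hl v hv
      exact ⟨(v, x), hx, rfl⟩
  have f2 : S.map (LinearMap.snd Ω V V') = Z := by
    apply le_antisymm
    · rintro _ ⟨x, hx, rfl⟩
      exact (hmem x.1 x.2 hx).2
    · intro x hx
      obtain ⟨v, hv⟩ := hr x hx
      exact ⟨(v, x), hv, rfl⟩
  have f3 : S₁.map (LinearMap.fst Ω V V') = W₁ := by
    apply le_antisymm
    · rintro _ ⟨x, hx, rfl⟩
      exact (hk x.1 x.2 hx.1).2 hx.2
    · intro v hv
      obtain ⟨x, hx⟩ := hl v (hW hv)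
      exact ⟨(v, x), ⟨hx, (hk v x hx).1 hv⟩, rfl⟩
  have f4 : S₁.map (LinearMap.snd Ω V V') = B := by
    apply le_antisymm
    · rintro _ ⟨x, hx, rfl⟩
      exact hx.2
    · intro x hx
      obtain ⟨v, hv⟩ := hr x (hB hx)
      exact ⟨(v, x), ⟨hv, hx⟩, rfl⟩
  have f5 : S₁ ⊓ LinearMap.ker (LinearMap.fst Ω V V') = S ⊓ LinearMap.ker (LinearMap.fst Ω V V') := by
    ext x
    constructor
    · rintro ⟨⟨h3, -⟩, h4⟩
      exact ⟨h3, h4⟩
    · rintro ⟨h3, h4⟩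
      refine ⟨⟨h3, ?_⟩, h4⟩
      have h5 : x.1 = 0 := h4
      refine (hk x.1 x.2 h3).1 ?_
      rw [h5]
      exact Submodule.zero_mem _
  have f6 : S₁ ⊓ LinearMap.ker (LinearMap.snd Ω V V') = S ⊓ LinearMap.ker (LinearMap.snd Ω V V') := by
    ext x
    constructor
    · rintro ⟨⟨h3, -⟩, h4⟩
      exact ⟨h3, h4⟩
    · rintro ⟨h3, h4⟩
      refine ⟨⟨h3, ?_⟩, h4⟩
      have h5 : x.2 = 0 := h4
      show x.2 ∈ B
      rw [h5]
      exact Submodule.zero_mem _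
  rw [f1] at e1
  rw [f2] at e2
  rw [f3, f5] at e3
  rw [f4, f6] at e4
  omega

end lin

section fibre

variable {Ω : Type u} [Field Ω] [CharZero Ω] [IsAlgClosed Ω] {Γ : Type} {n q : ℕ}
variable (X : SpecialFibre.{u, v} Ω Γ n q)

/-- The multiplicity on `E_1^(r, w)`. -/
noncomputable abbrev e1 (r w : ℤ) (α : Ω) : ℕ := mlt (X.actC r X.frob) (X.E₁ r w) α

/-- The multiplicity on the cocycles. -/
noncomputable abbrev zz (r w : ℤ) (α : Ω) : ℕ := mlt (X.actC r X.frob) (X.cocycles r w) α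

/-- The multiplicity on the coboundaries. -/
noncomputable abbrev bb (r w : ℤ) (α : Ω) : ℕ := mlt (X.actC r X.frob) (X.coboundaries r w) α

omit [IsAlgClosed Ω] in
lemma coboundaries_succ (r w : ℤ) : X.coboundaries (r + 1) w = (X.E₁ r w).map (X.diff r) := by
  unfold StrataData.coboundaries
  rw [show r + 1 - 1 = r by ring]

lemma e1_eq (r w : ℤ) (α : Ω) : e1 X r w α = zz X r w α + bb X (r + 1) w α := by
  have h := mlt_map' (f := X.diff r) (F := X.actC r X.frob) (F' := X.actC (r + 1) X.frob)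
    (fun x => (X.diff_actC r X.frob x).symm) (W := X.E₁ r w) (fun x hx => X.actC_mem _ hx) α
  rw [← coboundaries_succ] at h
  exact h

omit [IsAlgClosed Ω] in
lemma E₁_eq_bot (r w : ℤ) (h : w < |r| - r ∨ 2 * n < w + r + |r|) : X.E₁ r w = ⊥ := by
  rw [eq_bot_iff]
  intro x hx
  have : x = 0 := by
    funext a
    by_cases hc : InColumn r a
    · have h1 := (hx a).1
      obtain ⟨h2, -⟩ := hc
      rw [X.gr_eq_bot a (w + r - a) (by omega)] at h1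
      exact h1
    · exact (hx a).2 hc
  exact this

omit [IsAlgClosed Ω] in
lemma e1_zero (r w : ℤ) (h : w < |r| - r ∨ 2 * n < w + r + |r|) (α : Ω) : e1 X r w α = 0 := by
  rw [e1, E₁_eq_bot X r w h, mlt_bot]

lemma bb_zero (r w : ℤ) (h : w < |r| - r ∨ 2 * n < w + r + |r|) (α : Ω) :
    bb X (r + 1) w α = 0 := by
  have h1 := e1_eq X r w α
  rw [e1_zero X r w h] at h1
  omega

end fibre

end Run7.h615.WI
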