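import Pool.Agent.Run7.h615.WI.Fam
import Pool.Agent.Run7.h615.WI.Pair2
import Pool.Agent.Run7.h615.WI.KDefs
import Pool.Agent.Run7.h615.WS.Low

/-!
# The image of the differential in row two
-/

set_option linter.unusedSectionVars false

namespace Run7.h615.WI

universe u v

open Module Pool.Agent.Y143 Pool.Agent.Helper60K9.KL Run7.h615.WM Run7.h615.WS Run7.h615.WL

section lin

variable {Ω : Type u} [Field Ω] [IsAlgClosed Ω] {V : Type*} [AddCommGroup V] [Module Ω V]
  [FiniteDimensional Ω V]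

/-- Multiplicities are additive for direct sums. -/
lemma mlt_sup {F : Module.End Ω V} {W W' : Submodule Ω V} (hW : ∀ x ∈ W, F x ∈ W)
    (hW' : ∀ x ∈ W', F x ∈ W') (h : W ⊓ W' = ⊥) (α : Ω) :
    mlt F (W ⊔ W') α = mlt F W α + mlt F W' α := by
  have h1 : (W ⊔ W') ⊓ F.maxGenEigenspace α =
      (W ⊓ F.maxGenEigenspace α) ⊔ (W' ⊓ F.maxGenEigenspace α) := by
    apply le_antisymm
    · rintro x ⟨hx, hx'⟩
      obtain ⟨y, hy, z, hz, rfl⟩ := Submodule.mem_sup.1 hx
      obtain ⟨y1, hy1, y2, hy2, rfl⟩ := exists_split F hW α hy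
      obtain ⟨z1, hz1, z2, hz2, rfl⟩ := exists_split F hW' α hz
      have hle : ∀ U : Submodule Ω V, (⨆ β : {β : Ω // β ≠ α}, U ⊓ F.maxGenEigenspace β) ≤
          ⨆ β : {β : Ω // β ≠ α}, F.maxGenEigenspace β := fun U =>
        iSup_mono fun _ => inf_le_right
      have h2 : y2 + z2 = 0 := by
        apply eq_zero_of_mem F α
        · have := Submodule.sub_mem _ (Submodule.sub_mem _ hx' hy1.2) hz1.2
          rwa [show y1 + y2 + (z1 + z2) - y1 - z1 = y2 + z2 by abel] at this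
        · apply Submodule.add_mem
          · exact hle W hy2
          · exact hle W' hz2
      have h3 : y1 + y2 + (z1 + z2) = y1 + z1 := by
        rw [show y1 + y2 + (z1 + z2) = y1 + z1 + (y2 + z2) by abel, h2, add_zero]
      rw [h3]
      exact Submodule.add_mem_sup hy1 hz1
    · exact sup_le (inf_le_inf_right _ le_sup_left) (inf_le_inf_right _ le_sup_right)
  unfold mlt
  rw [h1, ← Submodule.finrank_sup_add_finrank_inf_eq]
  have h4 : (W ⊓ F.maxGenEigenspace α) ⊓ (W' ⊓ F.maxGenEigenspace α) = ⊥ := by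
    rw [eq_bot_iff, ← h]
    exact inf_le_inf inf_le_left inf_le_left
  rw [h4, finrank_bot, add_zero]

end lin

section bases

variable {Ω : Type u} [Field Ω] [CharZero Ω] {Γ : Type} {n q : ℕ} {X : SpecialFibre.{u, v} Ω Γ n q}
  {a w : ℕ} {S : Submodule Ω (X.H a)} {S' : Submodule Ω (X.H (a + 1))} {I J : Type} [Fintype I]
  [Fintype J] {R : Bases Ω (X.H a) (X.H (a + 1)) I J}
  (h1 : IsSplitting (X.gr a) (X.pair a) (X.act a X.frob) R.comp)
  (h2 : IsSplitting (X.gr (a + 1)) (X.pair (a + 1)) (X.act (a + 1) X.frob) R.dbl)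
  (h3 : R.IsValid q w (X.act a X.frob) (X.res a) (formL X (a + 1) (n - a - 1 - w)) (X.gr a w) S S')

include h1

lemma comp_self (h3 : R.IsValid q w (X.act a X.frob) (X.res a)
    (formL X (a + 1) (n - a - 1 - w)) (X.gr a w) S S') (i : I) {x : X.H a} (hx : x ∈ R.T i) :
    R.comp i x = x := by
  obtain ⟨y, rfl⟩ := (h3.le i hx).2
  exact h1.idem i y

lemma isProj (h3 : R.IsValid q w (X.act a X.frob) (X.res a)
    (formL X (a + 1) (n - a - 1 - w)) (X.gr a w) S S') :
    IsProj (X.act a X.frob) R.T (R.resTo (X.res a)) R.comp where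
  sum := h1.sum
  frob := h1.frob
  mem := fun i x hx => comp_self h1 h3 i hx
  ne := fun i i' hne x hx => by
    rw [← comp_self h1 h3 i' hx, h1.orth i i' x hne]
  res := fun i i' j x hne => by
    show R.dbl j (X.res a (R.comp i (R.comp i' x))) = 0
    rw [h1.orth i i' x hne, map_zero, map_zero]
  res' := fun i j x => by
    show R.dbl j (X.res a (R.comp i (R.comp i x))) = R.dbl j (X.res a (R.comp i x))
    rw [h1.idem]

lemma dbl_res (j : J) (x : X.H a) :
    R.dbl j (X.res a x) = ∑ i, R.resTo (X.res a) i j x := by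
  conv_lhs => rw [← h1.sum x, map_sum, map_sum]
  rfl

include h2 in
lemma res_sum (x : X.H a) : X.res a x = ∑ j, ∑ i, R.resTo (X.res a) i j x := by
  rw [← h2.sum (X.res a x)]
  exact Finset.sum_congr rfl fun j _ => dbl_res h1 j x

include h2 in
lemma res_iff (x : X.H a) : X.res a x = 0 ↔ ∀ j, ∑ i, R.resTo (X.res a) i j x = 0 := by
  constructor
  · intro h j
    rw [← dbl_res h1, h, map_zero]
  · intro h
    rw [res_sum h1 h2]
    exact Finset.sum_eq_zero fun j _ => h j

include h2 h3 in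
/-- The form is nondegenerate on the restriction of the sum of the `T i`. -/
lemma nondeg_T [IsAlgClosed Ω] (hw : a + 1 + w ≤ n)
    (h4 : R.HasSimpleLinks (X.act a X.frob) (X.act (a + 1) X.frob)
      (formL X (a + 1) (n - a - 1 - w)) (X.gr (a + 1) w) S') {t : X.H a} (ht : t ∈ ⨆ i, R.T i)
    (h0 : ∀ t' ∈ ⨆ i, R.T i, formL X (a + 1) (n - a - 1 - w) (X.res a t) (X.res a t') = 0) :
    X.res a t = 0 := by
  have hs := isSystem hw h1 h2 h3
  have hfin : Module.Finite Ω (X.H a) := X.finite a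
  set Q := formL X (a + 1) (n - a - 1 - w) with hQ
  set N : Submodule Ω (X.H a) := perpIn (Q.compl₁₂ (X.res a) (X.res a)) (⨆ i, R.T i)
    (⨆ i, R.T i) with hN
  have hTF : ∀ x ∈ ⨆ i, R.T i, X.act a X.frob x ∈ ⨆ i, R.T i := by
    intro x hx
    have hle : (⨆ i, R.T i) ≤ (⨆ i, R.T i).comap (X.act a X.frob) :=
      iSup_le fun i y hy => Submodule.mem_iSup_of_mem i ((h3.base i).stable y hy)
    exact hle hx
  have hTF' : ∀ y ∈ ⨆ i, R.T i, ∃ x ∈ ⨆ i, R.T i, X.act a X.frob x = y := by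
    intro y hy
    have hle : (⨆ i, R.T i) ≤ (⨆ i, R.T i).map (X.act a X.frob) :=
      iSup_le fun i y hy => by
        obtain ⟨x, hx, hxy⟩ := hs.frob_surj i hy
        exact ⟨x, Submodule.mem_iSup_of_mem i hx, hxy⟩
    obtain ⟨x, hx, hxy⟩ := hle hy
    exact ⟨x, hx, hxy⟩
  have hNF : ∀ x ∈ N, X.act a X.frob x ∈ N := by
    rintro x ⟨hx1, hx2⟩
    refine ⟨hTF x hx1, fun y hy => ?_⟩
    obtain ⟨z, hz, rfl⟩ := hTF' y hy
    show Q (X.res a (X.act a X.frob x)) (X.res a (X.act a X.frob z)) = 0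
    rw [← X.res_act, ← X.res_act, hs.frob']
    have : Q (X.res a x) (X.res a z) = 0 := hx2 z hz
    rw [this, mul_zero]
  have hle : N ≤ LinearMap.ker (X.res a) := by
    rw [Submodule.eq_iSup_inf_genEigenspace (p := N) (f := X.act a X.frob) ⊤ hNF
      (Module.End.iSup_maxGenEigenspace_eq_top _)]
    apply iSup_le
    rintro α t ⟨⟨ht1, ht2⟩, ht3⟩
    show X.res a t = 0
    by_cases ht0 : t = 0
    · rw [ht0, map_zero]
    have hα : α ≠ 0 := eigenvalue_ne_zero X a ht3 ht0
    have hy : ∀ i, R.comp i t ∈ R.T i ⊓ (X.act a X.frob).maxGenEigenspace α := fun i =>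
      ⟨comp_T h1 h3 i ht1, map_gen (R.comp i) (h1.frob i) ht3⟩
    have hcore := hs.nondeg_of_simple (α := α) (β := (q : Ω) ^ w / α) (mul_div_cancel₀ _ hα)
      (isLine hw h1 h2 h3 h4 α) (fun i => R.comp i t) hy (fun i' y' hy' => by
        have e0 : Q (X.res a t) (X.res a y') = 0 :=
          ht2 y' (Submodule.mem_iSup_of_mem i' hy')
        rw [← e0]
        -- orthogonality of the different `D_j`
        have e1 : X.res a y' = ∑ j, R.resTo (X.res a) i' j y' := by
          rw [res_sum h1 h2 y']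
          refine Finset.sum_congr rfl fun j _ => ?_
          rw [Finset.sum_eq_single_of_mem i' (Finset.mem_univ i')]
          intro k _ hk
          show R.dbl j (X.res a (R.comp k y')) = 0
          rw [← comp_self h1 h3 i' hy', h1.orth k i' y' hk, map_zero, map_zero]
        have e2 : ∀ j, R.dbl j (X.res a t) = ∑ i, R.resTo (X.res a) i j (R.comp i t) := by
          intro j
          rw [dbl_res h1]
          refine Finset.sum_congr rfl fun i _ => ?_
          show _ = R.dbl j (X.res a (R.comp i (R.comp i t)))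
          rw [h1.idem]
          rfl
        rw [e1, map_sum]
        refine Finset.sum_congr rfl fun j _ => ?_
        rw [← e2 j]
        have hpair : ∀ x y : X.H (a + 1), Q (R.dbl j x) y = Q x (R.dbl j y) := h3.dbl j
        rw [hpair]
        congr 1
        show R.dbl j (R.dbl j _) = R.dbl j _
        rw [h2.idem])
    rw [res_sum h1 h2 t]
    refine Finset.sum_eq_zero fun j _ => ?_
    rw [← hcore j]
    refine Finset.sum_congr rfl fun i _ => ?_
    show _ = R.dbl j (X.res a (R.comp i (R.comp i t)))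
    rw [h1.idem]
    rfl
  exact hle ⟨ht, h0⟩

include h2 h3 in
/-- The restriction of the sum of the `T i` is orthogonal to `S'`. -/
lemma orth_T {t : X.H a} (ht : t ∈ ⨆ i, R.T i) {s : X.H (a + 1)} (hs : s ∈ S') :
    formL X (a + 1) (n - a - 1 - w) (X.res a t) s = 0 := by
  rw [res_sum h1 h2, map_sum, LinearMap.sum_apply]
  refine Finset.sum_eq_zero fun j _ => ?_
  rw [map_sum, LinearMap.sum_apply]
  refine Finset.sum_eq_zero fun i _ => ?_
  have h5 := h3.orth i j _ (comp_T h1 h3 i ht) s hs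
  have h6 : R.resTo (X.res a) i j (R.comp i t) = R.resTo (X.res a) i j t := by
    show R.dbl j (X.res a (R.comp i (R.comp i t))) = R.dbl j (X.res a (R.comp i t))
    rw [h1.idem]
  rw [h6] at h5
  exact h5

end bases

/-- The classes in `E_1^(0, 2) = H^2(Y^(1)) + H^0(Y^(3))(-1)` whose component in `H^2(Y^(1))` is in the
span of the classes of divisors. -/
abbrev divPart {Ω : Type u} [Field Ω] [CharZero Ω] {Γ : Type} {n q : ℕ}
    {X : SpecialFibre.{u, v} Ω Γ n q} (A : DivisorClasses X) : Submodule Ω X.C :=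
  withSpan (X.E₁ 0 2) (A.A1 0)

section row

variable {Ω : Type u} [Field Ω] [CharZero Ω] {Γ : Type} {n q : ℕ} {X : SpecialFibre.{u, v} Ω Γ n q}

lemma diff_single (y : X.H 0) :
    X.diff 0 (Pi.single 0 y : X.C) = (Pi.single (0 + 1) (X.res 0 y) : X.C) := by
  rw [X.diff_apply]
  funext b
  rcases b with _ | b
  · rw [X.cut_of_not (by
      rintro ⟨h, -⟩
      norm_num at h)]
    rfl
  rcases b with _ | b
  · rw [X.cut_of ⟨by norm_num, by norm_num⟩]
    rw [Pi.add_apply, X.resC_succ, X.gysC_apply]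
    rw [show (Pi.single 0 y : X.C) 0 = y from Pi.single_eq_same _ _,
      show (Pi.single 0 y : X.C) (0 + 1 + 1) = 0 from Pi.single_eq_of_ne (by norm_num) _,
      map_zero, add_zero]
    exact (Pi.single_eq_same _ _).symm
  · have e1 : (X.resC (Pi.single 0 y : X.C) + X.gysC (Pi.single 0 y : X.C)) (b + 1 + 1) = 0 := by
      rw [Pi.add_apply, X.resC_succ, X.gysC_apply,
        show (Pi.single 0 y : X.C) (b + 1) = 0 from Pi.single_eq_of_ne (by omega) _,
        show (Pi.single 0 y : X.C) (b + 1 + 1 + 1) = 0 from Pi.single_eq_of_ne (by omega) _,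
        map_zero, map_zero, add_zero]
    have e2 : (Pi.single (0 + 1) (X.res 0 y) : X.C) (b + 1 + 1) = 0 :=
      Pi.single_eq_of_ne (by omega) _
    rw [e2]
    by_cases hc : InColumn (0 + 1) (b + 1 + 1)
    · rw [X.cut_of hc, e1]
    · rw [X.cut_of_not hc]

lemma diff_at_one (A : DivisorClasses X) {x : X.C} (hx : x ∈ divPart A) :
    X.diff 0 x (0 + 1) ∈ Submodule.span Ω (A.A1 (0 + 1) : Set (X.H (0 + 1))) := by
  rw [X.diff_apply, X.cut_of ⟨by norm_num, by norm_num⟩, Pi.add_apply, X.resC_succ, X.gysC_apply]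
  have hx0 : x 0 ∈ Submodule.span Ω (A.A1 0 : Set (X.H 0)) := hx.2
  apply Submodule.add_mem
  · have hle : Submodule.span Ω (A.A1 0 : Set (X.H 0)) ≤
        (Submodule.span Ω (A.A1 (0 + 1) : Set (X.H (0 + 1)))).comap (X.res 0) :=
      Submodule.span_le.2 fun x hx => Submodule.subset_span ((A.preserves 0).res_A1 x hx)
    exact hle hx0
  · have h2 : x (0 + 1 + 1) ∈ X.gr (0 + 1 + 1) 0 := by
      have := (hx.1 (0 + 1 + 1)).1
      norm_num at this ⊢
      exact this
    have hle : Submodule.span Ω (A.A0 (0 + 1 + 1) : Set (X.H (0 + 1 + 1))) ≤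
        (Submodule.span Ω (A.A1 (0 + 1) : Set (X.H (0 + 1)))).comap (X.gys (0 + 1)) :=
      Submodule.span_le.2 fun x hx => Submodule.subset_span ((A.preserves (0 + 1)).gys_A0 x hx)
    exact hle ((A.components (0 + 1 + 1)).span h2)

lemma divPart_stable (A : DivisorClasses X) (hA : ∀ x : X.H 0, x ∈ A.A1 0 → X.act 0 X.frob x ∈ A.A1 0)
    {x : X.C} (hx : x ∈ divPart A) : X.actC 0 X.frob x ∈ divPart A := by
  refine ⟨X.actC_mem _ hx.1, ?_⟩
  have hx0 : x 0 ∈ Submodule.span Ω (A.A1 0 : Set (X.H 0)) := hx.2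
  show X.actC 0 X.frob x 0 ∈ Submodule.span Ω (A.A1 0 : Set (X.H 0))
  rw [X.actC_apply]
  apply Submodule.smul_mem
  have hle : Submodule.span Ω (A.A1 0 : Set (X.H 0)) ≤
      (Submodule.span Ω (A.A1 0 : Set (X.H 0))).comap (X.act 0 X.frob) :=
    Submodule.span_le.2 fun x hx => Submodule.subset_span (hA x hx)
  exact hle hx0

variable [IsAlgClosed Ω] {S : Submodule Ω (X.H 0)} {I J : Type} [Fintype I]
  [Fintype J] {R : Bases Ω (X.H 0) (X.H (0 + 1)) I J}

/-- The image of the differential in row two. -/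
lemma bb_two (hn : 3 ≤ n) (A : DivisorClasses X)
    (hA : ∀ x : X.H 0, x ∈ A.A1 0 → X.act 0 X.frob x ∈ A.A1 0)
    (h1 : IsSplitting (X.gr 0) (X.pair 0) (X.act 0 X.frob) R.comp)
    (h2 : IsSplitting (X.gr (0 + 1)) (X.pair (0 + 1)) (X.act (0 + 1) X.frob) R.dbl)
    (h3 : R.IsValid q 2 (X.act 0 X.frob) (X.res 0) (formL X (0 + 1) (n - 0 - 1 - 2))
      (X.gr 0 (2 : ℕ)) (Submodule.span Ω (A.A1 0 : Set (X.H 0)))
      (Submodule.span Ω (A.A1 (0 + 1) : Set (X.H (0 + 1)))))
    (h4 : R.HasSimpleLinks (X.act 0 X.frob) (X.act (0 + 1) X.frob)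
      (formL X (0 + 1) (n - 0 - 1 - 2)) (X.gr (0 + 1) (2 : ℕ))
      (Submodule.span Ω (A.A1 (0 + 1) : Set (X.H (0 + 1))))) (α : Ω) :
    bb X 1 2 α = mlt (X.actC 1 X.frob) ((divPart A).map (X.diff 0)) α +
      mlt (X.act (0 + 1) X.frob) ((⨆ i, R.T i).map (X.res 0)) α := by
  have hfin : Module.Finite Ω (X.H 0) := X.finite 0
  have hfin1 : Module.Finite Ω (X.H (0 + 1)) := X.finite (0 + 1)
  have hT : (⨆ i, R.T i) ≤ X.gr 0 (2 : ℕ) := iSup_le fun i => (h3.le i).trans inf_le_left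
  have hTF : ∀ x ∈ ⨆ i, R.T i, X.act 0 X.frob x ∈ ⨆ i, R.T i := by
    intro x hx
    have hle : (⨆ i, R.T i) ≤ (⨆ i, R.T i).comap (X.act 0 X.frob) :=
      iSup_le fun i y hy => Submodule.mem_iSup_of_mem i ((h3.base i).stable y hy)
    exact hle hx
  set sg : X.H (0 + 1) →ₗ[Ω] X.C := LinearMap.single Ω (fun a => X.H a) (0 + 1) with hsg
  have hsga : ∀ y, sg y = (Pi.single (0 + 1) y : X.C) := fun y => rfl
  -- the decomposition of the coboundaries
  have hdec : X.coboundaries 1 2 =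
      (divPart A).map (X.diff 0) ⊔ ((⨆ i, R.T i).map (X.res 0)).map sg := by
    have e0 : X.coboundaries 1 2 = (X.E₁ 0 2).map (X.diff 0) := coboundaries_succ X 0 2
    rw [e0]
    apply le_antisymm
    · rintro _ ⟨x, hx, rfl⟩
      have hx0 : x 0 ∈ X.gr 0 (2 : ℕ) := by
        have := (hx 0).1
        norm_num at this ⊢
        exact this
      obtain ⟨u, hu, t, ht, hut⟩ := Submodule.mem_sup.1 (h3.span hx0)
      obtain ⟨s, hs, k, hk, rfl⟩ := Submodule.mem_sup.1 hu
      have hs' : s ∈ X.gr 0 (2 : ℕ) := by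
        have hle : Submodule.span Ω (A.A1 0 : Set (X.H 0)) ≤ X.gr 0 (2 : ℕ) :=
          Submodule.span_le.2 fun x hx => A.A1_le 0 x hx
        exact hle hs
      have hxk : x = (x - (Pi.single 0 (x 0) : X.C) + (Pi.single 0 s : X.C)) +
          (Pi.single 0 k : X.C) + (Pi.single 0 t : X.C) := by
        rw [← hut, Pi.single_add, Pi.single_add]
        abel
      have hsm : ∀ y ∈ X.gr 0 (2 : ℕ), (Pi.single 0 y : X.C) ∈ X.E₁ 0 2 := fun y hy => by
        apply X.single_mem (show InColumn 0 0 from ⟨by norm_num, by norm_num⟩)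
        norm_num at hy ⊢
        exact hy
      have hdiv : x - (Pi.single 0 (x 0) : X.C) + (Pi.single 0 s : X.C) ∈ divPart A := by
        refine ⟨Submodule.add_mem _ (Submodule.sub_mem _ hx (hsm _ hx0)) (hsm _ hs'), ?_⟩
        show (x - (Pi.single 0 (x 0) : X.C) + (Pi.single 0 s : X.C)) 0 ∈
          Submodule.span Ω (A.A1 0 : Set (X.H 0))
        rw [Pi.add_apply, Pi.sub_apply, Pi.single_eq_same, Pi.single_eq_same, sub_self, zero_add]
        exact hs
      have hk0 : X.diff 0 (Pi.single 0 k : X.C) = 0 := by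
        rw [diff_single, show X.res 0 k = 0 from hk, Pi.single_zero]
      rw [hxk, map_add, map_add, hk0, add_zero, diff_single]
      exact Submodule.add_mem_sup ⟨_, hdiv, rfl⟩ ⟨_, ⟨t, ht, rfl⟩, rfl⟩
    · apply sup_le
      · exact Submodule.map_mono inf_le_left
      · rintro _ ⟨_, ⟨t, ht, rfl⟩, rfl⟩
        refine ⟨(Pi.single 0 t : X.C), ?_, diff_single t⟩
        apply X.single_mem (show InColumn 0 0 from ⟨by norm_num, by norm_num⟩)
        have := hT ht
        norm_num at this ⊢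
        exact this
  have hact : ∀ y, sg (X.act (0 + 1) X.frob y) = X.actC 1 X.frob (sg y) := by
    intro y
    funext b
    rw [X.actC_apply, hsga, hsga]
    by_cases hb : b = 0 + 1
    · subst hb
      rw [Pi.single_eq_same, Pi.single_eq_same]
      norm_num
    · rw [Pi.single_eq_of_ne hb, Pi.single_eq_of_ne hb, map_zero, smul_zero]
  have hTS : ∀ x ∈ (⨆ i, R.T i).map (X.res 0), X.act (0 + 1) X.frob x ∈
      (⨆ i, R.T i).map (X.res 0) := by
    rintro _ ⟨t, ht, rfl⟩
    exact ⟨X.act 0 X.frob t, hTF t ht, (X.res_act 0 X.frob t).symm⟩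
  have hint : (divPart A).map (X.diff 0) ⊓ ((⨆ i, R.T i).map (X.res 0)).map sg = ⊥ := by
    rw [eq_bot_iff]
    rintro _ ⟨⟨x, hx, rfl⟩, _, ⟨t, ht, rfl⟩, hy⟩
    have h5 := diff_at_one A hx
    rw [← hy, hsga, Pi.single_eq_same] at h5
    have h6 : X.res 0 t = 0 := by
      apply nondeg_T h1 h2 h3 hn h4 ht
      intro t' ht'
      have e1 : formL X (0 + 1) (n - 0 - 1 - 2) (X.res 0 t) (X.res 0 t') =
          (-1) ^ 2 * formL X (0 + 1) (n - 0 - 1 - 2) (X.res 0 t') (X.res 0 t) :=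
        formL_symm X (0 + 1) _ (X.res_gr 0 _ _ (hT ht'))
      rw [e1, orth_T h1 h2 h3 ht' h5, mul_zero]
    rw [h6, map_zero] at hy
    rw [← hy]
    exact Submodule.zero_mem _
  have hDS : ∀ x ∈ (divPart A).map (X.diff 0), X.actC 1 X.frob x ∈
      (divPart A).map (X.diff 0) := by
    rintro _ ⟨x, hx, rfl⟩
    exact ⟨X.actC 0 X.frob x, divPart_stable A hA hx, (X.diff_actC 0 X.frob x).symm⟩
  have hTS' : ∀ x ∈ ((⨆ i, R.T i).map (X.res 0)).map sg, X.actC 1 X.frob x ∈
      ((⨆ i, R.T i).map (X.res 0)).map sg := by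
    rintro _ ⟨x, hx, rfl⟩
    exact ⟨X.act (0 + 1) X.frob x, hTS x hx, hact x⟩
  have e1 := mlt_sup hDS hTS' hint α
  rw [← hdec] at e1
  have e2 := mlt_map' hact hTS α
  have e3 : (⨆ i, R.T i).map (X.res 0) ⊓ LinearMap.ker sg = ⊥ := by
    rw [eq_bot_iff]
    rintro y ⟨-, hy⟩
    have : (Pi.single (0 + 1) y : X.C) = 0 := hy
    have := congrFun this (0 + 1)
    rwa [Pi.single_eq_same] at this
  rw [e3, mlt_bot] at e2
  show mlt (X.actC 1 X.frob) (X.coboundaries 1 2) α = _
  omega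

end row

end Run7.h615.WI
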