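import Pool.Agent.Run7.h615.WS.Nondeg

/-!
# Semisimplicity of the operator given by the walks of length one
-/

set_option linter.unusedSectionVars false

namespace Run7.h615.WS

universe u v

open Module Pool.Agent.Y143
open scoped ComplexConjugate

section herm

variable {I : Type} [Fintype I] {Ω : Type*} [Field Ω] [CharZero Ω]

lemma herm_kernel (b : I → I → ℂ) (hH : ∀ i i', b i' i = conj (b i i')) (m : I → ℕ) (t s : I → ℂ)
    (h1 : ∀ i', s i' * m i' = ∑ i, t i * b i i') (h2 : ∀ i', ∑ i, s i * b i i' = 0) (i : I)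
    (hi : m i ≠ 0) : s i = 0 := by
  have h3 : ∑ i', conj (s i') * (s i' * m i') = 0 := by
    have h4 : ∀ i', conj (s i') * (s i' * m i') = ∑ i, t i * conj (s i' * b i' i) := by
      intro i'
      rw [h1 i', Finset.mul_sum]
      refine Finset.sum_congr rfl fun i _ => ?_
      rw [map_mul, ← hH i' i]
      ring
    rw [Finset.sum_congr rfl fun i' _ => h4 i', Finset.sum_comm]
    apply Finset.sum_eq_zero
    intro i _
    rw [← Finset.mul_sum, ← map_sum, h2 i, map_zero, mul_zero]
  have h5 : ∀ i', conj (s i') * (s i' * m i') = ((Complex.normSq (s i') * m i' : ℝ) : ℂ) := by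
    intro i'
    push_cast
    rw [← Complex.mul_conj]
    ring
  rw [Finset.sum_congr rfl fun i' _ => h5 i', ← Complex.ofReal_sum, Complex.ofReal_eq_zero] at h3
  have h6 := (Finset.sum_eq_zero_iff_of_nonneg (fun i' _ => mul_nonneg (Complex.normSq_nonneg _)
    (Nat.cast_nonneg _))).1 h3 i (Finset.mem_univ i)
  rcases mul_eq_zero.1 h6 with h7 | h7
  · exact Complex.normSq_eq_zero.1 h7
  · exact absurd (by exact_mod_cast h7) hi

lemma herm_kernel' (K : IntermediateField ℚ Ω) (f : K →+* ℂ) (b : I → I → Ω) (bK : I → I → K)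
    (hb : ∀ i i', (bK i i' : Ω) = b i i') (hH : ∀ i i', f (bK i' i) = conj (f (bK i i')))
    (m : I → ℕ) (t s : I → Ω) (h1 : ∀ i', s i' * m i' = ∑ i, t i * b i i')
    (h2 : ∀ i', ∑ i, s i * b i i' = 0) (i : I) (hi : m i ≠ 0) : s i = 0 := by
  rw [← Module.forall_dual_apply_eq_zero_iff K]
  intro φ
  have hφ : ∀ (x : Ω) (y : K), φ (x * (y : Ω)) = φ x * y := by
    intro x y
    have : x * (y : Ω) = y • x := by
      rw [Algebra.smul_def, mul_comm]
      rfl
    rw [this, map_smul, smul_eq_mul, mul_comm]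
  apply f.injective
  rw [map_zero]
  refine herm_kernel (fun i i' => f (bK i i')) hH m (fun i => f (φ (t i))) (fun i => f (φ (s i)))
    (fun i' => ?_) (fun i' => ?_) i hi
  · have h3 := congrArg (fun x => f (φ x)) (h1 i')
    have h4 : (m i' : Ω) = ((m i' : K) : Ω) := by simp
    simp only [map_sum] at h3
    rw [h4, hφ, map_mul, map_natCast] at h3
    rw [h3]
    refine Finset.sum_congr rfl fun i _ => ?_
    rw [← hb, hφ, map_mul]
  · have h3 := congrArg (fun x => f (φ x)) (h2 i')
    simp only [map_sum, map_zero] at h3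
    rw [← h3]
    refine Finset.sum_congr rfl fun i _ => ?_
    rw [← hb, hφ, map_mul]

end herm

variable {Ω : Type u} [Field Ω] [CharZero Ω] {H : Type v} [AddCommGroup H] [Module Ω H]
  {H' : Type v} [AddCommGroup H'] [Module Ω H'] {I J : Type} [Fintype I] [Fintype J]

namespace IsSystem

variable {q w : ℕ} {F : Module.End Ω H} {F' : Module.End Ω H'} {T : I → Submodule Ω H}
  {B : I → H →ₗ[Ω] H →ₗ[Ω] Ω} {B' : H' →ₗ[Ω] H' →ₗ[Ω] Ω} {ρ : I → J → H →ₗ[Ω] H'}
  {τ : I → J → H' →ₗ[Ω] H} {d : I → J → ℕ} (S : IsSystem q w F F' T B B' ρ τ d)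
  [FiniteDimensional Ω H] [IsAlgClosed Ω]
include S

lemma tau_form (i : I) (j : J) (z : H') {y : H} (hy : y ∈ T i) :
    B i (τ i j z) y = B' z (ρ i j y) := (S.sim i j).adj z y hy

/-- If `i` is not a vertex then the form with the other restrictions vanishes. -/
lemma form_not_vert {α : Ω} (y : I → H) (hy : ∀ i, y i ∈ T i ⊓ F.maxGenEigenspace α) {i : I}
    (hi : ¬ Vert F T d α i) (j : J) {y' : H} (hy' : y' ∈ T i) (hbot : T i ⊓ F.maxGenEigenspace α ≠ ⊥) :
    B' (∑ k, ρ k j (y k)) (ρ i j y') = (d i j : Ω) * B i (y i) y' := by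
  by_cases hd : d i j = 0
  · rw [(S.sim i j).zero hd y' hy', map_zero, hd, Nat.cast_zero, zero_mul]
  · have hact : Act F T d α i j := ⟨hd, hbot⟩
    have hnl : ¬ IsLink F T d α j := fun hc => hi ⟨j, hc, hact⟩
    rw [Finset.sum_eq_single_of_mem i (Finset.mem_univ i)
      (fun k _ hk => S.zero_of_not_link hact hnl hk (hy k))]
    exact (S.sim i j).form _ (hy i).1 _ hy'

/-- **Semisimplicity.** -/
theorem semi_of_simple {α β : Ω} (h : α * β = (q : Ω) ^ w)
    (hl : ∀ j, IsLink F T d α j → IsLine F T ρ α j) (y z : I → H)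
    (hy : ∀ i, y i ∈ T i ⊓ F.maxGenEigenspace α) (hz : ∀ i, z i ∈ T i ⊓ F.maxGenEigenspace α)
    (hyz : ∀ i, z i = ∑ j, τ i j (∑ k, ρ k j (y k)))
    (h0 : ∀ j, ∑ i, ρ i j (z i) = 0) (i : I) : z i = 0 := by
  classical
  have ι : algebraicClosure ℚ Ω →+* ℂ := by
    have : Algebra.IsAlgebraic ℚ (algebraicClosure ℚ Ω) := ⟨fun x =>
      (isAlgebraic_algebraMap_iff (algebraMap (algebraicClosure ℚ Ω) Ω).injective).1
        (mem_algebraicClosure_iff.1 x.2)⟩
    exact (IsAlgClosed.lift : algebraicClosure ℚ Ω →ₐ[ℚ] ℂ).toRingHom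
  by_cases hi : Vert F T d α i
  swap
  · -- isolated components
    by_cases hbot : T i ⊓ F.maxGenEigenspace α = ⊥
    · have := hz i
      rw [hbot] at this
      exact this
    by_cases hs : ∀ j, d i j = 0
    · apply S.nondeg i (hz i).1
      intro y' hy'
      rw [hyz i, map_sum, LinearMap.sum_apply]
      apply Finset.sum_eq_zero
      intro j _
      rw [S.tau_form i j _ hy', (S.sim i j).zero (hs j) y' hy', map_zero]
    · push Not at hs
      obtain ⟨j, hj⟩ := hs
      apply S.inj i j hj (hz i).1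
      exact S.zero_of_not_vert z hz (fun i' y' _ => by
        apply Finset.sum_eq_zero
        intro j _
        rw [h0 j, map_zero, LinearMap.zero_apply]) hi j
  obtain ⟨e, e', m, h1, h2, h3, h4⟩ := S.exists_frames hl h ι
  set b : J → I → I → Ω := fun k i i' => B' (ρ i k (e i)) (ρ i' k (e' i')) with hb
  -- coefficients
  have ht : ∀ i, ∃ t : Ω, (Vert F T d α i → y i = t • e i) ∧ (¬ Vert F T d α i → t = 0) := by
    intro i
    by_cases hi : Vert F T d α i
    · obtain ⟨c, hc⟩ := (h3 i hi).2 (y i) (hy i)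
      exact ⟨c, fun _ => hc, fun hn => absurd hi hn⟩
    · exact ⟨0, fun hv => absurd hv hi, fun _ => rfl⟩
  choose t ht ht' using ht
  have hs : ∀ i, ∃ s : Ω, (Vert F T d α i → z i = s • e i) ∧ (¬ Vert F T d α i → s = 0) := by
    intro i
    by_cases hi : Vert F T d α i
    · obtain ⟨c, hc⟩ := (h3 i hi).2 (z i) (hz i)
      exact ⟨c, fun _ => hc, fun hn => absurd hi hn⟩
    · exact ⟨0, fun hv => absurd hv hi, fun _ => rfl⟩
  choose s hs hs' using hs
  -- vanishing for inactive components
  have hz0 : ∀ i k, ¬ Act F T d α i k → ρ i k (e i) = 0 ∧ ρ i k (e' i) = 0 := by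
    intro i k hik
    by_cases hd : d i k = 0
    · exact ⟨(S.sim i k).zero hd _ (h1 i).1.1, (S.sim i k).zero hd _ (h1 i).2.1.1⟩
    · have hbot : T i ⊓ F.maxGenEigenspace α = ⊥ := by
        by_contra hne
        exact hik ⟨hd, hne⟩
      have hv : ¬ Vert F T d α i := fun ⟨l, _, hl'⟩ => hl'.2 hbot
      obtain ⟨h5, h6⟩ := h2 i hv
      rw [h5, h6, map_zero]
      exact ⟨rfl, rfl⟩
  -- the contribution of a component
  have hc : ∀ (x : I → H) (c : I → Ω), (∀ i, x i ∈ T i ⊓ F.maxGenEigenspace α) →
      (∀ i, Vert F T d α i → x i = c i • e i) → (∀ i, ¬ Vert F T d α i → c i = 0) →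
      ∀ i' k, B' (∑ i, ρ i k (x i)) (ρ i' k (e' i')) = ∑ i, c i * b k i i' := by
    intro x c hx hx1 hx2 i' k
    rw [map_sum, LinearMap.sum_apply]
    refine Finset.sum_congr rfl fun i _ => ?_
    by_cases hv : Vert F T d α i
    · rw [hx1 i hv, map_smul, map_smul, LinearMap.smul_apply, smul_eq_mul]
    · rw [hx2 i hv, zero_mul]
      by_cases ha : Act F T d α i' k
      · by_cases hlk : IsLink F T d α k
        · have hna : ¬ Act F T d α i k := fun ha' => hv ⟨k, hlk, ha'⟩
          have hx0 : ρ i k (x i) = 0 := by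
            by_cases hd : d i k = 0
            · exact (S.sim i k).zero hd _ (hx i).1
            · have hbot : T i ⊓ F.maxGenEigenspace α = ⊥ := by
                by_contra hne
                exact hna ⟨hd, hne⟩
              have := hx i
              rw [hbot] at this
              rw [show x i = 0 from this, map_zero]
          rw [hx0, map_zero, LinearMap.zero_apply]
        · by_cases hii : i = i'
          · subst hii
            rw [(h2 i hv).2, map_zero, map_zero]
          · rw [S.zero_of_not_link ha hlk hii (hx i), map_zero, LinearMap.zero_apply]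
      · rw [(hz0 i' k ha).2, map_zero]
  have hp : ∀ k i, ∃ r : ℕ, b k i i = r := by
    intro k i
    refine ⟨d i k * m i, ?_⟩
    have h5 := (S.sim i k).form _ (h1 i).1.1 _ (h1 i).2.1.1
    simp only [hb]
    simp only [ev] at h5
    rw [h5, (h1 i).2.2]
    push_cast
    rfl
  -- the entries are algebraic numbers
  have hK : ∀ k i i', ∃ x z : algebraicClosure ℚ Ω, (x : Ω) = b k i i' ∧ (z : Ω) = b k i' i ∧
      ι z = conj (ι x) := by
    intro k i i'
    by_cases hlk : IsLink F T d α k ∧ Act F T d α i k ∧ Act F T d α i' k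
    · obtain ⟨x, z, hx, hz', hxz⟩ := h4 i i' k ⟨k, hlk⟩
      exact ⟨x, z, hx.symm, hz'.symm, hxz⟩
    · by_cases hii : i = i'
      · subst hii
        obtain ⟨r, hr⟩ := hp k i
        refine ⟨r, r, ?_, ?_, ?_⟩
        · rw [hr]
          simp
        · rw [hr]
          simp
        · simp
      · have hzero : b k i i' = 0 ∧ b k i' i = 0 := by
          simp only [hb]
          by_cases ha : Act F T d α i k
          · by_cases ha' : Act F T d α i' k
            · exact absurd ⟨⟨i, i', hii, ha, ha'⟩, ha, ha'⟩ hlk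
            · rw [(hz0 i' k ha').1, (hz0 i' k ha').2]
              simp
          · rw [(hz0 i k ha).1, (hz0 i k ha).2]
            simp
        refine ⟨0, 0, ?_, ?_, ?_⟩
        · rw [hzero.1]
          rfl
        · rw [hzero.2]
          rfl
        · simp
  have hKb : ∀ k i i', ∃ x : algebraicClosure ℚ Ω, (x : Ω) = b k i i' := fun k i i' =>
    ⟨_, (hK k i i').choose_spec.choose_spec.1⟩
  choose bK hbK using hKb
  have hH : ∀ k i i', ι (bK k i' i) = conj (ι (bK k i i')) := by
    intro k i i'
    obtain ⟨x, z, hx, hz', hxz⟩ := hK k i i'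
    have e1 : bK k i i' = x := Subtype.ext ((hbK k i i').trans hx.symm)
    have e2 : bK k i' i = z := Subtype.ext ((hbK k i' i).trans hz'.symm)
    rw [e1, e2, hxz]
  have key := herm_kernel' (algebraicClosure ℚ Ω) ι (fun i i' => ∑ k, b k i i')
    (fun i i' => ∑ k, bK k i i') (fun i i' => by
      push_cast
      exact Finset.sum_congr rfl fun k _ => hbK k i i') (fun i i' => by
      rw [map_sum, map_sum, map_sum]
      exact Finset.sum_congr rfl fun k _ => hH k i i') (fun i => if Vert F T d α i then m i else 0)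
      t s ?_ ?_ i ?_
  · rw [hs i hi, key, zero_smul]
  · intro i'
    by_cases hv : Vert F T d α i'
    · simp only [if_pos hv]
      have h5 : B i' (z i') (e' i') = s i' * m i' := by
        rw [hs i' hv, map_smul, LinearMap.smul_apply, smul_eq_mul, (h1 i').2.2]
      rw [← h5, hyz i', map_sum, LinearMap.sum_apply]
      simp only [Finset.mul_sum]
      rw [Finset.sum_comm]
      refine Finset.sum_congr rfl fun k _ => ?_
      rw [S.tau_form i' k _ (h1 i').2.1.1]
      exact hc y t hy ht ht' i' k
    · simp only [if_neg hv, Nat.cast_zero, mul_zero]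
      symm
      apply Finset.sum_eq_zero
      intro i _
      have h5 : ∀ k, b k i i' = 0 := by
        intro k
        simp only [hb]
        rw [(h2 i' hv).2, map_zero, map_zero]
      rw [Finset.sum_eq_zero fun k _ => h5 k, mul_zero]
  · intro i'
    simp only [Finset.mul_sum]
    rw [Finset.sum_comm]
    apply Finset.sum_eq_zero
    intro k _
    rw [← hc z s hz hs hs' i' k, h0 k, map_zero, LinearMap.zero_apply]
  · simp only [if_pos hi]
    exact (h3 i hi).1.ne'

end IsSystem

end Run7.h615.WS
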