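import Pool.Agent.Run7.h615.WI.Gen

/-!
# The cohomology of the generic fibre and the weight spectral sequence
-/

namespace Run7.h615.WI

universe u v

open Module Pool.Agent.Y143 Pool.Agent.Helper60K9.KL Run7.h615.WL

variable {Ω : Type u} [Field Ω] [CharZero Ω] [IsAlgClosed Ω] {Γ : Type} {n q : ℕ}

/-- The multiplicity on the cohomology of the generic fibre. -/
noncomputable abbrev vv (X : SemistableModel.{u, v} Ω Γ n q) (m : ℕ) (α : Ω) : ℕ :=
  mlt (X.actV m X.frob) ⊤ α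

/-- The multiplicity on the kernel of the monodromy. -/
noncomputable abbrev kk (X : SemistableModel.{u, v} Ω Γ n q) (m : ℕ) (α : Ω) : ℕ :=
  mlt (X.actV m X.frob) (LinearMap.ker (X.N m)) α

section model

variable (X : SemistableModel.{u, v} Ω Γ n q)

lemma hasWeights_W (m : ℕ) : HasWeights q 0 (X.actV m X.frob) (X.W m) := by
  refine ⟨X.W_mono m, X.W_bot m, X.W_top m, fun a v hv => ?_, fun a α v hv hv' hα => ?_⟩
  · obtain ⟨x, hx⟩ := X.sp_left m _ v hv
    exact (X.sp_mem m _ _ _ (X.sp_act m _ v x X.frob hx)).1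
  · obtain ⟨x, hx⟩ := X.sp_left m _ v hv
    have h1 := (X.sp_mem m _ _ _ hx).2
    have h2 : x ∉ X.coboundaries (m - a) a := fun hc => hv' ((X.sp_ker m _ _ _ hx).2 hc)
    have h3 : (X.actV m X.frob v - α • v, X.actC (m - a) X.frob x - α • x) ∈ X.sp m a :=
      Submodule.sub_mem _ (X.sp_act m _ v x X.frob hx) (Submodule.smul_mem _ α hx)
    have h5 : X.actC (m - a) X.frob x - α • x ∈ X.coboundaries (m - a) a :=
      (X.sp_ker m _ _ _ h3).1 hα
    obtain ⟨y, hy, hy0, hyα⟩ := exists_eigen (S := X.actC (m - a) X.frob)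
      (X.bd_le_zc _ _) (fun x hx => X.actC_bd _ _ _ hx) h1 h2 h5
    rw [add_zero]
    exact X.weil_E₁ hy.1 hy0 hyα

lemma actC_coc (r w : ℤ) {x : X.C} (hx : x ∈ X.cocycles r w) :
    X.actC r X.frob x ∈ X.cocycles r w := by
  refine ⟨X.actC_mem _ hx.1, ?_⟩
  have h1 : X.diff r x = 0 := hx.2
  show X.diff r (X.actC r X.frob x) = 0
  rw [← X.diff_actC, h1, map_zero]

lemma mlt_W (m : ℕ) (w : ℤ) (β : Ω) :
    mlt (X.actV m X.frob) (X.W m w) β + bb X.toSpecialFibre (m - w) w β =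
      mlt (X.actV m X.frob) (X.W m (w - 1)) β + zz X.toSpecialFibre (m - w) w β := by
  have := finite_V X m
  exact mlt_graph (S := X.sp m w) (fun v x h => X.sp_act m w v x X.frob h)
    (fun v x h => X.sp_mem m w v x h) (fun v hv => X.sp_left m w v hv)
    (fun x hx => X.sp_right m w x hx) (fun v x h => X.sp_ker m w v x h)
    (X.W_mono m (by omega)) (X.bd_le_zc _ _) (fun x hx => X.actC_bd _ _ _ hx) β

/-- The multiplicity of an eigenvalue of weight `w` on `H^m` is its multiplicity on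
`E_2^(m - w, w)`. -/
lemma vv_eq (hq : 2 ≤ q) (m : ℕ) {w : ℤ} {α : Ω} (hα : IsWeilNumber q w α) {r : ℤ}
    (hr : r = m - w) :
    vv X m α + bb X.toSpecialFibre r w α = zz X.toSpecialFibre r w α := by
  subst hr
  have h := mlt_W X m w α
  have hW := hasWeights_W X m
  rw [(hW.mlt_le hq hα w).1 (by omega), (hW.mlt_le hq hα (w - 1)).2 (by omega), zero_add] at h
  exact h

variable {X} {m : ℕ} (hX : IsMWPure q m (X.actV m X.frob) (X.N m))
  (hNF : ∀ x, X.N m (X.actV m X.frob x) = (q : Ω) • X.actV m X.frob (X.N m x))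
include hX hNF

lemma kk_eq (hq : 2 ≤ q) {α : Ω} {w : ℤ} (hα : IsWeilNumber q w ((q : Ω) * α)) :
    (w ≤ m + 1 → vv X m ((q : Ω) * α) = kk X m ((q : Ω) * α) + vv X m α) ∧
    (m < w → kk X m ((q : Ω) * α) = 0) := by
  obtain ⟨M, h1, h2, h3⟩ := hX
  have := finite_V X m
  exact mlt_ker hq (i := m) (M := M) ⟨h1.mono, h1.bot, h1.top, h2, h3⟩ h1 hNF hα

/-- The multiplicities of the weights `m + 1` and `m - 1`. -/
lemma vv_shift (hq : 2 ≤ q) {α : Ω} (hα : IsWeilNumber q (m + 1) ((q : Ω) * α)) :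
    vv X m ((q : Ω) * α) = vv X m α := by
  obtain ⟨h1, h2⟩ := kk_eq hX hNF hq hα
  rw [h1 le_rfl, h2 (by omega), zero_add]

end model

section deg

variable (X : Degeneration.{u, v} Ω Γ n q)

lemma lefC_pow_actC (r : ℤ) (s : ℕ) (x : X.C) :
    (X.lefC ^ s) (X.actC r X.frob x) = ((q : Ω)⁻¹ ^ s) • X.actC r X.frob ((X.lefC ^ s) x) := by
  have hqΩ : (q : Ω) ≠ 0 := Nat.cast_ne_zero.2 X.q_ne
  induction s generalizing x with
  | zero => simp
  | succ s ih =>
    rw [pow_succ X.lefC s, Module.End.mul_apply, Module.End.mul_apply]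
    have h1 := X.lefC_actC r X.frob x
    rw [X.cyc_frob] at h1
    have h2 : X.lefC (X.actC r X.frob x) = (q : Ω)⁻¹ • X.actC r X.frob (X.lefC x) := by
      rw [h1, smul_smul, inv_mul_cancel₀ hqΩ, one_smul]
    rw [h2, map_smul, ih, smul_smul, pow_succ, mul_comm]

lemma lefC_pow_mem (r : ℤ) (s : ℕ) {w : ℤ} {x : X.C} (hx : x ∈ X.E₁ r w) :
    (X.lefC ^ s) x ∈ X.E₁ r (w + 2 * s) := by
  induction s with
  | zero => simpa using hx
  | succ s ih =>
    rw [pow_succ', Module.End.mul_apply]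
    have := X.lefC_mem ih
    rwa [show w + 2 * ((s + 1 : ℕ) : ℤ) = w + 2 * s + 2 by push_cast; ring]

lemma lefC_pow_diff (r : ℤ) (s : ℕ) (x : X.C) :
    X.diff r ((X.lefC ^ s) x) = (X.lefC ^ s) (X.diff r x) := by
  induction s with
  | zero => simp
  | succ s ih =>
    rw [pow_succ', Module.End.mul_apply, Module.End.mul_apply, X.diff_lefC, ih]

/-- The hard Lefschetz theorem for the multiplicities. -/
lemma lefschetz_mlt (r : ℤ) (s : ℕ) (β : Ω) :
    zz X.toSpecialFibre r (n - s - r) ((q : Ω)⁻¹ ^ s * β) +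
        bb X.toSpecialFibre r (n + s - r) β =
      bb X.toSpecialFibre r (n - s - r) ((q : Ω)⁻¹ ^ s * β) +
        zz X.toSpecialFibre r (n + s - r) β := by
  have hqΩ : (q : Ω) ≠ 0 := Nat.cast_ne_zero.2 X.q_ne
  refine mlt_isoOn (pow_ne_zero s (inv_ne_zero hqΩ)) (lefC_pow_actC X r s)
    (fun x hx => actC_coc _ _ _ hx) (X.bd_le_zc _ _) (fun x hx => actC_coc _ _ _ hx)
    (fun x hx => X.actC_bd _ _ _ hx) (X.bd_le_zc _ _) ?_ ?_
    (fun x hx h => X.lefschetz_inj r s x hx h) (fun y hy => X.lefschetz_surj r s y hy) β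
  · intro x hx
    have h1 := lefC_pow_mem X r s hx.1
    rw [show (n : ℤ) - s - r + 2 * s = n + s - r by ring] at h1
    have h2 : X.diff r x = 0 := hx.2
    refine ⟨h1, ?_⟩
    show X.diff r ((X.lefC ^ s) x) = 0
    rw [lefC_pow_diff, h2, map_zero]
  · rintro _ ⟨y, hy, rfl⟩
    have h1 := lefC_pow_mem X (r - 1) s hy
    rw [show (n : ℤ) - s - r + 2 * s = n + s - r by ring] at h1
    exact ⟨_, h1, lefC_pow_diff X (r - 1) s y⟩

end deg

end Run7.h615.WI
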